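/-
Row CLAIM: the spread of the tuple stays small near a good point (a tuple with the least number of
points near the line).
-/
import Pool.Agent.Lib.LGT.Rows

set_option autoImplicit false

namespace Pool.Agent.LGT

open scoped Pointwise
open Classical

noncomputable section

variable {G : Type} [Group G] {S : Finset G} {H : Subgroup G}

private theorem claim_tr (hS : Gen S) (a : G) (x y : G ⧸ H) :
    dst S x (a • y) ≤ dst S x y + len S a := by
  have h1 := dst_triangle hS x y (a • y)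
  have h2 := dst_smul_le hS y a
  omega

private theorem claim_lip (hS : Gen S) {β : G ⧸ H → ℤ} (hβ : Lip S β) (a : G) (x : G ⧸ H) :
    β (a • x) ≤ β x + len S a ∧ β x ≤ β (a • x) + len S a := by
  have h1 := hβ x (a • x)
  have h2 := dst_smul_le hS x a
  rw [abs_le] at h1
  omega

private theorem claim_lipd {β : G ⧸ H → ℤ} (hβ : Lip S β) (x y : G ⧸ H) :
    β y ≤ β x + dst S x y := by
  have h1 := hβ x y
  rw [abs_le] at h1
  omega

private theorem claim_abs (hS : Gen S) {γ : ℤ → G ⧸ H} (hγ : GeoL S γ) (a b : ℤ) :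
    (dst S (γ a) (γ b) : ℤ) = |a - b| := by
  rcases le_total a b with h | h
  · rw [hγ a b h, abs_sub_comm, abs_of_nonneg (by omega)]
  · rw [dst_comm hS, hγ b a h, abs_of_nonneg (by omega)]

private theorem claim_ff {γ : ℤ → G ⧸ H} (hγ : GeoL S γ) {β : G ⧸ H → ℤ} (hβ : Lip S β) (t : ℤ)
    (ρ : ℕ) : ((ball S (γ t) ρ).card : ℝ) ≤ FF S γ β t ρ := by
  have h1 := claim_lipd hβ (γ (t - ρ)) (γ (t + ρ))
  rw [hγ (t - ρ) (t + ρ) (by omega)] at h1
  have h2 : ((β (γ (t + ρ)) : ℤ) : ℝ) ≤ ((β (γ (t - ρ)) + (t + ρ - (t - ρ)) : ℤ) : ℝ) := by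
    exact_mod_cast h1
  push_cast at h2
  unfold FF
  linarith

/-- existence of a proper concentrated part -/
private theorem claim_pre (hL : RowLEFT) {C L : ℕ} {g : ℕ → ℕ} {c : ℝ} (hS : Gen S)
    (hM : Min S C g c) {γ : ℤ → G ⧸ H} {β : ℕ → G ⧸ H → ℤ} {p : ℕ → Fin L → G ⧸ H}
    (hgr : GrL S C H) (hγ : GeoL S γ) (hβ : ∀ i, Lip S (β i)) {K : Finset (Fin L)} {j₀ : Fin L}
    {v : ℕ → G} {t : ℕ → ℤ} {r : ℕ → ℕ} (hst : State S c γ β p K j₀ v t r) (u : ℕ → G) (M : ℕ)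
    (s : ℕ → ℕ) (hs : Inf s) (hu : ∀ᶠ i in (𝒰 : Filter ℕ), 8 * len S (u i) ≤ r i)
    (hsp : ∀ᶠ i in (𝒰 : Filter ℕ), ∃ j ∈ K, s i ≤ dst S (u i • v i • p i j₀) (u i • v i • p i j))
    (hloc : ∀ᶠ i in (𝒰 : Filter ℕ), dst S (γ (t i)) (u i • v i • p i j₀) ≤ M * s i) :
    ∃ (K' : Finset (Fin L)) (s' : ℕ → ℕ), Pre S γ β p K v t r K' u s' := by
  obtain ⟨σ, hσ⟩ : ∃ σ : ℕ → ℕ, ∀ i, σ i =
      K.sup fun j => dst S (u i • v i • p i j₀) (u i • v i • p i j) := ⟨_, fun _ => rfl⟩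
  have hKne : K.Nonempty := ⟨j₀, hst.mem⟩
  have hle : ∀ i, ∀ j ∈ K, dst S (u i • v i • p i j₀) (u i • v i • p i j) ≤ σ i := by
    intro i j hj
    rw [hσ]
    exact Finset.le_sup (f := fun j => dst S (u i • v i • p i j₀) (u i • v i • p i j)) hj
  have hex : ∀ i, ∃ j ∈ K, σ i = dst S (u i • v i • p i j₀) (u i • v i • p i j) := by
    intro i
    rw [hσ]
    exact Finset.exists_mem_eq_sup K hKne _
  choose a haK haσ using hex
  obtain ⟨j₁, hj₁K, hj₁⟩ : ∃ j ∈ K, ∀ᶠ i in (𝒰 : Filter ℕ), a i = j := by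
    by_contra hcon
    have h1 : ∀ j ∈ K, ∀ᶠ i in (𝒰 : Filter ℕ), ¬ a i = j := fun j hj =>
      Ultrafilter.eventually_not.2 fun h => hcon ⟨j, hj, h⟩
    have h2 : ∀ᶠ i in (𝒰 : Filter ℕ), ∀ j ∈ K, ¬ a i = j := (Filter.eventually_all_finset K).2 h1
    obtain ⟨i, hi⟩ := h2.exists
    exact hi _ (haK i) rfl
  have hnear : ∀ᶠ i in (𝒰 : Filter ℕ), ∀ j ∈ K, 8 * dst S (γ (t i)) (v i • p i j) ≤ r i := by
    refine (Filter.eventually_all_finset K).2 fun j hj => ?_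
    refine (hst.near j hj (1 / 8) (by norm_num)).mono fun i hi => ?_
    have h1 : (8 : ℝ) * dst S (γ (t i)) (v i • p i j) ≤ r i := by linarith
    exact_mod_cast h1
  have hsσ : ∀ᶠ i in (𝒰 : Filter ℕ), s i ≤ σ i := by
    refine hsp.mono fun i hi => ?_
    obtain ⟨j, hj, h1⟩ := hi
    exact h1.trans (hle i j hj)
  have hσr : ∀ᶠ i in (𝒰 : Filter ℕ), 8 * σ i ≤ 3 * r i := by
    filter_upwards [hnear, hu, hst.pt] with i h1 h2 h3
    have h4 := h1 (a i) (haK i)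
    rw [haσ i]
    have h5 := claim_tr hS (u i) (v i • p i j₀) (v i • p i (a i))
    have h6 := dst_triangle hS (u i • v i • p i j₀) (v i • p i j₀) (u i • v i • p i (a i))
    have h7 := dst_smul_le hS (v i • p i j₀) (u i)
    rw [dst_comm hS] at h7
    rw [← h3] at h4
    omega
  obtain ⟨K', s', h1, h2⟩ := hL G S C L g c hS hM H γ β p hgr hγ hβ K j₀ v t r hst K u σ (M + 1) 1
    (Finset.Subset.refl K)
    (fun N => by
      filter_upwards [hs N, hsσ] with i h1 h2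
      omega)
    (fun j hj => by
      filter_upwards [hloc, hsσ] with i h1 h2
      have h3 := dst_triangle hS (γ (t i)) (u i • v i • p i j₀) (u i • v i • p i j)
      have h4 := hle i j hj
      have h5 := Nat.mul_le_mul_left M h2
      have h6 : (M + 1) * σ i = M * σ i + σ i := by ring
      omega)
    one_pos
    ⟨j₀, hst.mem, j₁, hj₁K, hj₁.mono fun i hi => by
      have h1 := haσ i
      rw [hi] at h1
      rw [← h1, one_mul]⟩
    (fun j hj j' hj' => by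
      filter_upwards [hst.far j hj, hnear, hu, hσr] with i h1 h2 h3 h4
      have h5 := (claim_lip hS (hβ i) (u i) (v i • p i j)).2
      have h6 := claim_lipd (hβ i) (γ (t i)) (u i • v i • p i j')
      have h7 := claim_tr hS (u i) (γ (t i)) (v i • p i j')
      have h8 := h2 j' hj'
      omega)
    (by
      filter_upwards [hu, hσr] with i h1 h2
      omega)
  exact ⟨K', s', h2⟩

/-- the concentrated part stays concentrated -/
private theorem claim_a (hL : RowLEFT) {C L : ℕ} {g : ℕ → ℕ} {c : ℝ} (hS : Gen S)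
    (hM : Min S C g c) {γ : ℤ → G ⧸ H} {β : ℕ → G ⧸ H → ℤ} {p : ℕ → Fin L → G ⧸ H}
    (hgr : GrL S C H) (hγ : GeoL S γ) (hβ : ∀ i, Lip S (β i)) {K : Finset (Fin L)} {j₀ : Fin L}
    {v : ℕ → G} {t : ℕ → ℤ} {r : ℕ → ℕ} (hst : State S c γ β p K j₀ v t r)
    {K' : Finset (Fin L)} {u : ℕ → G} {s : ℕ → ℕ} (hp : Pre S γ β p K v t r K' u s)
    (hmin : ∀ (K'' : Finset (Fin L)) (u'' : ℕ → G) (s'' : ℕ → ℕ),
      Pre S γ β p K v t r K'' u'' s'' → K'.card ≤ K''.card)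
    (x : ℕ → G) (hx : ∀ᶠ i in (𝒰 : Filter ℕ), 2 * len S (x i) ≤ s i) (j : Fin L) (hj : j ∈ K')
    (j' : Fin L) (hj' : j' ∈ K') (δ : ℝ) (hδ : 0 < δ) :
    ∀ᶠ i in (𝒰 : Filter ℕ),
      (dst S (x i • u i • v i • p i j) (x i • u i • v i • p i j') : ℝ) ≤ δ * s i := by
  by_contra hcon
  have h0 := Ultrafilter.eventually_not.2 hcon
  obtain ⟨M, hM'⟩ := hp.loc
  obtain ⟨K'', s'', h1, h2⟩ := hL G S C L g c hS hM H γ β p hgr hγ hβ K j₀ v t r hst K'
    (fun i => x i * u i) s (M + 1) δ hp.sub.1 hp.inf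
    (fun j hj => by
      filter_upwards [hM' j hj, hx] with i h1 h2
      rw [mul_smul]
      have h3 := claim_tr hS (x i) (γ (t i)) (u i • v i • p i j)
      have h6 : (M + 1) * s i = M * s i + s i := by ring
      omega)
    hδ
    ⟨j, hj, j', hj', h0.mono fun i hi => by
      rw [mul_smul, mul_smul]
      exact (not_le.1 hi).le⟩
    (fun j hj j' hj' => by
      filter_upwards [hp.far j hj j' hj', hx] with i h1 h2
      rw [mul_smul, mul_smul]
      have h3 := (claim_lip hS (hβ i) (x i) (u i • v i • p i j)).2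
      have h4 := (claim_lip hS (hβ i) (x i) (u i • v i • p i j')).1
      omega)
    (by
      filter_upwards [hp.len, hx] with i h1 h2
      have h3 := len_mul_le hS (x i) (u i)
      omega)
  have h3 := hmin K'' _ s'' h2
  have h4 := Finset.card_lt_card h1
  omega

theorem rowCLAIM (hL : RowLEFT) (hMV : RowMOVE) (hSB : RowSUB) (hLN : RowLINE) : RowCLAIM := by
  intro G _ S C L g c hS hM H γ β p hgr hγ htup K j₀ v t r hst hmin u M s hs hu hsp hloc
  obtain ⟨K₁, s₁, hpre₁⟩ := claim_pre hL hS hM hgr hγ htup.lip hst u M s hs hu hsp hloc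
  obtain ⟨K', u', s', hp, hmin'⟩ : ∃ (K' : Finset (Fin L)) (u' : ℕ → G) (s' : ℕ → ℕ),
      Pre S γ β p K v t r K' u' s' ∧ ∀ (K'' : Finset (Fin L)) (u'' : ℕ → G) (s'' : ℕ → ℕ),
        Pre S γ β p K v t r K'' u'' s'' → K'.card ≤ K''.card := by
    have hex : ∃ m : ℕ, ∃ (K' : Finset (Fin L)) (u' : ℕ → G) (s' : ℕ → ℕ),
        Pre S γ β p K v t r K' u' s' ∧ K'.card = m := ⟨_, K₁, u, s₁, hpre₁, rfl⟩
    obtain ⟨K', u', s', h1, h2⟩ := Nat.find_spec hex
    refine ⟨K', u', s', h1, fun K'' u'' s'' h => ?_⟩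
    rw [h2]
    exact Nat.find_min' hex ⟨K'', u'', s'', h, rfl⟩
  obtain ⟨M₀, hM₀⟩ := hp.loc
  obtain ⟨j₁, hj₁⟩ := hp.ne
  have hj₁K : j₁ ∈ K := hp.sub.1 hj₁
  obtain ⟨y, hy⟩ : ∃ y : ℕ → G ⧸ H, ∀ i, y i = u' i • v i • p i j₁ := ⟨_, fun _ => rfl⟩
  have hτ : ∀ i, ∃ τ : ℤ, ∀ τ' : ℤ, dst S (γ τ) (y i) ≤ dst S (γ τ') (y i) := by
    intro i
    have hex : ∃ m : ℕ, ∃ τ : ℤ, dst S (γ τ) (y i) = m := ⟨_, 0, rfl⟩
    obtain ⟨τ, h1⟩ := Nat.find_spec hex
    refine ⟨τ, fun τ' => ?_⟩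
    rw [h1]
    exact Nat.find_min' hex ⟨τ', rfl⟩
  choose τ hτ using hτ
  have hnear : ∀ᶠ i in (𝒰 : Filter ℕ), 8 * dst S (γ (t i)) (v i • p i j₁) ≤ r i := by
    refine (hst.near j₁ hj₁K (1 / 8) (by norm_num)).mono fun i hi => ?_
    have h1 : (8 : ℝ) * dst S (γ (t i)) (v i • p i j₁) ≤ r i := by linarith
    exact_mod_cast h1
  -- the distance of `y i` from the line is small
  have hline : ∀ ε : ℝ, 0 < ε → ∀ᶠ i in (𝒰 : Filter ℕ), (dst S (γ (τ i)) (y i) : ℝ) ≤ ε * s' i := by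
    intro ε hε
    have hM1 : (0 : ℝ) < 2 * (M₀ + 1) := by positivity
    obtain ⟨δ, hδ, R, hR⟩ := hLN G S C g c hS hM (ε / (2 * (M₀ + 1))) (by positivity)
    obtain ⟨R', hR'⟩ := hst.good δ hδ
    filter_upwards [hR', hp.inf (R + R'), hst.inf (R + R'), hM₀ j₁ hj₁, hnear, hp.len]
      with i h1 h2 h3 h4 h5 h6
    rw [← hy i] at h4
    have h7 := claim_tr hS (u' i) (γ (t i)) (v i • p i j₁)
    rw [← hy i] at h7
    have h8 : 2 * (M₀ + 1) * s' i = 2 * (M₀ * s' i) + 2 * s' i := by ring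
    obtain ⟨ρ, hρ⟩ : ∃ ρ, ρ = min (2 * (M₀ + 1) * s' i) (r i) := ⟨_, rfl⟩
    have h9 : ρ ≤ 2 * (M₀ + 1) * s' i := by rw [hρ]; exact min_le_left _ _
    have h10 : ρ ≤ r i := by rw [hρ]; exact min_le_right _ _
    have h11 : R + R' ≤ ρ := by
      rw [hρ]
      refine le_min ?_ h3
      omega
    have h12 : 2 * dst S (γ (t i)) (y i) ≤ ρ := by
      rw [hρ]
      refine le_min ?_ ?_ <;> omega
    have h13 := (hR H γ (t i) ρ hgr (fun a b _ hab _ => hγ a b hab) (by omega)).1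
      ((claim_ff hγ (htup.lip i) (t i) ρ).trans (h1 ρ (by omega) h10)) (y i) h12
    obtain ⟨a, -, ha⟩ := h13
    have h14 : (dst S (γ (τ i)) (y i) : ℝ) ≤ dst S (γ a) (y i) := by exact_mod_cast hτ i a
    have h15 : (ρ : ℝ) ≤ 2 * (M₀ + 1) * s' i := by exact_mod_cast h9
    calc (dst S (γ (τ i)) (y i) : ℝ) ≤ ε / (2 * (M₀ + 1)) * ρ := h14.trans ha
      _ ≤ ε / (2 * (M₀ + 1)) * (2 * (M₀ + 1) * s' i) :=
        mul_le_mul_of_nonneg_left h15 (by positivity)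
      _ = ε * s' i := by field_simp
  have hline16 : ∀ᶠ i in (𝒰 : Filter ℕ), 16 * dst S (γ (τ i)) (y i) ≤ s' i := by
    refine (hline (1 / 16) (by norm_num)).mono fun i hi => ?_
    have h1 : (16 : ℝ) * dst S (γ (τ i)) (y i) ≤ s' i := by linarith
    exact_mod_cast h1
  -- the windows at `τ i` are nearly minimal
  have hFF : ∀ ε : ℝ, 0 < ε →
      ∀ᶠ i in (𝒰 : Filter ℕ), FF S γ (β i) (τ i) (s' i) ≤ (c + ε) * s' i := by
    intro ε hε
    obtain ⟨δ, hδ, R, hR⟩ := hSB G S C g c hS hM (M₀ + 2) ε hε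
    obtain ⟨R', hR'⟩ := hst.good δ hδ
    filter_upwards [hR', hp.inf (R + R'), hM₀ j₁ hj₁, hnear, hp.len, hline16]
      with i h1 h2 h4 h5 h6 h7
    rw [← hy i] at h4
    have h8 := claim_tr hS (u' i) (γ (t i)) (v i • p i j₁)
    rw [← hy i] at h8
    have h9 := dst_triangle hS (γ (τ i)) (y i) (γ (t i))
    rw [dst_comm hS (y i)] at h9
    have h10 := claim_abs hS hγ (τ i) (t i)
    obtain ⟨ρ, hρ⟩ : ∃ ρ : ℕ, ρ = dst S (γ (τ i)) (γ (t i)) + s' i := ⟨_, rfl⟩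
    have h11 : (M₀ + 2) * s' i = M₀ * s' i + 2 * s' i := by ring
    refine (hR H γ (t i) (τ i) (s' i) ρ hgr (fun a b _ hab _ => hγ a b hab) (by omega) (by omega)
      ?_).2 (β i) (htup.lip i) (h1 ρ (by omega) (by omega))
    rw [← h10, hρ]
    push_cast
    omega
  obtain ⟨t', ht', hgood⟩ := hMV G S C g c hS hM H γ β τ s' hgr hγ htup.lip hp.inf hFF
  choose x hxy hxl using fun i => exists_word hS (y i) (γ (t' i))
  have hx : ∀ᶠ i in (𝒰 : Filter ℕ), 8 * len S (x i) ≤ s' i := by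
    filter_upwards [ht', hline16] with i h1 h2
    have h3 := dst_triangle hS (y i) (γ (τ i)) (γ (t' i))
    rw [dst_comm hS (y i) (γ (τ i))] at h3
    have h4 := claim_abs hS hγ (τ i) (t' i)
    have h5 := hxl i
    rw [abs_sub_comm] at h4
    omega
  have hstate : State S c γ β p K' j₁ (fun i => x i * (u' i * v i)) t' (fun i => s' i / 8) := by
    refine ⟨hj₁, Filter.Eventually.of_forall fun i => ?_, fun N => ?_, fun ε hε => ?_,
      fun j hj δ hδ => ?_, fun j hj => ?_⟩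
    · rw [mul_smul, mul_smul, ← hy i, hxy i]
    · filter_upwards [hp.inf (8 * N)] with i h1
      omega
    · obtain ⟨R, hR⟩ := hgood ε hε
      refine ⟨R, hR.mono fun i hi ρ h1 h2 => hi ρ h1 ?_⟩
      have h3 : ρ ≤ s' i / 8 := h2
      change ρ ≤ s' i / 2
      omega
    · filter_upwards [claim_a hL hS hM hgr hγ htup.lip hst hp hmin' x
        (hx.mono fun i hi => by omega) j₁ hj₁ j hj (δ / 16) (by positivity), hp.inf 8] with i h1 h2
      rw [mul_smul, mul_smul, ← hxy i, hy i]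
      have h3 : s' i ≤ 16 * (s' i / 8) := by omega
      have h4 : (s' i : ℝ) ≤ 16 * ((s' i / 8 : ℕ) : ℝ) := by exact_mod_cast h3
      calc _ ≤ δ / 16 * s' i := h1
        _ ≤ δ / 16 * (16 * ((s' i / 8 : ℕ) : ℝ)) := mul_le_mul_of_nonneg_left h4 (by positivity)
        _ = δ * ((s' i / 8 : ℕ) : ℝ) := by ring
    · filter_upwards [hp.far j hj j₁ hj₁, hx] with i h1 h2
      rw [mul_smul, mul_smul, ← hxy i]
      rw [← hy i] at h1
      have h3 := (claim_lip hS (htup.lip i) (x i) (y i)).1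
      have h4 := (claim_lip hS (htup.lip i) (x i) (u' i • v i • p i j)).2
      omega
  have h1 := hmin K' j₁ _ t' _ hstate
  have h2 := Finset.card_lt_card hp.sub
  omega

end

end Pool.Agent.LGT
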