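/-
Row CLAIM (second version): the spread of a minimal state stays small.
-/
import Pool.Agent.Lib.LGT.Rows

set_option autoImplicit false

namespace Pool.Agent.LGT

open scoped Pointwise
open Classical

noncomputable section

private theorem claim2_dst_smul {G X : Type} [Group G] [MulAction G X] {S : Finset G} (h : Gen S)
    [MulAction.IsPretransitive G X] (a : G) (x y : X) :
    dst S (a • x) (a • y) ≤ 2 * len S a + dst S x y := by
  have h1 := dst_triangle h (a • x) x (a • y)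
  have h2 := dst_triangle h x y (a • y)
  have h3 := dst_smul_le h x a
  have h4 := dst_smul_le h y a
  have h5 := dst_comm h (a • x) x
  omega

private theorem claim2_dst_right {G X : Type} [Group G] [MulAction G X] {S : Finset G} (h : Gen S)
    [MulAction.IsPretransitive G X] (a : G) (x y : X) :
    dst S x (a • y) ≤ dst S x y + len S a := by
  have h2 := dst_triangle h x y (a • y)
  have h4 := dst_smul_le h y a
  omega

private theorem claim2_geo {G X : Type} [Group G] [MulAction G X] {S : Finset G} (h : Gen S)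
    [MulAction.IsPretransitive G X] {γ : ℤ → X} (hγ : GeoL S γ) (a b : ℤ) :
    (dst S (γ a) (γ b) : ℤ) = |a - b| := by
  rcases le_total a b with hab | hab
  · rw [hγ a b hab, abs_of_nonpos (by omega)]; ring
  · rw [dst_comm h, hγ b a hab, abs_of_nonneg (by omega)]

private theorem claim2_card_le_FF {G X : Type} [Group G] [MulAction G X] {S : Finset G} (h : Gen S)
    [MulAction.IsPretransitive G X] {γ : ℤ → X} (hγ : GeoL S γ) {β : X → ℤ} (hβ : Lip S β) (t : ℤ)
    (ρ : ℕ) : ((ball S (γ t) ρ).card : ℝ) ≤ FF S γ β t ρ := by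
  have h1 := hβ (γ (t + ρ)) (γ (t - ρ))
  have h2 := claim2_geo h hγ (t + ρ) (t - ρ)
  have h3 : |(t + (ρ : ℤ)) - (t - ρ)| = 2 * ρ := by
    rw [abs_of_nonneg (by omega)]; ring
  have h4 : β (γ (t + ρ)) - β (γ (t - ρ)) ≤ 2 * ρ := by
    have := le_abs_self (β (γ (t + ρ)) - β (γ (t - ρ)))
    omega
  have h5 : ((β (γ (t + ρ)) : ℝ) - β (γ (t - ρ))) ≤ 2 * ρ := by exact_mod_cast h4
  unfold FF
  linarith

private theorem claim2_geoLGeo {G X : Type} [Group G] [MulAction G X] {S : Finset G}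
    {γ : ℤ → X} (hγ : GeoL S γ) (a b : ℤ) : Geo S a b γ :=
  fun s t _ h2 _ => hγ s t h2

private theorem claim2_lip_smul {G X : Type} [Group G] [MulAction G X] {S : Finset G} (h : Gen S)
    [MulAction.IsPretransitive G X] {β : X → ℤ} (hβ : Lip S β) (a : G) (x : X) :
    β (a • x) ≤ β x + len S a ∧ β x ≤ β (a • x) + len S a := by
  have h1 := hβ x (a • x)
  have h2 : (dst S x (a • x) : ℤ) ≤ len S a := by exact_mod_cast dst_smul_le h x a
  have h3 := abs_le.1 (h1.trans h2)
  constructor <;> linarith [h3.1, h3.2]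

/-- the first part: there is a concentrated proper part -/
private theorem claim2_pre (hLEFT : RowLEFT) {G : Type} [Group G] {S : Finset G} {C L : ℕ}
    {g : ℕ → ℕ} {c : ℝ} (h : Gen S) (hmin : Min S C g c) {H : Subgroup G} {γ : ℤ → G ⧸ H}
    {β : ℕ → G ⧸ H → ℤ} {p : ℕ → Fin L → G ⧸ H} (hgr : GrL S C H) (hgeo : GeoL S γ)
    (hlip : ∀ i, Lip S (β i)) {K : Finset (Fin L)} {j₀ : Fin L} {v : ℕ → G} {t : ℕ → ℤ}
    {r : ℕ → ℕ} (hst : State S c γ β p K j₀ v t r) {u : ℕ → G} {M : ℕ} {s : ℕ → ℕ} (hs : Inf s)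
    (hlen : ∀ᶠ i in (𝒰 : Filter ℕ), 8 * len S (u i) ≤ r i)
    (hspr : ∀ᶠ i in (𝒰 : Filter ℕ), ∃ j ∈ K, s i ≤ dst S (u i • v i • p i j₀) (u i • v i • p i j))
    (hdst : ∀ᶠ i in (𝒰 : Filter ℕ), dst S (γ (t i)) (u i • v i • p i j₀) ≤ M * s i) :
    ∃ (K' : Finset (Fin L)) (u' : ℕ → G) (s' : ℕ → ℕ), Pre S γ β p K v t r K' u' s' := by
  have hmax : ∀ᶠ i in (𝒰 : Filter ℕ), ∃ j₁ ∈ (K : Set (Fin L)), ∀ j ∈ K,
      dst S (u i • v i • p i j₀) (u i • v i • p i j) ≤
        dst S (u i • v i • p i j₀) (u i • v i • p i j₁) := by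
    refine Filter.Eventually.of_forall fun i => ?_
    obtain ⟨j₁, h1, h2⟩ := Finset.exists_max_image K
      (fun j => dst S (u i • v i • p i j₀) (u i • v i • p i j)) ⟨j₀, hst.mem⟩
    exact ⟨j₁, h1, h2⟩
  rw [Ultrafilter.eventually_exists_mem_iff K.finite_toSet] at hmax
  obtain ⟨j₁, hj₁, hmax⟩ := hmax
  have hj₁' : j₁ ∈ K := hj₁
  set σ : ℕ → ℕ := fun i => dst S (u i • v i • p i j₀) (u i • v i • p i j₁) with hσ
  have hsσ : ∀ᶠ i in (𝒰 : Filter ℕ), s i ≤ σ i := by
    filter_upwards [hspr, hmax] with i h1 h2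
    obtain ⟨j, hj, h3⟩ := h1
    exact h3.trans (h2 j hj)
  have hInf : Inf σ := by
    intro N
    filter_upwards [hs N, hsσ] with i h1 h2
    exact h1.trans h2
  have hnear8 : ∀ j ∈ K, ∀ᶠ i in (𝒰 : Filter ℕ),
      8 * dst S (γ (t i)) (v i • p i j) ≤ r i := by
    intro j hj
    filter_upwards [hst.near j hj (1 / 8) (by norm_num)] with i h1
    have h2 : (8 : ℝ) * dst S (γ (t i)) (v i • p i j) ≤ r i := by linarith
    exact_mod_cast h2
  have hnearz : ∀ j ∈ K, ∀ᶠ i in (𝒰 : Filter ℕ),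
      dst S (γ (t i)) (u i • v i • p i j) ≤ (M + 1) * σ i := by
    intro j hj
    filter_upwards [hdst, hmax, hsσ] with i h1 h2 h3
    have h4 := dst_triangle h (γ (t i)) (u i • v i • p i j₀) (u i • v i • p i j)
    have h5 := h2 j hj
    have h6 : M * s i ≤ M * σ i := Nat.mul_le_mul_left _ h3
    have h7 : (M + 1) * σ i = M * σ i + σ i := by ring
    have h8 : σ i = dst S (u i • v i • p i j₀) (u i • v i • p i j₁) := rfl
    omega
  have hσr : ∀ᶠ i in (𝒰 : Filter ℕ), 8 * σ i ≤ 3 * r i := by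
    filter_upwards [hlen, hnear8 j₁ hj₁', hst.pt] with i h1 h2 h3
    have h4 := claim2_dst_smul h (u i) (v i • p i j₀) (v i • p i j₁)
    rw [h3] at h4
    have h8 : σ i = dst S (u i • v i • p i j₀) (u i • v i • p i j₁) := rfl
    rw [h3] at h8
    omega
  obtain ⟨K', s', hK', hpre⟩ := hLEFT G S C L g c h hmin H γ β p hgr hgeo hlip K j₀ v t r hst K u σ
    (M + 1) 1 (Finset.Subset.refl K) hInf hnearz one_pos
    ⟨j₀, hst.mem, j₁, hj₁', by
      refine Filter.Eventually.of_forall fun i => ?_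
      have h8 : σ i = dst S (u i • v i • p i j₀) (u i • v i • p i j₁) := rfl
      rw [one_mul, h8]⟩
    (by
      intro j hj j' hj'
      filter_upwards [hst.far j hj, hlen, hnear8 j' hj', hσr] with i h1 h2 h3 h4
      have h5 := claim2_lip_smul h (hlip i) (u i) (v i • p i j)
      have h6 := claim2_lip_smul h (hlip i) (u i) (v i • p i j')
      have h7 := abs_le.1 (hlip i (γ (t i)) (v i • p i j'))
      omega)
    (by
      filter_upwards [hlen, hσr] with i h1 h2
      omega)
  exact ⟨K', u, s', hpre⟩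

theorem rowCLAIM' (hLEFT : RowLEFT) (hMOVE : RowMOVE) (hSUB : RowSUB) (hLINE : RowLINE) :
    RowCLAIM := by
  intro G _ S C L g c h hmin H γ β p hgr hgeo htup K j₀ v t r hst hKmin u₀ M₀ s₀ hs₀ hlen₀ hspr hdst
  have hlip := htup.lip
  -- a minimal concentrated part
  have hex : ∃ m : ℕ, ∃ (K' : Finset (Fin L)) (u' : ℕ → G) (s' : ℕ → ℕ),
      Pre S γ β p K v t r K' u' s' ∧ K'.card = m := by
    obtain ⟨K', u', s', h1⟩ := claim2_pre hLEFT h hmin hgr hgeo hlip hst hs₀ hlen₀ hspr hdst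
    exact ⟨_, K', u', s', h1, rfl⟩
  obtain ⟨K', u, s, hpre, hcard⟩ := Nat.find_spec hex
  have hPmin : ∀ (K'' : Finset (Fin L)) (u' : ℕ → G) (s' : ℕ → ℕ),
      Pre S γ β p K v t r K'' u' s' → K'.card ≤ K''.card := by
    intro K'' u' s' h1
    rw [hcard]
    exact Nat.find_min' hex ⟨K'', u', s', h1, rfl⟩
  clear hex hcard hs₀ hlen₀ hspr hdst
  obtain ⟨j₁, hj₁⟩ := hpre.ne
  obtain ⟨M, hM⟩ := hpre.loc
  have hKK : ∀ j ∈ K', j ∈ K := fun j hj => hpre.sub.1 hj
  -- (a)
  have ha : ∀ x : ℕ → G, (∀ᶠ i in (𝒰 : Filter ℕ), 2 * len S (x i) ≤ s i) →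
      ∀ j ∈ K', ∀ j' ∈ K', ∀ δ : ℝ, 0 < δ → ∀ᶠ i in (𝒰 : Filter ℕ),
        (dst S (x i • u i • v i • p i j) (x i • u i • v i • p i j') : ℝ) ≤ δ * s i := by
    intro x hx j hj j' hj' δ hδ
    by_contra hcon
    rw [← Ultrafilter.eventually_not] at hcon
    obtain ⟨K'', s'', hsub, hpre'⟩ := hLEFT G S C L g c h hmin H γ β p hgr hgeo hlip K j₀ v t r hst
      K' (fun i => x i * u i) s (M + 1) δ hpre.sub.1 hpre.inf
      (by
        intro j hj
        filter_upwards [hM j hj, hx] with i h1 h2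
        rw [mul_smul]
        have h3 := claim2_dst_right h (x i) (γ (t i)) (u i • v i • p i j)
        have h4 : (M + 1) * s i = M * s i + s i := by ring
        omega)
      hδ
      ⟨j, hj, j', hj', by
        filter_upwards [hcon] with i h1
        rw [mul_smul, mul_smul]
        exact (not_le.1 h1).le⟩
      (by
        intro j hj j' hj'
        filter_upwards [hpre.far j hj j' hj', hx] with i h1 h2
        rw [mul_smul, mul_smul]
        have h5 := claim2_lip_smul h (hlip i) (x i) (u i • v i • p i j)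
        have h6 := claim2_lip_smul h (hlip i) (x i) (u i • v i • p i j')
        omega)
      (by
        filter_upwards [hpre.len, hx] with i h1 h2
        have h3 := len_mul_le h (x i) (u i)
        omega)
    exact absurd (hPmin K'' _ _ hpre') (not_le.2 (Finset.card_lt_card hsub))
  -- (b)
  have hb1 : ∀ δ : ℝ, 0 < δ → ∀ᶠ i in (𝒰 : Filter ℕ),
      (dst S (γ (t i)) (u i • v i • p i j₁) : ℝ) ≤ len S (u i) + δ * r i := by
    intro δ hδ
    filter_upwards [hst.near j₁ (hKK j₁ hj₁) δ hδ] with i h1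
    have h2 := claim2_dst_right h (u i) (γ (t i)) (v i • p i j₁)
    have h3 : (dst S (γ (t i)) (u i • v i • p i j₁) : ℝ) ≤ dst S (γ (t i)) (v i • p i j₁) +
      len S (u i) := by exact_mod_cast h2
    linarith
  set ρ : ℕ → ℕ := fun i => min (2 * (M + 1) * s i) (r i) with hρ
  have hρInf : Inf ρ := by
    intro N
    filter_upwards [hpre.inf N, hst.inf N] with i h1 h2
    have h3 : ρ i = min (2 * (M + 1) * s i) (r i) := rfl
    rw [h3]
    refine le_min (h1.trans ?_) h2
    nlinarith [Nat.zero_le (M * s i)]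
  have hy2 : ∀ᶠ i in (𝒰 : Filter ℕ), 2 * dst S (γ (t i)) (u i • v i • p i j₁) ≤ ρ i := by
    filter_upwards [hM j₁ hj₁, hb1 (1 / 4) (by norm_num), hpre.len] with i h1 h2 h3
    have h4 : ρ i = min (2 * (M + 1) * s i) (r i) := rfl
    rw [h4]
    refine le_min ?_ ?_
    · nlinarith [Nat.zero_le (s i)]
    · have h5 : (4 : ℝ) * len S (u i) ≤ r i := by
        have : 4 * len S (u i) ≤ r i := by omega
        exact_mod_cast this
      have h6 : (2 : ℝ) * dst S (γ (t i)) (u i • v i • p i j₁) ≤ r i := by linarith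
      exact_mod_cast h6
  -- the closest point of the line
  have hτ : ∀ i, ∃ τ : ℤ, ∀ a : ℤ, |a - t i| ≤ ρ i →
      dst S (γ τ) (u i • v i • p i j₁) ≤ dst S (γ a) (u i • v i • p i j₁) := by
    intro i
    obtain ⟨τ, -, h2⟩ := Finset.exists_min_image (Finset.Icc (t i - ρ i) (t i + ρ i))
      (fun a => dst S (γ a) (u i • v i • p i j₁)) ⟨t i, by rw [Finset.mem_Icc]; omega⟩
    refine ⟨τ, fun a ha => h2 a ?_⟩
    rw [Finset.mem_Icc]
    have := abs_le.1 ha
    omega
  choose τ hτ using hτ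
  have hτy : ∀ ε : ℝ, 0 < ε → ∀ᶠ i in (𝒰 : Filter ℕ),
      (dst S (γ (τ i)) (u i • v i • p i j₁) : ℝ) ≤ ε * s i := by
    intro ε hε
    have hM2 : (0 : ℝ) < 2 * (M + 1) := by positivity
    obtain ⟨δ, hδ, R, hR⟩ := hLINE G S C g c h hmin (ε / (2 * (M + 1))) (by positivity)
    obtain ⟨R', hR'⟩ := hst.good δ hδ
    filter_upwards [hR', hρInf R, hρInf R', hy2] with i h1 h2 h3 h4
    have h5 : ρ i ≤ r i := min_le_right _ _
    have h6 := claim2_card_le_FF h hgeo (hlip i) (t i) (ρ i)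
    obtain ⟨a, h7, h8⟩ := (hR H γ (t i) (ρ i) hgr (claim2_geoLGeo hgeo _ _) h2).1
      (h6.trans (h1 (ρ i) h3 h5)) _ h4
    have h9 := hτ i a h7
    have h10 : (ρ i : ℝ) ≤ 2 * (M + 1) * s i := by
      have : ρ i ≤ 2 * (M + 1) * s i := min_le_left _ _
      exact_mod_cast this
    calc (dst S (γ (τ i)) (u i • v i • p i j₁) : ℝ) ≤ dst S (γ a) (u i • v i • p i j₁) := by
          exact_mod_cast h9
      _ ≤ ε / (2 * (M + 1)) * ρ i := h8
      _ ≤ ε / (2 * (M + 1)) * (2 * (M + 1) * s i) := by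
          apply mul_le_mul_of_nonneg_left h10; positivity
      _ = ε * s i := by field_simp
  -- the windows around τ
  have hwin : ∀ ε : ℝ, 0 < ε → ∀ᶠ i in (𝒰 : Filter ℕ),
      FF S γ (β i) (τ i) (s i) ≤ (c + ε) * s i := by
    intro ε hε
    obtain ⟨δ, hδ, R, hR⟩ := hSUB G S C g c h hmin (M + 2) ε hε
    obtain ⟨R', hR'⟩ := hst.good δ hδ
    filter_upwards [hR', hpre.inf R, hpre.inf R', hτy 1 one_pos, hτy (1/2) (by norm_num),
      hM j₁ hj₁, hb1 (1 / 4) (by norm_num), hpre.len] with i h1 h2 h3 h4 h4' h5 h6 h7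
    have hab := claim2_geo h hgeo (τ i) (t i)
    have htri := dst_triangle h (γ (τ i)) (u i • v i • p i j₁) (γ (t i))
    have hcm := dst_comm h (u i • v i • p i j₁) (γ (t i))
    have h8 : dst S (γ (τ i)) (u i • v i • p i j₁) ≤ s i := by
      have : (dst S (γ (τ i)) (u i • v i • p i j₁) : ℝ) ≤ s i := by linarith
      exact_mod_cast this
    have h9 : |τ i - t i| ≤ (M + 1) * s i := by
      rw [← hab]
      have : dst S (γ (τ i)) (γ (t i)) ≤ (M + 1) * s i := by nlinarith
      exact_mod_cast this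
    have h10 : |τ i - t i| + s i ≤ r i := by
      rw [← hab]
      have h11 : (4 : ℝ) * (len S (u i) + s i) ≤ r i := by exact_mod_cast h7
      have h12 : (dst S (γ (τ i)) (γ (t i)) : ℝ) ≤ dst S (γ (τ i)) (u i • v i • p i j₁) +
          dst S (γ (t i)) (u i • v i • p i j₁) := by
        rw [hcm] at htri
        exact_mod_cast htri
      have h13 : (0 : ℝ) ≤ r i := Nat.cast_nonneg _
      have h14 : (0 : ℝ) ≤ s i := Nat.cast_nonneg _
      have h15 : (0 : ℝ) ≤ len S (u i) := Nat.cast_nonneg _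
      have : (dst S (γ (τ i)) (γ (t i)) : ℝ) + s i ≤ r i := by linarith
      exact_mod_cast this
    obtain ⟨q, hq⟩ := Int.eq_ofNat_of_zero_le (abs_nonneg (τ i - t i))
    have hR1 := hR H γ (t i) (τ i) (s i) (q + s i) hgr (claim2_geoLGeo hgeo _ _) h2
      (by
        have : (q : ℤ) ≤ (M + 1) * s i := by rw [← hq]; exact h9
        have h16 : q ≤ (M + 1) * s i := by exact_mod_cast this
        nlinarith)
      (by rw [hq]; push_cast; exact le_rfl)
    refine hR1.2 (β i) (hlip i) ?_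
    refine h1 (q + s i) (by omega) ?_
    rw [hq] at h10
    exact_mod_cast h10
  obtain ⟨t', ht', hgood'⟩ := hMOVE G S C g c h hmin H γ β τ s hgr hgeo hlip hpre.inf hwin
  have hx : ∀ i, ∃ x : G, x • u i • v i • p i j₁ = γ (t' i) ∧
      len S x ≤ dst S (u i • v i • p i j₁) (γ (t' i)) := fun i => exists_word h _ _
  choose x hxy hxl using hx
  have hxs : ∀ᶠ i in (𝒰 : Filter ℕ), 8 * len S (x i) ≤ s i := by
    filter_upwards [ht', hτy (1 / 16) (by norm_num)] with i h1 h2
    have h3 := dst_triangle h (u i • v i • p i j₁) (γ (τ i)) (γ (t' i))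
    have h4 := dst_comm h (u i • v i • p i j₁) (γ (τ i))
    have h5 := claim2_geo h hgeo (τ i) (t' i)
    rw [abs_sub_comm] at h5
    have h6 : 16 * dst S (γ (τ i)) (u i • v i • p i j₁) ≤ s i := by
      have : (16 : ℝ) * dst S (γ (τ i)) (u i • v i • p i j₁) ≤ s i := by linarith
      exact_mod_cast this
    have h7 := hxl i
    omega
  have hfin : State S c γ β p K' j₁ (fun i => x i * u i * v i) t' (fun i => s i / 8) := by
    refine ⟨hj₁, ?_, ?_, ?_, ?_, ?_⟩
    · refine Filter.Eventually.of_forall fun i => ?_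
      have := hxy i
      simp only [mul_smul]
      exact this
    · intro N
      filter_upwards [hpre.inf (8 * N)] with i h1
      omega
    · intro ε hε
      obtain ⟨R, hR⟩ := hgood' ε hε
      refine ⟨R, ?_⟩
      filter_upwards [hR] with i h1 ρ' h2 h3
      exact h1 ρ' h2 (by omega)
    · intro j hj δ hδ
      filter_upwards [ha x (by filter_upwards [hxs] with i h1; omega) j₁ hj₁ j hj (δ / 16)
        (by positivity), hpre.inf 8] with i h1 h2
      have h3 : (s i : ℝ) ≤ 16 * ((s i / 8 : ℕ) : ℝ) := by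
        have : s i ≤ 16 * (s i / 8) := by omega
        exact_mod_cast this
      rw [← hxy i]
      simp only [mul_smul]
      calc (dst S (x i • u i • v i • p i j₁) (x i • u i • v i • p i j) : ℝ) ≤ δ / 16 * s i := h1
        _ ≤ δ / 16 * (16 * ((s i / 8 : ℕ) : ℝ)) := by
            apply mul_le_mul_of_nonneg_left h3; positivity
        _ = δ * ((s i / 8 : ℕ) : ℝ) := by ring
    · intro j hj
      filter_upwards [hpre.far j hj j₁ hj₁, hxs] with i h1 h2
      have h5 := claim2_lip_smul h (hlip i) (x i) (u i • v i • p i j)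
      have h6 := claim2_lip_smul h (hlip i) (x i) (u i • v i • p i j₁)
      rw [hxy i] at h6
      simp only [mul_smul]
      push_cast
      omega
  exact absurd (hKmin K' j₁ _ t' _ hfin) (not_le.2 (Finset.card_lt_card hpre.sub))

end

end Pool.Agent.LGT
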