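/-
Schreier graphs of linear growth, row ENDA: the subgroup generated by the stabiliser and `k` acts
vertex-transitively on a locally finite graph with more than one end.
-/
import Pool.Agent.Lib.LGT.Rows

set_option autoImplicit false

namespace Pool.Agent.LGT

open scoped Pointwise
open Classical

noncomputable section

/-- far points have large height, the height grows along the line -/
theorem enda_line (hL : RowLINE) {G : Type} [Group G] {S : Finset G} {C : ℕ} {g : ℕ → ℕ} {c : ℝ}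
    (hS : Gen S) (hm : Min S C g c) {H : Subgroup G} {k : G} {γ : ℤ → G ⧸ H} {β : G ⧸ H → ℤ}
    (hP : Pair S C c H k γ β) : ∃ R : ℕ,
    (∀ x : G ⧸ H, R ≤ dst S (bp H) x → 3 * (dst S (bp H) x : ℝ) ≤ 4 * |(β x : ℝ)|) ∧
    ∀ ρ : ℕ, R ≤ ρ → (ρ : ℝ) ≤ 2 * β (γ ρ) ∧ 2 * (β (γ (-ρ)) : ℝ) ≤ -ρ := by
  obtain ⟨δ, hδ, R₁, h1⟩ := hL G S C g c hS hm (1/8) (by norm_num)
  obtain ⟨R₂, h2⟩ := hP.good δ hδ
  have hgeo : ∀ ρ : ℕ, Geo S (0 - (ρ : ℤ)) (0 + ρ) γ := fun ρ s t _ hst _ => hP.geo s t hst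
  have hb0 : β (γ 0) = 0 := by rw [hP.zero, hP.bzero]
  refine ⟨max R₁ R₂, ?_, ?_⟩
  · intro x hx
    have hR1 : R₁ ≤ 2 * dst S (bp H) x := by
      have := le_max_left R₁ R₂
      omega
    have hR2 : R₂ ≤ 2 * dst S (bp H) x := by
      have := le_max_right R₁ R₂
      omega
    have h3 := ((h1 H γ 0 (2 * dst S (bp H) x) hP.gr (hgeo _) hR1).2 β hP.lip (h2 _ hR2)).1
      x (bp H) (by rw [hP.zero]) (by rw [hP.zero, dst_self hS]; omega)
    rw [hP.bzero, dst_comm hS] at h3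
    push_cast at h3
    rw [sub_zero] at h3
    linarith
  · intro ρ hρ
    have h3 := ((h1 H γ 0 ρ hP.gr (hgeo _) ((le_max_left _ _).trans hρ)).2 β hP.lip
      (h2 _ ((le_max_right _ _).trans hρ))).2
    have h4 := h3 0 ρ (by omega) (by omega) (by omega)
    have h5 := h3 (-(ρ : ℤ)) 0 (by omega) (by omega) (by omega)
    rw [hb0] at h4 h5
    push_cast at h4 h5
    have h6 : (0 : ℝ) ≤ ρ := Nat.cast_nonneg ρ
    constructor
    · linarith
    · linarith

/-- the vertex set: the orbit of the base point under `H ⊔ zpowers k` -/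
abbrev endaY {G : Type} [Group G] (H : Subgroup G) (k : G) : Type :=
  MulAction.orbit (H ⊔ Subgroup.zpowers k : Subgroup G) (bp H)

/-- the edges -/
def endaAdj {G : Type} [Group G] (H : Subgroup G) (k : G) (x y : endaY H k) : Prop :=
  ∃ v : G, v ∈ (H ⊔ Subgroup.zpowers k : Subgroup G) ∧
    ((x.1 = v • bp H ∧ y.1 = v • k • bp H) ∨ (y.1 = v • bp H ∧ x.1 = v • k • bp H))

theorem endaAdj_symm {G : Type} [Group G] (H : Subgroup G) (k : G) (x y : endaY H k)
    (h : endaAdj H k x y) : endaAdj H k y x := by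
  obtain ⟨v, hv, h1⟩ := h
  exact ⟨v, hv, h1.symm⟩

theorem enda_coe_smul {G : Type} [Group G] (H : Subgroup G) (k : G)
    (h : (H ⊔ Subgroup.zpowers k : Subgroup G)) (x : endaY H k) : (h • x).1 = (h : G) • x.1 := rfl

theorem endaAdj_smul {G : Type} [Group G] (H : Subgroup G) (k : G)
    (h : (H ⊔ Subgroup.zpowers k : Subgroup G)) (x y : endaY H k)
    (hxy : endaAdj H k x y) : endaAdj H k (h • x) (h • y) := by
  obtain ⟨v, hv, h1⟩ := hxy
  refine ⟨h * v, mul_mem h.2 hv, ?_⟩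
  rw [enda_coe_smul, enda_coe_smul]
  rcases h1 with ⟨h1, h2⟩ | ⟨h1, h2⟩
  · left
    rw [h1, h2, mul_smul, mul_smul]
    exact ⟨rfl, rfl⟩
  · right
    rw [h1, h2, mul_smul, mul_smul]
    exact ⟨rfl, rfl⟩

/-- the vertex `v • bp H` -/
def endaPt {G : Type} [Group G] (H : Subgroup G) (k : G)
    (v : (H ⊔ Subgroup.zpowers k : Subgroup G)) : endaY H k := ⟨v • bp H, ⟨v, rfl⟩⟩

theorem enda_conn {G : Type} [Group G] (H : Subgroup G) (k : G) (x y : endaY H k) :
    Relation.ReflTransGen (endaAdj H k) x y := by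
  have hk : k ∈ (H ⊔ Subgroup.zpowers k : Subgroup G) :=
    (le_sup_right : Subgroup.zpowers k ≤ H ⊔ Subgroup.zpowers k) (Subgroup.mem_zpowers k)
  have hsym : ∀ a b : endaY H k, Relation.ReflTransGen (endaAdj H k) a b →
      Relation.ReflTransGen (endaAdj H k) b a := by
    intro a b hab
    induction hab with
    | refl => exact Relation.ReflTransGen.refl
    | tail _ h ih => exact Relation.ReflTransGen.head (endaAdj_symm H k _ _ h) ih
  let P : Subgroup G :=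
    { carrier := {w | ∃ hw : w ∈ (H ⊔ Subgroup.zpowers k : Subgroup G),
        ∀ v : (H ⊔ Subgroup.zpowers k : Subgroup G),
          Relation.ReflTransGen (endaAdj H k) (endaPt H k v) (endaPt H k (v * ⟨w, hw⟩))}
      mul_mem' := by
        rintro a b ⟨ha, ha1⟩ ⟨hb, hb1⟩
        refine ⟨mul_mem ha hb, fun v => ?_⟩
        have h1 := (ha1 v).trans (hb1 (v * ⟨a, ha⟩))
        rwa [mul_assoc] at h1
      one_mem' := by
        refine ⟨one_mem _, fun v => ?_⟩
        have h1 : v * (⟨1, one_mem _⟩ : (H ⊔ Subgroup.zpowers k : Subgroup G)) = v := mul_one v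
        rw [h1]
      inv_mem' := by
        rintro a ⟨ha, ha1⟩
        refine ⟨inv_mem ha, fun v => ?_⟩
        have h1 := ha1 (v * ⟨a⁻¹, inv_mem ha⟩)
        have h2 : v * ⟨a⁻¹, inv_mem ha⟩ * (⟨a, ha⟩ : (H ⊔ Subgroup.zpowers k : Subgroup G)) = v := by
          apply Subtype.ext
          simp
        rw [h2] at h1
        exact hsym _ _ h1 }
  have hH : H ≤ P := by
    intro w hw
    have hw' : w ∈ (H ⊔ Subgroup.zpowers k : Subgroup G) := (le_sup_left : H ≤ _) hw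
    refine ⟨hw', fun v => ?_⟩
    have h1 : endaPt H k (v * ⟨w, hw'⟩) = endaPt H k v := by
      apply Subtype.ext
      show ((v : G) * w) • bp H = (v : G) • bp H
      rw [mul_smul]
      congr 1
      show ((w * 1 : G) : G ⧸ H) = ((1 : G) : G ⧸ H)
      rw [mul_one, QuotientGroup.eq]
      simpa using hw
    rw [h1]
  have hZ : Subgroup.zpowers k ≤ P := by
    rw [Subgroup.zpowers_le]
    refine ⟨hk, fun v => Relation.ReflTransGen.single ⟨v, v.2, Or.inl ⟨rfl, ?_⟩⟩⟩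
    show ((v : G) * k) • bp H = _
    rw [mul_smul]
  have hP : (H ⊔ Subgroup.zpowers k : Subgroup G) ≤ P := sup_le hH hZ
  have key : ∀ v : (H ⊔ Subgroup.zpowers k : Subgroup G),
      Relation.ReflTransGen (endaAdj H k) (endaPt H k 1) (endaPt H k v) := by
    intro v
    obtain ⟨hw, h1⟩ := hP v.2
    have h2 := h1 1
    rwa [one_mul] at h2
  obtain ⟨_, a, rfl⟩ := x
  obtain ⟨_, b, rfl⟩ := y
  exact (hsym _ _ (key a)).trans (key b)

theorem enda_fin {G : Type} [Group G] {S : Finset G} (hS : Gen S) (H : Subgroup G) (k : G)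
    (T : Set (endaY H k)) (M : ℕ) (h : ∀ x ∈ T, dst S (bp H) x.1 ≤ M) : T.Finite := by
  refine Set.Finite.of_finite_image (f := fun x : endaY H k => x.1) ?_
    (Set.injOn_of_injective Subtype.val_injective)
  refine (Finset.finite_toSet (ball S (bp H) M)).subset ?_
  rintro _ ⟨x, hx, rfl⟩
  exact (mem_ball hS _ _ _).2 (h x hx)

theorem enda_locfin {G : Type} [Group G] {S : Finset G} {C : ℕ} {c : ℝ}
    (hS : Gen S) {H : Subgroup G} {k : G} {γ : ℤ → G ⧸ H} {β : G ⧸ H → ℤ}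
    (hP : Pair S C c H k γ β) (x : endaY H k) : {y | endaAdj H k x y}.Finite := by
  have h0 : {y | endaAdj H k (endaPt H k 1) y}.Finite := by
    obtain ⟨R, hR⟩ := hP.dist (1/2) (by norm_num)
    refine enda_fin hS H k _ (2 * R) ?_
    rintro y ⟨v, hv, h1⟩
    have hR' := hR v
    have hone : (endaPt H k 1).1 = bp H := one_smul _ _
    rw [hone] at h1
    rcases h1 with ⟨h1, h2⟩ | ⟨h1, h2⟩
    · rw [← h1, dst_self hS, ← h2] at hR'
      push_cast at hR'
      have h3 : (dst S (bp H) y.1 : ℝ) ≤ R := by linarith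
      have h4 : dst S (bp H) y.1 ≤ R := by exact_mod_cast h3
      omega
    · rw [← h1, ← h2, dst_comm hS] at hR'
      have h3 : (dst S (bp H) y.1 : ℝ) ≤ 2 * R := by linarith
      exact_mod_cast h3
  obtain ⟨_, a, rfl⟩ := x
  refine (h0.image fun y => a • y).subset ?_
  intro y hy
  refine ⟨a⁻¹ • y, ?_, smul_inv_smul a y⟩
  have h1 := endaAdj_smul H k a⁻¹ _ _ hy
  have h2 : a⁻¹ • (⟨a • bp H, ⟨a, rfl⟩⟩ : endaY H k) = endaPt H k 1 := by
    apply Subtype.ext
    show (a⁻¹ : (H ⊔ Subgroup.zpowers k : Subgroup G)) • a • bp H = (1 : (H ⊔ Subgroup.zpowers k : Subgroup G)) • bp H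
    rw [inv_smul_smul, one_smul]
  rw [h2] at h1
  exact h1

theorem enda_bdry {G : Type} [Group G] {S : Finset G} {C : ℕ} {c : ℝ}
    (hS : Gen S) {H : Subgroup G} {k : G} {γ : ℤ → G ⧸ H} {β : G ⧸ H → ℤ}
    (hP : Pair S C c H k γ β) (R : ℕ)
    (hR : ∀ x : G ⧸ H, R ≤ dst S (bp H) x → 3 * (dst S (bp H) x : ℝ) ≤ 4 * |(β x : ℝ)|) :
    {x : endaY H k | ∃ y, endaAdj H k x y ∧
      (x ∈ {z : endaY H k | 0 < β z.1} ∧ y ∉ {z : endaY H k | 0 < β z.1} ∨
        x ∉ {z : endaY H k | 0 < β z.1} ∧ y ∈ {z : endaY H k | 0 < β z.1})}.Finite := by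
  obtain ⟨R', hR'⟩ := hP.dist (1/4) (by norm_num)
  -- an edge across has a short base point
  have key : ∀ v : G, (0 < β (v • bp H) ∧ ¬ 0 < β (v • k • bp H) ∨
      ¬ 0 < β (v • bp H) ∧ 0 < β (v • k • bp H)) → dst S (bp H) (v • bp H) ≤ R + 2 * R' := by
    intro v hv
    by_contra hcon
    push Not at hcon
    have h1 := hR (v • bp H) (by omega)
    have h2 := hR' v
    have h3 := hP.lip (v • bp H) (v • k • bp H)
    have h4 : |β (v • bp H)| ≤ |β (v • bp H) - β (v • k • bp H)| := by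
      rcases hv with ⟨ha, hb⟩ | ⟨ha, hb⟩
      · rw [abs_of_pos ha, abs_of_nonneg (by omega)]
        omega
      · rw [abs_of_nonpos (by omega), abs_of_nonpos (by omega)]
        omega
    have h5 : (|(β (v • bp H) : ℝ)|) ≤ dst S (v • bp H) (v • k • bp H) := by
      exact_mod_cast h4.trans h3
    have h6 : ((R + 2 * R' : ℕ) : ℝ) < dst S (bp H) (v • bp H) := by exact_mod_cast hcon
    push_cast at h6
    have h7 : (0 : ℝ) ≤ R := Nat.cast_nonneg R
    linarith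
  refine enda_fin hS H k _ (2 * (R + 2 * R') + R') ?_
  rintro x ⟨y, ⟨v, hv, h1⟩, h2⟩
  simp only [Set.mem_ofPred_eq] at h2
  have hd := hR' v
  rcases h1 with ⟨hx, hy⟩ | ⟨hy, hx⟩
  · rw [hx, hy] at h2
    have h3 := key v h2
    rw [hx]
    omega
  · rw [hx, hy] at h2
    have h3 := key v (by tauto)
    rw [hx]
    have h4 := dst_triangle hS (bp H) (v • bp H) (v • k • bp H)
    have h5 : (dst S (bp H) (v • bp H) : ℝ) ≤ (R + 2 * R' : ℕ) := by exact_mod_cast h3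
    have h6 : (dst S (v • bp H) (v • k • bp H) : ℝ) ≤ ((R + 2 * R') + R' : ℕ) := by
      push_cast at h5 ⊢
      have h7 : (0 : ℝ) ≤ dst S (bp H) (v • bp H) := Nat.cast_nonneg _
      linarith
    have h7 : dst S (v • bp H) (v • k • bp H) ≤ (R + 2 * R') + R' := by exact_mod_cast h6
    omega

/-- finitely many translates of the orbit cover -/
theorem enda_reps {G : Type} [Group G] {S : Finset G} (hS : Gen S) (H : Subgroup G) (k : G)
    (hfin : Finite (G ⧸ (H ⊔ Subgroup.zpowers k))) :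
    ∃ D : ℕ, ∀ x : G ⧸ H, ∃ a : G, len S a ≤ D ∧ ∃ y : endaY H k, y.1 = a • x := by
  have : Fintype (G ⧸ (H ⊔ Subgroup.zpowers k)) := Fintype.ofFinite _
  refine ⟨(Finset.univ : Finset (G ⧸ (H ⊔ Subgroup.zpowers k))).sup fun q => len S (Quotient.out q),
    fun x => ?_⟩
  obtain ⟨w, rfl⟩ := QuotientGroup.mk_surjective x
  set q : G ⧸ (H ⊔ Subgroup.zpowers k) := ((w : G) : G ⧸ (H ⊔ Subgroup.zpowers k)) with hq
  have h1 : (Quotient.out q)⁻¹ * w ∈ (H ⊔ Subgroup.zpowers k : Subgroup G) := by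
    rw [← QuotientGroup.eq]
    exact QuotientGroup.out_eq' q
  refine ⟨(Quotient.out q)⁻¹, ?_, ⟨⟨((Quotient.out q)⁻¹ * w) • bp H, ⟨⟨_, h1⟩, rfl⟩⟩, ?_⟩⟩
  · rw [len_inv hS]
    exact Finset.le_sup (f := fun q : G ⧸ (H ⊔ Subgroup.zpowers k) => len S (Quotient.out q))
      (Finset.mem_univ q)
  · show ((Quotient.out q)⁻¹ * w) • bp H = (Quotient.out q)⁻¹ • ((w : G) : G ⧸ H)
    rw [mul_smul]
    congr 1
    show ((w * 1 : G) : G ⧸ H) = _
    rw [mul_one]

theorem enda_inf {G : Type} [Group G] {S : Finset G} {C : ℕ} {c : ℝ}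
    (hS : Gen S) {H : Subgroup G} {k : G} {γ : ℤ → G ⧸ H} {β : G ⧸ H → ℤ}
    (hP : Pair S C c H k γ β) (hfin : Finite (G ⧸ (H ⊔ Subgroup.zpowers k))) (R : ℕ)
    (hR : ∀ ρ : ℕ, R ≤ ρ → (ρ : ℝ) ≤ 2 * β (γ ρ) ∧ 2 * (β (γ (-ρ)) : ℝ) ≤ -ρ) :
    {z : endaY H k | 0 < β z.1}.Infinite ∧ {z : endaY H k | 0 < β z.1}ᶜ.Infinite := by
  obtain ⟨D, hD⟩ := enda_reps hS H k hfin
  have hR1 : ∀ ρ : ℕ, R ≤ ρ → (ρ : ℤ) ≤ 2 * β (γ ρ) ∧ 2 * β (γ (-ρ)) ≤ -(ρ : ℤ) := by
    intro ρ hρ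
    obtain ⟨h1, h2⟩ := hR ρ hρ
    exact ⟨by exact_mod_cast h1, by exact_mod_cast h2⟩
  have hlip : ∀ (a : G) (x : G ⧸ H), len S a ≤ D → |β x - β (a • x)| ≤ D := by
    intro a x ha
    have h1 := hP.lip x (a • x)
    have h2 := dst_smul_le hS x a
    have h3 : (dst S x (a • x) : ℤ) ≤ D := by exact_mod_cast h2.trans ha
    exact h1.trans h3
  constructor
  · intro hF
    obtain ⟨B, hB⟩ := (hF.image fun z : endaY H k => β z.1).bddAbove
    have hpos : ∀ N : ℕ, ∃ y : endaY H k, (N : ℤ) < β y.1 := by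
      intro N
      obtain ⟨a, ha, y, hy⟩ := hD (γ ((2 * (N + D + 1) + R : ℕ) : ℤ))
      refine ⟨y, ?_⟩
      rw [hy]
      have h1 := (hR1 (2 * (N + D + 1) + R) (by omega)).1
      have h2 := hlip a (γ ((2 * (N + D + 1) + R : ℕ) : ℤ)) ha
      rw [abs_le] at h2
      push_cast at h1 h2 ⊢
      omega
    obtain ⟨y, hy⟩ := hpos B.toNat
    have h1 : β y.1 ≤ B := hB ⟨y, by simp only [Set.mem_ofPred_eq]; omega, rfl⟩
    omega
  · intro hF
    obtain ⟨B, hB⟩ := (hF.image fun z : endaY H k => β z.1).bddBelow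
    have hneg : ∀ N : ℕ, ∃ y : endaY H k, β y.1 < -(N : ℤ) := by
      intro N
      obtain ⟨a, ha, y, hy⟩ := hD (γ (-((2 * (N + D + 1) + R : ℕ) : ℤ)))
      refine ⟨y, ?_⟩
      rw [hy]
      have h1 := (hR1 (2 * (N + D + 1) + R) (by omega)).2
      have h2 := hlip a (γ (-((2 * (N + D + 1) + R : ℕ) : ℤ))) ha
      rw [abs_le] at h2
      push_cast at h1 h2 ⊢
      omega
    obtain ⟨y, hy⟩ := hneg (-B).toNat
    have h1 : B ≤ β y.1 := hB ⟨y, by
      simp only [Set.mem_compl_iff, Set.mem_ofPred_eq]; omega, rfl⟩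
    omega

/-- Row ENDA -/
theorem rowENDA (hL : RowLINE) (hE : RowENDB) : RowENDA := by
  intro G _ S C g c hS hm H k γ β hP hfin
  obtain ⟨R, hR1, hR2⟩ := enda_line hL hS hm hP
  obtain ⟨hi1, hi2⟩ := enda_inf hS hP hfin R hR2
  obtain ⟨h, hh⟩ := hE (endaY H k) (H ⊔ Subgroup.zpowers k : Subgroup G) (endaAdj H k)
    {z : endaY H k | 0 < β z.1} (endaAdj_symm H k) (endaAdj_smul H k)
    (fun x y => MulAction.exists_smul_eq _ x y) (enda_conn H k) (enda_locfin hS hP) hi1 hi2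
    (enda_bdry hS hP R hR1)
  refine ⟨(h : G), fun m hm' h1 => hh m hm' ?_⟩
  apply Subtype.ext
  simpa using h1

end

end Pool.Agent.LGT
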