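/-
Schreier graphs of linear growth of groups of bounded exponent: row ENDA (second version).
-/
import Pool.Agent.Lib.LGT.Rows

set_option autoImplicit false

namespace Pool.Agent.LGT

open scoped Pointwise
open Classical

noncomputable section

theorem rowENDA' (hLINE : RowLINE) (hENDB : RowENDB) : RowENDA := by
  intro G _ S C g c hS hM H k γ β hP hfin
  have hlip := hP.lip
  -- the tools
  obtain ⟨δ, hδ, R₁, hL⟩ := hLINE G S C g c hS hM (1 / 8) (by norm_num)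
  obtain ⟨R₂, hR₂⟩ := hP.good δ hδ
  obtain ⟨R₃, hR₃⟩ := hP.dist (1 / 8) (by norm_num)
  have hgeo : ∀ ρ : ℕ, Geo S (0 - ρ) (0 + ρ) γ := fun ρ s t _ hst _ => hP.geo s t hst
  have hLρ : ∀ ρ : ℕ, R₁ ≤ ρ → R₂ ≤ ρ →
      (∀ x z : G ⧸ H, 2 * dst S (bp H) x ≤ ρ → 2 * dst S (bp H) z ≤ ρ →
        (dst S x z : ℝ) ≤ |(β x : ℝ) - β z| + 1 / 8 * ρ) ∧
      ∀ s s' : ℤ, 0 - (ρ : ℤ) ≤ s → s ≤ s' → s' ≤ 0 + (ρ : ℤ) →
        (s' : ℝ) - s - 1 / 8 * ρ ≤ (β (γ s') : ℝ) - β (γ s) := by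
    intro ρ h1 h2
    have h3 := (hL H γ 0 ρ hP.gr (hgeo ρ) h1).2 β hlip (hR₂ ρ h2)
    rw [hP.zero] at h3
    exact h3
  have hb0 : (β (γ 0) : ℝ) = 0 := by rw [hP.zero, hP.bzero]; norm_num
  have hb1 : (β (bp H) : ℝ) = 0 := by rw [hP.bzero]; norm_num
  have hup : ∀ ρ : ℕ, R₁ ≤ ρ → R₂ ≤ ρ → (ρ : ℝ) / 2 ≤ β (γ ρ) := by
    intro ρ h1 h2
    have h3 := (hLρ ρ h1 h2).2 0 ρ (by omega) (by omega) (by omega)
    rw [hb0] at h3
    push_cast at h3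
    have h4 : (0 : ℝ) ≤ ρ := Nat.cast_nonneg _
    linarith
  have hdown : ∀ ρ : ℕ, R₁ ≤ ρ → R₂ ≤ ρ → (β (γ (-ρ)) : ℝ) ≤ -((ρ : ℝ) / 2) := by
    intro ρ h1 h2
    have h3 := (hLρ ρ h1 h2).2 (-ρ) 0 (by omega) (by omega) (by omega)
    rw [hb0] at h3
    push_cast at h3
    have h4 : (0 : ℝ) ≤ ρ := Nat.cast_nonneg _
    linarith
  have hlipR : ∀ x y : G ⧸ H, |(β x : ℝ) - β y| ≤ dst S x y := by
    intro x y
    have h1 := hlip x y
    exact_mod_cast h1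
  -- the group and the set
  set K := H ⊔ Subgroup.zpowers k with hK
  have hHK : H ≤ K := le_sup_left
  have hkK : k ∈ K := (le_sup_right : Subgroup.zpowers k ≤ K) (Subgroup.mem_zpowers k)
  let kk : K := ⟨k, hkK⟩
  let Y := MulAction.orbit K (bp H)
  let b : Y := ⟨bp H, MulAction.mem_orbit_self _⟩
  have hval : ∀ (v : K) (y : Y), ((v • y : Y) : G ⧸ H) = (v : G) • (y : G ⧸ H) := fun v y => rfl
  let adj : Y → Y → Prop := fun x y => ∃ v : K, (x = v • b ∧ y = v • kk • b) ∨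
    (x = v • kk • b ∧ y = v • b)
  have hsymm : ∀ x y, adj x y → adj y x := by
    rintro x y ⟨v, h | h⟩
    · exact ⟨v, Or.inr ⟨h.2, h.1⟩⟩
    · exact ⟨v, Or.inl ⟨h.2, h.1⟩⟩
  have hinv : ∀ (h : K) (x y : Y), adj x y → adj (h • x) (h • y) := by
    rintro h x y ⟨v, ⟨rfl, rfl⟩ | ⟨rfl, rfl⟩⟩
    · exact ⟨h * v, Or.inl ⟨by rw [mul_smul], by rw [mul_smul]⟩⟩
    · exact ⟨h * v, Or.inr ⟨by rw [mul_smul], by rw [mul_smul]⟩⟩
  have htr0 : ∀ x : Y, ∃ h : K, h • b = x := by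
    rintro ⟨x, h, hx⟩
    exact ⟨h, Subtype.ext hx⟩
  have htr : ∀ x y : Y, ∃ h : K, h • x = y := by
    intro x y
    obtain ⟨h1, rfl⟩ := htr0 x
    obtain ⟨h2, rfl⟩ := htr0 y
    exact ⟨h2 * h1⁻¹, by rw [mul_smul, inv_smul_smul]⟩
  have hRT : ∀ (h : K) (x y : Y), Relation.ReflTransGen adj x y →
      Relation.ReflTransGen adj (h • x) (h • y) := by
    intro h x y hxy
    induction hxy with
    | refl => exact Relation.ReflTransGen.refl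
    | tail _ h2 ih => exact ih.tail (hinv h _ _ h2)
  have hRS : ∀ x y : Y, Relation.ReflTransGen adj x y → Relation.ReflTransGen adj y x := by
    intro x y hxy
    induction hxy with
    | refl => exact Relation.ReflTransGen.refl
    | tail _ h2 ih => exact Relation.ReflTransGen.head (hsymm _ _ h2) ih
  let Q : Subgroup G :=
    { carrier := {v | ∃ hv : v ∈ K, Relation.ReflTransGen adj b ((⟨v, hv⟩ : K) • b)}
      one_mem' := ⟨K.one_mem, by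
        have : (⟨1, K.one_mem⟩ : K) • b = b := one_smul K b
        rw [this]⟩
      mul_mem' := by
        rintro u v ⟨hu, hu'⟩ ⟨hv, hv'⟩
        refine ⟨K.mul_mem hu hv, ?_⟩
        have h1 : (⟨u * v, K.mul_mem hu hv⟩ : K) • b = (⟨u, hu⟩ : K) • (⟨v, hv⟩ : K) • b := by
          rw [← mul_smul]
          rfl
        rw [h1]
        exact hu'.trans (hRT _ _ _ hv')
      inv_mem' := by
        rintro u ⟨hu, hu'⟩
        refine ⟨K.inv_mem hu, ?_⟩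
        have h1 := hRT (⟨u, hu⟩ : K)⁻¹ _ _ hu'
        rw [inv_smul_smul] at h1
        exact hRS _ _ h1 }
  have hKQ : K ≤ Q := by
    rw [hK, sup_le_iff]
    constructor
    · intro h hh
      refine ⟨hHK hh, ?_⟩
      have h1 : (⟨h, hHK hh⟩ : K) • b = b := by
        apply Subtype.ext
        show h • ((1 : G) : G ⧸ H) = ((1 : G) : G ⧸ H)
        rw [MulAction.Quotient.smul_coe, QuotientGroup.eq]
        simpa using hh
      rw [h1]
    · rw [Subgroup.zpowers_le]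
      exact ⟨hkK, Relation.ReflTransGen.single ⟨1, Or.inl ⟨(one_smul K b).symm, by
        rw [one_smul]⟩⟩⟩
  have hconn : ∀ x y, Relation.ReflTransGen adj x y := by
    have h1 : ∀ x, Relation.ReflTransGen adj b x := by
      intro x
      obtain ⟨v, rfl⟩ := htr0 x
      obtain ⟨_, h2⟩ := hKQ v.2
      exact h2
    intro x y
    exact (hRS _ _ (h1 x)).trans (h1 y)
  -- finiteness
  have hballfin : ∀ N : ℕ, {y : Y | dst S (bp H) (y : G ⧸ H) ≤ N}.Finite := by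
    intro N
    have h1 : ((fun y : Y => (y : G ⧸ H)) ⁻¹' (ball S (bp H) N : Set (G ⧸ H))).Finite :=
      (Finset.finite_toSet _).preimage (Subtype.val_injective.injOn)
    refine h1.subset fun y hy => ?_
    exact (mem_ball hS _ _ _).2 hy
  have hedge : ∀ v : K, (dst S ((v • b : Y) : G ⧸ H) ((v • kk • b : Y) : G ⧸ H) : ℝ) ≤
      1 / 8 * dst S (bp H) ((v • b : Y) : G ⧸ H) + R₃ := fun v => hR₃ v
  have htri : ∀ x y : G ⧸ H, (dst S (bp H) y : ℝ) ≤ dst S (bp H) x + dst S x y := by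
    intro x y
    exact_mod_cast dst_triangle hS (bp H) x y
  have hloc : ∀ x, {y | adj x y}.Finite := by
    intro x
    refine (hballfin (3 * dst S (bp H) (x : G ⧸ H) + 2 * R₃)).subset ?_
    rintro y ⟨v, ⟨hx, hy⟩ | ⟨hx, hy⟩⟩
    · have h1 := hedge v
      rw [← hx, ← hy] at h1
      have h2 := htri x y
      have h3 : (dst S (bp H) (y : G ⧸ H) : ℝ) ≤ ((3 * dst S (bp H) (x : G ⧸ H) + 2 * R₃ : ℕ) : ℝ) := by
        push_cast
        have h4 : (0 : ℝ) ≤ dst S (bp H) (x : G ⧸ H) := Nat.cast_nonneg _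
        have h5 : (0 : ℝ) ≤ R₃ := Nat.cast_nonneg _
        linarith
      exact_mod_cast h3
    · have h1 := hedge v
      rw [← hx, ← hy] at h1
      have h2 := htri x y
      rw [dst_comm hS] at h1
      have h3 : (dst S (bp H) (y : G ⧸ H) : ℝ) ≤ ((3 * dst S (bp H) (x : G ⧸ H) + 2 * R₃ : ℕ) : ℝ) := by
        push_cast
        have h4 : (0 : ℝ) ≤ dst S (bp H) (x : G ⧸ H) := Nat.cast_nonneg _
        have h5 : (0 : ℝ) ≤ R₃ := Nat.cast_nonneg _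
        linarith
      exact_mod_cast h3
  -- points near `Y`
  obtain ⟨D, hD⟩ : ∃ D : ℕ, ∀ q : G ⧸ K, len S (q.out)⁻¹ ≤ D := by
    have : Fintype (G ⧸ K) := Fintype.ofFinite _
    exact ⟨Finset.univ.sup fun q : G ⧸ K => len S (q.out)⁻¹, fun q =>
      Finset.le_sup (f := fun q : G ⧸ K => len S (q.out)⁻¹) (Finset.mem_univ q)⟩
  have hnear : ∀ x : G ⧸ H, ∃ y : Y, dst S x (y : G ⧸ H) ≤ D := by
    intro x
    obtain ⟨a, rfl⟩ := QuotientGroup.mk_surjective x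
    obtain ⟨κ, hκ⟩ := QuotientGroup.mk_out_eq_mul K a
    refine ⟨κ⁻¹ • b, ?_⟩
    have h1 : (((κ⁻¹ : K) • b : Y) : G ⧸ H) = (((a : G ⧸ K).out)⁻¹) • ((a : G) : G ⧸ H) := by
      show ((κ⁻¹ : K) : G) • ((1 : G) : G ⧸ H) = _
      rw [hκ, MulAction.Quotient.smul_coe, MulAction.Quotient.smul_coe]
      congr 1
      rw [smul_eq_mul, smul_eq_mul, mul_inv_rev, mul_assoc, inv_mul_cancel, mul_one, mul_one,
        Subgroup.coe_inv]
    rw [h1]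
    exact (dst_smul_le hS _ _).trans (hD _)
  let A : Set Y := {x | 0 < β (x : G ⧸ H)}
  have hAinf : A.Infinite := by
    intro hA
    obtain ⟨M, hMb⟩ : ∃ M : ℕ, ∀ x ∈ A, (β (x : G ⧸ H) : ℝ) ≤ M := by
      obtain ⟨M, hM1⟩ := (hA.image fun x : Y => β (x : G ⧸ H)).bddAbove
      refine ⟨M.toNat, fun x hx => ?_⟩
      have h1 : β (x : G ⧸ H) ≤ M := hM1 ⟨x, hx, rfl⟩
      have h2 : M ≤ (M.toNat : ℤ) := Int.self_le_toNat M
      exact_mod_cast h1.trans h2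
    obtain ⟨ρ, hρ⟩ : ∃ ρ : ℕ, ρ = R₁ + R₂ + 2 * (M + D + 1) := ⟨_, rfl⟩
    have h1 := hup ρ (by omega) (by omega)
    obtain ⟨y, hy⟩ := hnear (γ ρ)
    have h2 := (abs_le.1 (hlipR (γ ρ) y)).2
    have h3 : (dst S (γ ρ) (y : G ⧸ H) : ℝ) ≤ D := by exact_mod_cast hy
    have h4 : (ρ : ℝ) = R₁ + R₂ + 2 * (M + D + 1) := by rw [hρ]; push_cast; ring
    have h5 : (0 : ℝ) ≤ R₁ := Nat.cast_nonneg _
    have h6 : (0 : ℝ) ≤ R₂ := Nat.cast_nonneg _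
    have h7 : (0 : ℝ) ≤ M := Nat.cast_nonneg _
    have h8 : (M : ℝ) + 1 ≤ β (y : G ⧸ H) := by linarith
    have h9 : y ∈ A := by
      show 0 < β (y : G ⧸ H)
      have : (0 : ℝ) < β (y : G ⧸ H) := by linarith
      exact_mod_cast this
    have h10 := hMb y h9
    linarith
  have hAcinf : Aᶜ.Infinite := by
    intro hA
    obtain ⟨M, hMb⟩ : ∃ M : ℕ, ∀ x ∈ Aᶜ, -(M : ℝ) ≤ β (x : G ⧸ H) := by
      obtain ⟨M, hM1⟩ := (hA.image fun x : Y => β (x : G ⧸ H)).bddBelow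
      refine ⟨(-M).toNat, fun x hx => ?_⟩
      have h1 : M ≤ β (x : G ⧸ H) := hM1 ⟨x, hx, rfl⟩
      have h2 : -M ≤ ((-M).toNat : ℤ) := Int.self_le_toNat (-M)
      have h3 : -((-M).toNat : ℤ) ≤ β (x : G ⧸ H) := by omega
      exact_mod_cast h3
    obtain ⟨ρ, hρ⟩ : ∃ ρ : ℕ, ρ = R₁ + R₂ + 2 * (M + D + 1) := ⟨_, rfl⟩
    have h1 := hdown ρ (by omega) (by omega)
    obtain ⟨y, hy⟩ := hnear (γ (-ρ))
    have h2 := (abs_le.1 (hlipR (γ (-ρ)) y)).1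
    have h3 : (dst S (γ (-ρ)) (y : G ⧸ H) : ℝ) ≤ D := by exact_mod_cast hy
    have h4 : (ρ : ℝ) = R₁ + R₂ + 2 * (M + D + 1) := by rw [hρ]; push_cast; ring
    have h5 : (0 : ℝ) ≤ R₁ := Nat.cast_nonneg _
    have h6 : (0 : ℝ) ≤ R₂ := Nat.cast_nonneg _
    have h7 : (0 : ℝ) ≤ M := Nat.cast_nonneg _
    have h8 : (β (y : G ⧸ H) : ℝ) ≤ -(M : ℝ) - 1 := by linarith
    have h9 : y ∈ Aᶜ := by
      show ¬ 0 < β (y : G ⧸ H)
      intro h
      have : (0 : ℝ) < β (y : G ⧸ H) := by exact_mod_cast h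
      linarith
    have h10 := hMb y h9
    linarith
  -- the boundary
  have hsmall : ∀ w w' : Y, (dst S (w : G ⧸ H) (w' : G ⧸ H) : ℝ) ≤
      1 / 8 * dst S (bp H) (w : G ⧸ H) + R₃ →
      ((0 < β (w : G ⧸ H) ∧ ¬ 0 < β (w' : G ⧸ H)) ∨ (¬ 0 < β (w : G ⧸ H) ∧ 0 < β (w' : G ⧸ H))) →
      dst S (bp H) (w : G ⧸ H) ≤ R₁ + R₂ + 2 * R₃ ∧
        dst S (bp H) (w' : G ⧸ H) ≤ 2 * (R₁ + R₂ + 2 * R₃) + R₃ := by
    intro w w' h1 h2
    have hw : |(β (w : G ⧸ H) : ℝ)| ≤ dst S (w : G ⧸ H) (w' : G ⧸ H) := by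
      have h3 := abs_le.1 (hlipR w w')
      rw [abs_le]
      rcases h2 with ⟨h4, h5⟩ | ⟨h4, h5⟩
      · have h6 : (0 : ℝ) < β (w : G ⧸ H) := by exact_mod_cast h4
        have h7 : (β (w' : G ⧸ H) : ℝ) ≤ 0 := by exact_mod_cast not_lt.1 h5
        constructor <;> linarith
      · have h6 : (0 : ℝ) < β (w' : G ⧸ H) := by exact_mod_cast h5
        have h7 : (β (w : G ⧸ H) : ℝ) ≤ 0 := by exact_mod_cast not_lt.1 h4
        constructor <;> linarith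
    have hmain : dst S (bp H) (w : G ⧸ H) ≤ R₁ + R₂ + 2 * R₃ := by
      by_contra hcon
      rw [not_le] at hcon
      have h3 := (hLρ (2 * dst S (bp H) (w : G ⧸ H)) (by omega) (by omega)).1 (bp H) w (by
        rw [dst_self hS]; omega) le_rfl
      rw [hb1, zero_sub, abs_neg] at h3
      push_cast at h3
      have h4 : ((R₁ : ℝ) + R₂ + 2 * R₃) < dst S (bp H) (w : G ⧸ H) := by exact_mod_cast hcon
      have h5 : (0 : ℝ) ≤ R₁ := Nat.cast_nonneg _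
      have h6 : (0 : ℝ) ≤ R₂ := Nat.cast_nonneg _
      have h7 : (0 : ℝ) ≤ R₃ := Nat.cast_nonneg _
      linarith
    refine ⟨hmain, ?_⟩
    have h3 := htri w w'
    have h4 : (dst S (bp H) (w : G ⧸ H) : ℝ) ≤ R₁ + R₂ + 2 * R₃ := by exact_mod_cast hmain
    have h5 : (dst S (bp H) (w' : G ⧸ H) : ℝ) ≤ ((2 * (R₁ + R₂ + 2 * R₃) + R₃ : ℕ) : ℝ) := by
      push_cast
      have h5 : (0 : ℝ) ≤ R₁ := Nat.cast_nonneg _
      have h6 : (0 : ℝ) ≤ R₂ := Nat.cast_nonneg _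
      have h7 : (0 : ℝ) ≤ R₃ := Nat.cast_nonneg _
      linarith
    exact_mod_cast h5
  have hbd : {x | ∃ y, adj x y ∧ (x ∈ A ∧ y ∉ A ∨ x ∉ A ∧ y ∈ A)}.Finite := by
    refine (hballfin (2 * (R₁ + R₂ + 2 * R₃) + R₃)).subset ?_
    rintro x ⟨y, ⟨v, ⟨hx, hy⟩ | ⟨hx, hy⟩⟩, h2⟩
    · have h1 := hedge v
      rw [← hx, ← hy] at h1
      have h3 := (hsmall x y h1 h2).1
      show dst S (bp H) (x : G ⧸ H) ≤ _
      omega
    · have h1 := hedge v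
      rw [← hx, ← hy] at h1
      have h2' : (0 < β (y : G ⧸ H) ∧ ¬ 0 < β (x : G ⧸ H)) ∨
          (¬ 0 < β (y : G ⧸ H) ∧ 0 < β (x : G ⧸ H)) := by
        rcases h2 with ⟨h3, h4⟩ | ⟨h3, h4⟩
        · exact Or.inr ⟨h4, h3⟩
        · exact Or.inl ⟨h4, h3⟩
      exact (hsmall y x h1 h2').2
  obtain ⟨h, hh⟩ := hENDB Y K adj A hsymm hinv htr hconn hloc hAinf hAcinf hbd
  refine ⟨h, fun m hm h0 => hh m hm ?_⟩
  apply Subtype.ext
  rw [Subgroup.coe_pow, h0, Subgroup.coe_one]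

end

end Pool.Agent.LGT
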