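/-
Schreier graphs of linear growth: row EXA, existence of a nearly minimal system.
-/
import Pool.Agent.Lib.LGT.Bas

set_option autoImplicit false

namespace Pool.Agent.LGT

open scoped Pointwise
open Classical

noncomputable section

private theorem exa_ge (k : ℕ) : ∀ᶠ i in (𝒰 : Filter ℕ), k ≤ i :=
  Nat.hyperfilter_le_atTop (Filter.eventually_ge_atTop k)

/-- a diagonal argument -/
private theorem exa_diag {T : Type} [Nonempty T] (P : ℕ → ℕ → T → Prop)
    (hmono : ∀ k K i x, k ≤ K → P K i x → P k i x)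
    (hP : ∀ K : ℕ, ∀ᶠ i in (𝒰 : Filter ℕ), ∃ x, P K i x) :
    ∃ x : ℕ → T, ∀ k : ℕ, ∀ᶠ i in (𝒰 : Filter ℕ), P k i (x i) := by
  have hw : ∀ i : ℕ, ∃ x : T, (∃ K, K ≤ i ∧ ∃ y, P K i y) →
      P (Nat.findGreatest (fun K => ∃ y, P K i y) i) i x := by
    intro i
    by_cases h : ∃ K, K ≤ i ∧ ∃ y, P K i y
    · obtain ⟨K, hK, hy⟩ := h
      obtain ⟨x, hx⟩ := Nat.findGreatest_spec (P := fun K => ∃ y, P K i y) hK hy
      exact ⟨x, fun _ => hx⟩
    · exact ⟨Classical.arbitrary T, fun h' => absurd h' h⟩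
  choose x hx using hw
  refine ⟨x, fun k => ?_⟩
  filter_upwards [hP k, exa_ge k] with i hi hki
  have h1 := hx i ⟨k, hki, hi⟩
  have h2 : k ≤ Nat.findGreatest (fun K => ∃ y, P K i y) i :=
    Nat.le_findGreatest hki hi
  exact hmono _ _ _ _ h2 h1

/-- Row EXA -/
theorem rowEXA' (hLIM : RowLIM) (hGP : RowGP) : RowEXA := by
  intro G _ S C g c h hmin
  have hc : 0 < c := lt_of_lt_of_le one_pos hmin.one
  choose H hH γ hγ hcard using hmin.att
  obtain ⟨R, hR⟩ := hGP g c (1 / 2) hc (by norm_num) hmin.sup hmin.lim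
  obtain ⟨t, ht⟩ := exa_diag (T := ℤ) (fun K i y => 2 * |y| ≤ i ∧ ∀ k ≤ K, ∀ ρ : ℕ, R k ≤ ρ →
      2 * ρ ≤ i → ((ball S (γ i y) ρ).card : ℝ) ≤ (c + 1 / ((k : ℝ) + 1)) * ρ)
    (fun k K i y hkK hy => ⟨hy.1, fun k' hk' => hy.2 k' (hk'.trans hkK)⟩)
    (fun K => by
      obtain ⟨ε, hε, S₀, hK⟩ := hR K
      obtain ⟨N, hN⟩ := exists_nat_ge (c / ε)
      filter_upwards [exa_ge S₀, exa_ge N] with i hi1 hi2
      obtain ⟨y, hy1, hy2⟩ := hK i (fun x ρ => ((ball S (γ i x) ρ).card : ℝ)) hi1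
        (fun J hJ hd => by
          have h1 : Geo S ((0 : ℤ) - i) (0 + i) (γ i) :=
            bas_geo_mono (hγ i) (by omega) (by omega)
          have h2 := bas_sum_card h h1 J hJ hd
          have h3 : (∑ a ∈ J, (ball S (γ i a.1) a.2).card) ≤ (ball S (γ i 0) i).card := by
            simpa using h2
          exact_mod_cast h3)
        (fun x ρ hx => by
          have h1 := abs_le.1 (show |x| ≤ (i : ℤ) - ρ by omega)
          exact_mod_cast hmin.lo (H i) (hH i) (γ i) x ρ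
            (bas_geo_mono (hγ i) (by omega) (by omega)))
        (by
          show ((ball S (γ i 0) i).card : ℝ) ≤ (c + ε) * i
          rw [hcard i]
          have h1 := hmin.sup i
          have h2 : c / ε ≤ (i : ℝ) := hN.trans (by exact_mod_cast hi2)
          rw [div_le_iff₀ hε] at h2
          nlinarith)
      refine ⟨y, ?_, hy2⟩
      have h3 : (2 * ((|y| : ℤ) : ℝ)) ≤ i := by linarith
      exact_mod_cast h3)
  obtain ⟨K, hK⟩ := hLIM G S h H (fun i => γ i (t i))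
  have hr : Inf (fun i => i / 2) := by
    intro M
    filter_upwards [exa_ge (2 * M)] with i hi
    show M ≤ i / 2
    omega
  obtain ⟨γ', hγ', h0, -⟩ := hK.geo γ t (fun i => i / 2) hr (Filter.Eventually.of_forall fun _ => rfl)
    (by
      filter_upwards [ht 0] with i hi
      have h1 := abs_le.1 (show |t i| ≤ (i : ℤ) - (i / 2 : ℕ) by have := hi.1; omega)
      exact bas_geo_mono (hγ i) (by show -(i : ℤ) ≤ t i - ((i / 2 : ℕ) : ℤ); omega)
        (by show t i + ((i / 2 : ℕ) : ℤ) ≤ i; omega))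
  refine ⟨K, γ', hK.gr C (Filter.Eventually.of_forall hH), hγ', ?_⟩
  intro ε hε
  obtain ⟨k, hk⟩ := exists_nat_one_div_lt hε
  refine ⟨R k, fun ρ hρ => ?_⟩
  obtain ⟨i, hi1, hi2, hi3⟩ := ((hK.card 1 ρ).and ((ht k).and (exa_ge (2 * ρ)))).exists
  rw [one_smul, one_smul] at hi1
  rw [h0, hi1]
  have h1 := hi2.2 k le_rfl ρ hρ hi3
  refine h1.trans (mul_le_mul_of_nonneg_right ?_ (Nat.cast_nonneg _))
  linarith

end

end Pool.Agent.LGT
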