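/-
Schreier graphs of linear growth: row EXB, a nearly minimal line whose longest cycle is shortest.
-/
import Pool.Agent.Lib.LGT.Rows

set_option autoImplicit false

namespace Pool.Agent.LGT

open scoped Pointwise
open Classical

noncomputable section

private theorem EXBperiodic {G X : Type*} [Group G] [MulAction G X] {n : ℕ}
    (hexp : ∀ a : G, a ^ n = 1) (w : G) (x : X) :
    Function.IsPeriodicPt (fun y : X => w • y) n x := by
  show (fun y : X => w • y)^[n] x = x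
  rw [smul_iterate, hexp]
  exact one_smul G x

private theorem EXBper_le {G X : Type*} [Group G] [MulAction G X] {n : ℕ} (hn : 0 < n)
    (hexp : ∀ a : G, a ^ n = 1) (w : G) (x : X) : per w x ≤ n :=
  (EXBperiodic hexp w x).minimalPeriod_le hn

private theorem EXBper_pos {G X : Type*} [Group G] [MulAction G X] {n : ℕ} (hn : 0 < n)
    (hexp : ∀ a : G, a ^ n = 1) (w : G) (x : X) : 0 < per w x :=
  (EXBperiodic hexp w x).minimalPeriod_pos hn

/-- not all periods are at most 1 -/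
private theorem EXBtwo {G X : Type*} [Group G] [MulAction G X] [MulAction.IsPretransitive G X]
    [Infinite X] {n : ℕ} (hn : 0 < n) (hexp : ∀ a : G, a ^ n = 1) {L : ℕ}
    (hL : ∀ (w : G) (x : X), per w x ≤ L) : 2 ≤ L := by
  by_contra hc
  have h1 : ∀ (w : G) (x : X), w • x = x := by
    intro w x
    have h2 := hL w x
    have h3 := EXBper_pos hn hexp w x
    have h4 : Function.minimalPeriod (fun y : X => w • y) x = 1 := by
      show per w x = 1
      omega
    exact Function.minimalPeriod_eq_one_iff_isFixedPt.1 h4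
  obtain ⟨x, y, hxy⟩ := exists_pair_ne X
  obtain ⟨g, hg⟩ := MulAction.exists_smul_eq G x y
  exact hxy (by rw [← hg, h1])

/-- the limit along a good sequence is a nearly minimal line -/
private theorem EXBlim {G : Type} [Group G] {S : Finset G} {C : ℕ} {c : ℝ}
    {H : Subgroup G} {γ : ℤ → G ⧸ H} (hN : NSys S C c H γ) {t : ℕ → ℤ} {r : ℕ → ℕ} (hr : Inf r)
    (hG : GoodB S c γ t r) {K : Subgroup G} (hK : Lim S (fun _ => H) (fun i => γ (t i)) K) :
    ∃ γ' : ℤ → G ⧸ K, NSys S C c K γ' := by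
  obtain ⟨γ', h1, h2, -⟩ := hK.geo (fun _ => γ) t r hr (Filter.Eventually.of_forall fun _ => rfl)
    (Filter.Eventually.of_forall fun i s s' _ hs _ => hN.geo s s' hs)
  refine ⟨γ', ⟨hK.gr C (Filter.Eventually.of_forall fun _ => hN.gr), h1, fun ε hε => ?_⟩⟩
  obtain ⟨R, hR⟩ := hG ε hε
  refine ⟨R, fun ρ hρ => ?_⟩
  obtain ⟨i, ⟨hi1, hi2⟩, hi3⟩ := ((hR.and (hr ρ)).and (hK.card 1 ρ)).exists
  have h3 := hi1 ρ hρ hi2
  rw [one_smul, one_smul] at hi3
  rw [h2, hi3]
  exact h3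

/-- Row EXB -/
theorem rowEXB' (hLIM : RowLIM) : RowEXB := by
  intro G _ S n C g c hS hn hexp hM hex
  have hP : ∃ L : ℕ, ∃ (H : Subgroup G) (γ : ℤ → G ⧸ H), NSys S C c H γ ∧
      ∀ (w : G) (x : G ⧸ H), per w x ≤ L := by
    obtain ⟨H, γ, hN⟩ := hex
    exact ⟨n, H, γ, hN, fun w x => EXBper_le hn hexp w x⟩
  obtain ⟨H, γ, hN, hle⟩ := Nat.find_spec hP
  have hmin : ∀ m : ℕ, m < Nat.find hP → ¬ ∃ (H : Subgroup G) (γ : ℤ → G ⧸ H), NSys S C c H γ ∧
      ∀ (w : G) (x : G ⧸ H), per w x ≤ m := fun m hm => Nat.find_min hP hm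
  have hinf : Infinite (G ⧸ H) := hN.gr.inf
  have h2 : 2 ≤ Nat.find hP := EXBtwo (X := G ⧸ H) hn hexp hle
  refine ⟨Nat.find hP, H, γ, ⟨hS, hn, hexp, hM, hN, h2, hle, fun t r hr hG => ?_⟩⟩
  obtain ⟨K, hK⟩ := hLIM G S hS (fun _ => H) (fun i => γ (t i))
  obtain ⟨γ', hN'⟩ := EXBlim hN hr hG hK
  obtain ⟨w, x, hwx⟩ : ∃ (w : G) (x : G ⧸ K), Nat.find hP ≤ per w x := by
    by_contra hcon
    push Not at hcon
    refine hmin (Nat.find hP - 1) (by omega) ⟨K, γ', hN', fun w x => ?_⟩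
    have h3 := hcon w x
    omega
  obtain ⟨u, rfl⟩ := QuotientGroup.mk_surjective x
  refine ⟨u, w, ?_⟩
  have h4 := hK.cyc n hn hexp w u
  refine h4.mono fun i hi => ?_
  have h5 : u • bp K = ((u : G) : G ⧸ K) := by
    show ((u * 1 : G) : G ⧸ K) = _
    rw [mul_one]
  rw [h5] at hi
  have h6 := hle w (u • γ (t i))
  rw [← hi] at h6 ⊢
  exact le_antisymm h6 hwx

end

end Pool.Agent.LGT
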