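/-
Schreier graphs of linear growth: row GP (combinatorics of intervals).
-/
import Pool.Agent.Lib.LGT.Rows

set_option autoImplicit false

namespace Pool.Agent.LGT

open scoped Pointwise
open Classical

/-- greedy choice of disjoint windows -/
theorem gp_vitali (ρ : ℤ → ℕ) : ∀ (m : ℕ) (B : Finset ℤ), B.card ≤ m → ∃ J ⊆ B,
    (∀ a ∈ J, ∀ b ∈ J, a ≠ b → ((ρ a : ℤ) + ρ b) < |a - b|) ∧
    ∀ t ∈ B, ∃ a ∈ J, |t - a| ≤ 2 * ρ a := by
  intro m
  induction m with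
  | zero =>
    intro B hB
    have hB' : B = ∅ := Finset.card_eq_zero.1 (by omega)
    subst hB'
    exact ⟨∅, Finset.Subset.refl _, by simp, by simp⟩
  | succ m ih =>
    intro B hB
    rcases B.eq_empty_or_nonempty with rfl | hne
    · exact ⟨∅, Finset.Subset.refl _, by simp, by simp⟩
    obtain ⟨a, ha, hmax⟩ := Finset.exists_max_image B ρ hne
    have hsub : (B.filter fun t => ((ρ a : ℤ) + ρ t) < |a - t|) ⊂ B := by
      rw [Finset.filter_ssubset]
      refine ⟨a, ha, ?_⟩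
      simp only [sub_self, abs_zero]
      omega
    obtain ⟨J, hJ, hJd, hJc⟩ := ih (B.filter fun t => ((ρ a : ℤ) + ρ t) < |a - t|)
      (by have := Finset.card_lt_card hsub; omega)
    refine ⟨insert a J, ?_, ?_, ?_⟩
    · intro t ht
      rcases Finset.mem_insert.1 ht with rfl | ht
      · exact ha
      · exact (Finset.mem_filter.1 (hJ ht)).1
    · intro x hx y hy hxy
      rcases Finset.mem_insert.1 hx with hxa | hx'
      · rcases Finset.mem_insert.1 hy with hya | hy'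
        · exact absurd (hxa.trans hya.symm) hxy
        · rw [hxa]; exact (Finset.mem_filter.1 (hJ hy')).2
      · rcases Finset.mem_insert.1 hy with hya | hy'
        · have := (Finset.mem_filter.1 (hJ hx')).2
          rw [hya, abs_sub_comm, add_comm]
          exact this
        · exact hJd x hx' y hy' hxy
    · intro t ht
      by_cases h : ((ρ a : ℤ) + ρ t) < |a - t|
      · obtain ⟨b, hb, hb'⟩ := hJc t (Finset.mem_filter.2 ⟨ht, h⟩)
        exact ⟨b, Finset.mem_insert_of_mem hb, hb'⟩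
      · refine ⟨a, Finset.mem_insert_self _ _, ?_⟩
        have := hmax t ht
        rw [abs_sub_comm]
        omega

theorem gp_count (ρ : ℤ → ℕ) (B J : Finset ℤ) (h : ∀ t ∈ B, ∃ a ∈ J, |t - a| ≤ 2 * ρ a) :
    B.card ≤ ∑ a ∈ J, (4 * ρ a + 1) := by
  have h1 : B ⊆ J.biUnion fun a => Finset.Icc (a - 2 * ρ a) (a + 2 * ρ a) := by
    intro t ht
    obtain ⟨a, ha, hta⟩ := h t ht
    rw [Finset.mem_biUnion]
    refine ⟨a, ha, ?_⟩
    rw [Finset.mem_Icc]
    have := abs_le.1 hta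
    omega
  refine (Finset.card_le_card h1).trans (Finset.card_biUnion_le.trans (Finset.sum_le_sum ?_))
  intro a _
  rw [Int.card_Icc]
  omega

/-- terms of an arithmetic progression in an interval -/
theorem gp_prog (q A : ℕ) (x₀ a : ℤ) (w : ℕ) :
    (2 * A + 1) * ((Finset.range q).filter fun j : ℕ =>
      |x₀ + (2 * A + 1) * (j : ℤ) - a| ≤ w).card ≤ 2 * w + (2 * A + 1) := by
  set T := (Finset.range q).filter fun j : ℕ => |x₀ + (2 * A + 1) * (j : ℤ) - a| ≤ w with hT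
  rcases T.eq_empty_or_nonempty with h | h
  · rw [h]; simp
  obtain ⟨j₀, hj₀, hmin⟩ := Finset.exists_min_image T id h
  obtain ⟨j₁, hj₁, hmax⟩ := Finset.exists_max_image T id h
  simp only [id] at hmin hmax
  have h1 : T ⊆ Finset.Icc j₀ j₁ := fun j hj => Finset.mem_Icc.2 ⟨hmin j hj, hmax j hj⟩
  have h2 := Finset.card_le_card h1
  rw [Nat.card_Icc] at h2
  have h3 := abs_le.1 (Finset.mem_filter.1 hj₀).2
  have h4 := abs_le.1 (Finset.mem_filter.1 hj₁).2
  have h5 := hmin j₁ hj₁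
  have h6 : (2 * A + 1 : ℤ) * ((j₁ : ℤ) - j₀) ≤ 2 * w := by nlinarith [h3.1, h4.2]
  have h7 : (2 * A + 1 : ℤ) * (T.card : ℤ) ≤ (2 * A + 1) * ((j₁ : ℤ) + 1 - j₀) := by
    apply mul_le_mul_of_nonneg_left _ (by positivity)
    omega
  have h8 : (2 * A + 1 : ℤ) * (T.card : ℤ) ≤ 2 * w + (2 * A + 1) := by nlinarith
  exact_mod_cast h8

/-- the main estimate -/
theorem gp_lower (g : ℕ → ℕ) (c η κ : ℝ) (A : ℕ) (hη : 0 ≤ η) (hηc : η ≤ c) (hκ : 0 ≤ κ)
    (hA : (c - η) * (A + 1) ≤ g A) (s : ℕ) (F : ℤ → ℕ → ℝ)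
    (hF : ∀ J : Finset (ℤ × ℕ), (∀ a ∈ J, |a.1| + a.2 ≤ s) →
      (∀ a ∈ J, ∀ b ∈ J, a ≠ b → ((a.2 : ℤ) + b.2) < |a.1 - b.1|) → ∑ a ∈ J, F a.1 a.2 ≤ F 0 s)
    (hg : ∀ (t : ℤ) (ρ : ℕ), |t| + ρ ≤ s → (g ρ : ℝ) ≤ F t ρ)
    (ρ : ℤ → ℕ) (J : Finset ℤ) (hJ : ∀ a ∈ J, |a| + ρ a ≤ s)
    (hd : ∀ a ∈ J, ∀ b ∈ J, a ≠ b → ((ρ a : ℤ) + ρ b) < |a - b|)
    (hb : ∀ a ∈ J, (c + κ) * ρ a ≤ F a (ρ a)) :
    κ * (∑ a ∈ J, (ρ a : ℝ)) + c * s - η * s - c * (A + J.card * (2 * A + 1)) ≤ F 0 s := by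
  set d : ℕ := 2 * A + 1 with hd'
  set q : ℕ := (2 * s + 1) / d with hq
  have hdpos : 0 < d := by omega
  have hq1 : d * q ≤ 2 * s + 1 := Nat.mul_div_le _ _
  have hq2 : 2 * s + 1 < d * q + d := by
    have := Nat.lt_mul_div_succ (2 * s + 1) hdpos
    rw [mul_add, mul_one] at this
    exact this
  let x : ℕ → ℤ := fun j => (-s + A : ℤ) + (2 * A + 1) * (j : ℤ)
  let bad : ℤ → Finset ℕ := fun a => (Finset.range q).filter fun j : ℕ =>
      |(-s + A : ℤ) + (2 * A + 1) * (j : ℤ) - a| ≤ ((A + ρ a : ℕ) : ℤ)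
  let free : Finset ℕ := (Finset.range q).filter fun j => ∀ a ∈ J, ((A + ρ a : ℕ) : ℤ) < |x j - a|
  have hfree : Finset.range q ⊆ free ∪ J.biUnion bad := by
    intro j hj
    by_cases h : ∀ a ∈ J, ((A + ρ a : ℕ) : ℤ) < |x j - a|
    · exact Finset.mem_union_left _ (Finset.mem_filter.2 ⟨hj, h⟩)
    · push Not at h
      obtain ⟨a, ha, hj'⟩ := h
      exact Finset.mem_union_right _ (Finset.mem_biUnion.2 ⟨a, ha, Finset.mem_filter.2 ⟨hj, hj'⟩⟩)
  have hcount : d * q ≤ d * free.card + ∑ a ∈ J, (2 * ρ a + (4 * A + 1)) := by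
    have h1 := Finset.card_le_card hfree
    rw [Finset.card_range] at h1
    have h2 := Finset.card_union_le free (J.biUnion bad)
    have h3 : (J.biUnion bad).card ≤ ∑ a ∈ J, (bad a).card := Finset.card_biUnion_le
    have h4 : ∑ a ∈ J, d * (bad a).card ≤ ∑ a ∈ J, (2 * ρ a + (4 * A + 1)) := by
      apply Finset.sum_le_sum
      intro a _
      have h5 := gp_prog q A (-s + A : ℤ) a (A + ρ a)
      change d * (bad a).card ≤ _ at h5
      omega
    rw [← Finset.mul_sum] at h4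
    calc d * q ≤ d * (free.card + ∑ a ∈ J, (bad a).card) :=
          Nat.mul_le_mul_left _ (by omega)
      _ = d * free.card + d * ∑ a ∈ J, (bad a).card := by ring
      _ ≤ _ := by omega
  -- the admissible family
  have hxs : ∀ j ∈ free, |x j| + A ≤ (s : ℤ) := by
    intro j hj
    have h1 : j < q := Finset.mem_range.1 (Finset.mem_filter.1 hj).1
    have h2 : d * (j + 1) ≤ 2 * s + 1 := (Nat.mul_le_mul_left d h1).trans hq1
    have h3 : ((2 * A + 1 : ℤ)) * (j + 1) ≤ 2 * s + 1 := by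
      rw [hd'] at h2; exact_mod_cast h2
    have h4 : (0 : ℤ) ≤ (2 * A + 1) * (j : ℤ) := by positivity
    change |(-s + A : ℤ) + (2 * A + 1) * (j : ℤ)| + A ≤ (s : ℤ)
    rcases abs_cases ((-s + A : ℤ) + (2 * A + 1) * (j : ℤ)) with ⟨h5, _⟩ | ⟨h5, _⟩ <;> nlinarith
  let J₁ : Finset (ℤ × ℕ) := J.image fun a => (a, ρ a)
  let J₂ : Finset (ℤ × ℕ) := free.image fun j => (x j, A)
  have hxinj : ∀ i j : ℕ, i ≠ j → (2 * A + 1 : ℤ) ≤ |x i - x j| := by
    intro i j hij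
    have h1 : x i - x j = (2 * A + 1) * ((i : ℤ) - j) := by
      change (-s + A : ℤ) + (2 * A + 1) * (i : ℤ) - ((-s + A : ℤ) + (2 * A + 1) * (j : ℤ)) = _
      ring
    rw [h1, abs_mul, abs_of_pos (by positivity : (0 : ℤ) < 2 * A + 1)]
    have h2 : (1 : ℤ) ≤ |(i : ℤ) - j| := Int.one_le_abs (by omega)
    nlinarith
  have hdisj : Disjoint J₁ J₂ := by
    rw [Finset.disjoint_left]
    intro y hy hy'
    obtain ⟨a, ha, rfl⟩ := Finset.mem_image.1 hy
    obtain ⟨j, hj, h⟩ := Finset.mem_image.1 hy'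
    have h1 := (Finset.mem_filter.1 hj).2 a ha
    have h2 : x j = a := congrArg Prod.fst h
    rw [h2, sub_self, abs_zero] at h1
    omega
  have hsum := hF (J₁ ∪ J₂) (by
      intro y hy
      rcases Finset.mem_union.1 hy with h | h
      · obtain ⟨a, ha, rfl⟩ := Finset.mem_image.1 h
        exact hJ a ha
      · obtain ⟨j, hj, rfl⟩ := Finset.mem_image.1 h
        exact hxs j hj) (by
      intro y hy z hz hyz
      rcases Finset.mem_union.1 hy with h | h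
      · obtain ⟨a, ha, rfl⟩ := Finset.mem_image.1 h
        rcases Finset.mem_union.1 hz with h' | h'
        · obtain ⟨b, hb, rfl⟩ := Finset.mem_image.1 h'
          exact hd a ha b hb (fun h => hyz (by rw [h]))
        · obtain ⟨j, hj, rfl⟩ := Finset.mem_image.1 h'
          have h1 := (Finset.mem_filter.1 hj).2 a ha
          simp only
          rw [abs_sub_comm]
          push_cast at h1
          linarith
      · obtain ⟨j, hj, rfl⟩ := Finset.mem_image.1 h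
        rcases Finset.mem_union.1 hz with h' | h'
        · obtain ⟨a, ha, rfl⟩ := Finset.mem_image.1 h'
          have h1 := (Finset.mem_filter.1 hj).2 a ha
          simp only
          push_cast at h1
          linarith
        · obtain ⟨i, hi, rfl⟩ := Finset.mem_image.1 h'
          have h1 := hxinj j i (fun h => hyz (by rw [h]))
          simp only
          linarith)
  rw [Finset.sum_union hdisj, Finset.sum_image (by
      intro a _ b _ h; exact congrArg Prod.fst h), Finset.sum_image (by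
      intro i _ j _ h
      by_contra hij
      have h1 := hxinj i j hij
      have h2 : x i = x j := congrArg Prod.fst h
      rw [h2, sub_self, abs_zero] at h1
      omega)] at hsum
  simp only at hsum
  have hs1 : (c + κ) * (∑ a ∈ J, (ρ a : ℝ)) ≤ ∑ a ∈ J, F a (ρ a) := by
    rw [Finset.mul_sum]; exact Finset.sum_le_sum hb
  have hs2 : (free.card : ℝ) * ((c - η) * (A + 1)) ≤ ∑ j ∈ free, F (x j) A := by
    rw [← nsmul_eq_mul]
    exact Finset.card_nsmul_le_sum _ _ _ fun j hj => hA.trans (hg _ _ (hxs j hj))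
  have hc' : (2 * s + 1 : ℝ) < (2 * A + 1) * free.card +
      (2 * (∑ a ∈ J, (ρ a : ℝ)) + J.card * (4 * A + 1)) + (2 * A + 1) := by
    have h1 : (2 * s + 1 : ℕ) < d * free.card + ∑ a ∈ J, (2 * ρ a + (4 * A + 1)) + d := by omega
    have h2 : ((2 * s + 1 : ℕ) : ℝ) <
      ((d * free.card + ∑ a ∈ J, (2 * ρ a + (4 * A + 1)) + d : ℕ) : ℝ) := by exact_mod_cast h1
    rw [hd'] at h2
    push_cast at h2
    rw [Finset.sum_add_distrib, Finset.sum_const, nsmul_eq_mul, ← Finset.mul_sum] at h2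
    linarith
  have hfc : (0 : ℝ) ≤ free.card := by positivity
  have hAR : (0 : ℝ) ≤ A := by positivity
  have hJc : (0 : ℝ) ≤ J.card := by positivity
  have hρ : (0 : ℝ) ≤ ∑ a ∈ J, (ρ a : ℝ) := Finset.sum_nonneg fun a _ => by positivity
  have hs0 : (0 : ℝ) ≤ s := by positivity
  have hk : (s : ℝ) - A - (∑ a ∈ J, (ρ a : ℝ)) - J.card * (2 * A + 1) ≤ free.card * (A + 1) := by
    nlinarith
  have hcη : 0 ≤ c - η := by linarith
  have h9 := mul_le_mul_of_nonneg_left hk hcη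
  have hc0 : 0 ≤ c := by linarith
  nlinarith [mul_nonneg hη hρ, mul_nonneg hη hAR, mul_nonneg hη (mul_nonneg hJc (by linarith : (0 : ℝ) ≤ 2 * A + 1))]

/-- the bad points are few -/
theorem gp_bad (g : ℕ → ℕ) (c η κ ε : ℝ) (A R : ℕ) (hη : 0 ≤ η) (hηc : η ≤ c) (hκ : 0 < κ)
    (hA : (c - η) * (A + 1) ≤ g A) (hR0 : 1 ≤ R) (hR : 2 * c * (2 * A + 1) ≤ κ * R) (s : ℕ)
    (F : ℤ → ℕ → ℝ)
    (hF : ∀ J : Finset (ℤ × ℕ), (∀ a ∈ J, |a.1| + a.2 ≤ s) →
      (∀ a ∈ J, ∀ b ∈ J, a ≠ b → ((a.2 : ℤ) + b.2) < |a.1 - b.1|) → ∑ a ∈ J, F a.1 a.2 ≤ F 0 s)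
    (hg : ∀ (t : ℤ) (ρ : ℕ), |t| + ρ ≤ s → (g ρ : ℝ) ≤ F t ρ) (hFs : F 0 s ≤ (c + ε) * s)
    (B : Finset ℤ) (hB : ∀ t ∈ B, 2 * |t| ≤ s ∧ ∃ ρ : ℕ, R ≤ ρ ∧ 2 * ρ ≤ s ∧
      (c + κ) * ρ < F t ρ) :
    κ * (B.card : ℝ) ≤ 10 * ((ε + η) * s + c * A) := by
  choose! ρ hρ using fun t (ht : t ∈ B) => (hB t ht).2
  obtain ⟨J, hJB, hJd, hJc⟩ := gp_vitali ρ B.card B le_rfl
  have h1 := gp_count ρ B J hJc
  have h2 := gp_lower g c η κ A hη hηc hκ.le hA s F hF hg ρ J
    (fun a ha => by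
      have h3 := (hB a (hJB ha)).1
      have h4 := (hρ a (hJB ha)).2.1
      omega) hJd (fun a ha => (hρ a (hJB ha)).2.2.le)
  have h3 : (J.card : ℝ) * R ≤ ∑ a ∈ J, (ρ a : ℝ) := by
    rw [← nsmul_eq_mul]
    exact Finset.card_nsmul_le_sum _ _ _ fun a ha => by exact_mod_cast (hρ a (hJB ha)).1
  have h4 : (B.card : ℝ) ≤ 4 * (∑ a ∈ J, (ρ a : ℝ)) + J.card := by
    have : (B.card : ℝ) ≤ ((∑ a ∈ J, (4 * ρ a + 1) : ℕ) : ℝ) := by exact_mod_cast h1
    push_cast at this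
    rw [Finset.sum_add_distrib, ← Finset.mul_sum, Finset.sum_const, nsmul_eq_mul, mul_one] at this
    exact this
  have hJ0 : (0 : ℝ) ≤ J.card := by positivity
  have hR1 : (1 : ℝ) ≤ R := by exact_mod_cast hR0
  have h5 : (J.card : ℝ) ≤ ∑ a ∈ J, (ρ a : ℝ) := by nlinarith
  have h6 : 2 * (c * (J.card * (2 * A + 1))) ≤ κ * ∑ a ∈ J, (ρ a : ℝ) := by
    calc 2 * (c * (J.card * (2 * A + 1))) = J.card * (2 * c * (2 * A + 1)) := by ring
      _ ≤ J.card * (κ * R) := mul_le_mul_of_nonneg_left hR hJ0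
      _ = κ * (J.card * R) := by ring
      _ ≤ _ := mul_le_mul_of_nonneg_left h3 hκ.le
  have h7 : κ * (B.card : ℝ) ≤ κ * (5 * ∑ a ∈ J, (ρ a : ℝ)) :=
    mul_le_mul_of_nonneg_left (by linarith) hκ.le
  nlinarith

theorem rowGP : RowGP := by
  intro g c ζ hc hζ hg hlim
  set z : ℝ := min ζ (1 / 2) with hz
  have hz0 : 0 < z := lt_min hζ (by norm_num)
  have hzζ : z ≤ ζ := min_le_left _ _
  have hz2 : z ≤ 1 / 2 := min_le_right _ _
  -- the constants
  let η : ℕ → ℝ := fun k => min c (z / (10 * ((k : ℝ) + 1) * 2 ^ (k + 3)))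
  have hη0 : ∀ k, 0 < η k := fun k => lt_min hc (by positivity)
  have hη1 : ∀ k, η k ≤ c := fun k => min_le_left _ _
  have hη2 : ∀ k : ℕ, 10 * ((k : ℝ) + 1) * η k ≤ z / 2 ^ (k + 3) := by
    intro k
    have h1 : η k ≤ z / (10 * ((k : ℝ) + 1) * 2 ^ (k + 3)) := min_le_right _ _
    calc 10 * ((k : ℝ) + 1) * η k ≤ 10 * ((k : ℝ) + 1) * (z / (10 * ((k : ℝ) + 1) * 2 ^ (k + 3))) :=
          mul_le_mul_of_nonneg_left h1 (by positivity)
      _ = z / 2 ^ (k + 3) := by field_simp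
  choose A hA using fun k => hlim (η k) (hη0 k)
  have hR : ∀ k : ℕ, ∃ R : ℕ, 1 ≤ R ∧ 2 * c * (2 * (A k : ℝ) + 1) ≤ 1 / ((k : ℝ) + 1) * R := by
    intro k
    obtain ⟨R, hR⟩ := exists_nat_ge (2 * c * (2 * (A k : ℝ) + 1) * ((k : ℝ) + 1))
    refine ⟨R + 1, by omega, ?_⟩
    rw [one_div, inv_mul_eq_div, le_div_iff₀ (by positivity)]
    push_cast
    linarith
  choose R hR1 hR2 using hR
  refine ⟨R, fun K => ?_⟩
  refine ⟨z / (10 * ((K : ℝ) + 1) * 2 ^ (K + 3)), by positivity, ?_⟩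
  set ε : ℝ := z / (10 * ((K : ℝ) + 1) * 2 ^ (K + 3)) with hε
  have hε2 : ∀ k ≤ K, 10 * ((k : ℝ) + 1) * ε ≤ z / 2 ^ (k + 3) := by
    intro k hk
    have hk' : (k : ℝ) ≤ K := by exact_mod_cast hk
    have h1 : 10 * ((k : ℝ) + 1) * ε ≤ 10 * ((K : ℝ) + 1) * ε :=
      mul_le_mul_of_nonneg_right (by linarith) (by positivity)
    have h2 : 10 * ((K : ℝ) + 1) * ε = z / 2 ^ (K + 3) := by rw [hε]; field_simp
    have h3 : z / 2 ^ (K + 3) ≤ z / 2 ^ (k + 3) := by
      apply div_le_div_of_nonneg_left hz0.le (by positivity)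
      exact pow_le_pow_right₀ (by norm_num) (by omega)
    linarith
  -- the lower bound for s
  have hS : ∃ S₀ : ℕ, 1 ≤ z * S₀ ∧ ∀ k ≤ K, 10 * ((k : ℝ) + 1) * (c * A k) ≤ z / 2 ^ (k + 3) * S₀ := by
    obtain ⟨S₁, hS₁⟩ := exists_nat_ge (1 / z)
    have h1 : ∀ k : ℕ, ∃ T : ℕ, 10 * ((k : ℝ) + 1) * (c * A k) ≤ z / 2 ^ (k + 3) * T := by
      intro k
      obtain ⟨T, hT⟩ := exists_nat_ge (10 * ((k : ℝ) + 1) * (c * A k) / (z / 2 ^ (k + 3)))
      refine ⟨T, ?_⟩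
      rw [div_le_iff₀ (by positivity)] at hT
      linarith
    choose T hT using h1
    refine ⟨S₁ + ∑ k ∈ Finset.range (K + 1), T k, ?_, ?_⟩
    · rw [div_le_iff₀ hz0] at hS₁
      push_cast
      have : (0 : ℝ) ≤ ∑ k ∈ Finset.range (K + 1), (T k : ℝ) :=
        Finset.sum_nonneg fun _ _ => by positivity
      nlinarith
    · intro k hk
      refine (hT k).trans (mul_le_mul_of_nonneg_left ?_ (by positivity))
      have h2 : T k ≤ ∑ k ∈ Finset.range (K + 1), T k :=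
        Finset.single_le_sum (fun _ _ => Nat.zero_le _) (Finset.mem_range.2 (by omega))
      exact_mod_cast h2.trans (Nat.le_add_left _ _)
  obtain ⟨S₀, hS1, hS2⟩ := hS
  refine ⟨S₀, fun s F hs hF hgF hFs => ?_⟩
  have hs' : (S₀ : ℝ) ≤ s := by exact_mod_cast hs
  have hzs : 1 ≤ z * s := hS1.trans (mul_le_mul_of_nonneg_left hs' hz0.le)
  -- the window of candidates
  set N : ℕ := ⌊z * s⌋₊ with hN
  have hN1 : (N : ℝ) ≤ z * s := Nat.floor_le (by positivity)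
  have hN2 : z * s < N + 1 := Nat.lt_floor_add_one _
  let bad : ℕ → Finset ℤ := fun k => (Finset.Icc (-(N : ℤ)) N).filter fun t =>
    ∃ ρ : ℕ, R k ≤ ρ ∧ 2 * ρ ≤ s ∧ (c + 1 / ((k : ℝ) + 1)) * ρ < F t ρ
  have hbad : ∀ k ≤ K, ((bad k).card : ℝ) ≤ 3 * (z / 2 ^ (k + 3)) * s := by
    intro k hk
    have hk1 : (0 : ℝ) < (k : ℝ) + 1 := by positivity
    have h1 := gp_bad g c (η k) (1 / ((k : ℝ) + 1)) ε (A k) (R k) (hη0 k).le (hη1 k) (by positivity)
      (hA k (A k) le_rfl) (hR1 k) (hR2 k) s F hF hgF hFs (bad k) (by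
        intro t ht
        obtain ⟨ht1, ht2⟩ := Finset.mem_filter.1 ht
        refine ⟨?_, ht2⟩
        rw [Finset.mem_Icc] at ht1
        have h2 : |t| ≤ (N : ℤ) := abs_le.2 ht1
        have h3 : (2 * N : ℝ) ≤ s := by
          have : z * s ≤ 1 / 2 * s := mul_le_mul_of_nonneg_right hz2 (by positivity)
          linarith
        have h4 : 2 * N ≤ s := by exact_mod_cast h3
        omega)
    have h2 : ((bad k).card : ℝ) ≤ ((k : ℝ) + 1) * (10 * ((ε + η k) * s + c * A k)) := by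
      rw [one_div, inv_mul_le_iff₀ hk1] at h1
      exact h1
    have h3 := hε2 k hk
    have h4 := hη2 k
    have h5 := hS2 k hk
    have hs0 : (0 : ℝ) ≤ s := by positivity
    have h6 : z / 2 ^ (k + 3) * (S₀ : ℝ) ≤ z / 2 ^ (k + 3) * s :=
      mul_le_mul_of_nonneg_left hs' (by positivity)
    calc ((bad k).card : ℝ) ≤ ((k : ℝ) + 1) * (10 * ((ε + η k) * s + c * A k)) := h2
      _ = 10 * ((k : ℝ) + 1) * ε * s + 10 * ((k : ℝ) + 1) * η k * s +
          10 * ((k : ℝ) + 1) * (c * A k) := by ring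
      _ ≤ z / 2 ^ (k + 3) * s + z / 2 ^ (k + 3) * s + z / 2 ^ (k + 3) * s := by
          have := mul_le_mul_of_nonneg_right h3 hs0
          have := mul_le_mul_of_nonneg_right h4 hs0
          linarith
      _ = _ := by ring
  have hgeom : ∀ m : ℕ, ∑ k ∈ Finset.range m, 3 * (z / 2 ^ (k + 3)) * (s : ℝ) ≤
      3 / 4 * z * s * (1 - 1 / 2 ^ m) := by
    intro m
    induction m with
    | zero => simp
    | succ m ih =>
      rw [Finset.sum_range_succ]
      have e : 3 * (z / 2 ^ (m + 3)) * (s : ℝ) =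
        3 / 4 * z * s * (1 - 1 / 2 ^ (m + 1)) - 3 / 4 * z * s * (1 - 1 / 2 ^ m) := by
        field_simp
        ring
      linarith
  have htot : ((((Finset.range (K + 1)).biUnion bad).card : ℕ) : ℝ) < 2 * N + 1 := by
    have h1 : (((Finset.range (K + 1)).biUnion bad).card : ℝ) ≤
        ∑ k ∈ Finset.range (K + 1), ((bad k).card : ℝ) := by
      exact_mod_cast (Finset.card_biUnion_le (s := Finset.range (K + 1)) (t := bad))
    have h2 : ∑ k ∈ Finset.range (K + 1), ((bad k).card : ℝ) ≤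
        ∑ k ∈ Finset.range (K + 1), 3 * (z / 2 ^ (k + 3)) * (s : ℝ) :=
      Finset.sum_le_sum fun k hk => hbad k (by have := Finset.mem_range.1 hk; omega)
    have h3 := hgeom (K + 1)
    have h4 : 3 / 4 * z * s * (1 - 1 / 2 ^ (K + 1)) ≤ 3 / 4 * (z * s) := by
      have : (0 : ℝ) ≤ 3 / 4 * (z * s) * (1 / 2 ^ (K + 1)) := by positivity
      nlinarith
    linarith
  have hex : ∃ t ∈ Finset.Icc (-(N : ℤ)) N, t ∉ (Finset.range (K + 1)).biUnion bad := by
    by_contra hcon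
    push Not at hcon
    have h1 := Finset.card_le_card (show Finset.Icc (-(N : ℤ)) N ⊆ _ from hcon)
    rw [Int.card_Icc] at h1
    have h2 : 2 * N + 1 ≤ ((Finset.range (K + 1)).biUnion bad).card := by omega
    have h3 : ((2 * N + 1 : ℕ) : ℝ) ≤ ((Finset.range (K + 1)).biUnion bad).card := by
      exact_mod_cast h2
    push_cast at h3
    linarith
  obtain ⟨t, ht, ht'⟩ := hex
  rw [Finset.mem_biUnion] at ht'
  push Not at ht'
  refine ⟨t, ?_, fun k hk ρ h1 h2 => ?_⟩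
  · rw [Finset.mem_Icc] at ht
    have h1 : |t| ≤ (N : ℤ) := abs_le.2 ht
    have h2 : ((|t| : ℤ) : ℝ) ≤ N := by exact_mod_cast h1
    have h3 : z * s ≤ ζ * s := mul_le_mul_of_nonneg_right hzζ (by positivity)
    linarith
  · by_contra hcon
    push Not at hcon
    exact ht' k (Finset.mem_range.2 (by omega)) (Finset.mem_filter.2 ⟨ht, ρ, h1, h2, hcon⟩)

end Pool.Agent.LGT
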