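/-
Schreier graphs of linear growth: row GR, the minimal ball sizes.
-/
import Pool.Agent.Lib.LGT.Rows

set_option autoImplicit false

namespace Pool.Agent.LGT

open scoped Pointwise
open Classical

noncomputable section

section

variable {G X : Type*} [Group G] [MulAction G X] [MulAction.IsPretransitive G X] {S : Finset G}

private theorem gr_pred (h : Gen S) (x : X) (m : ℕ) : ∀ y : X, dst S x y = m + 1 →
    ∃ z : X, dst S x z = m ∧ dst S z y = 1 := by
  intro y hy
  have h1 : y ∈ ball S x (m + 1) := (mem_ball h x y _).2 hy.le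
  obtain ⟨g, hg, rfl⟩ := (mem_ball_iff' x y _).1 h1
  rw [pow_succ', Finset.mem_mul] at hg
  obtain ⟨s, hs, a, ha, rfl⟩ := hg
  have h2 : dst S x (a • x) ≤ m := (mem_ball h _ _ _).1 ((mem_ball_iff' _ _ _).2 ⟨a, ha, rfl⟩)
  have h3 : dst S (a • x) ((s * a) • x) ≤ 1 := by
    rw [mul_smul]
    refine (dst_smul_le h (a • x) s).trans (len_le ?_)
    rwa [pow_one]
  have h4 := dst_triangle h x (a • x) ((s * a) • x)
  exact ⟨a • x, by omega, by omega⟩

private theorem gr_path (h : Gen S) (x : X) (m : ℕ) : ∀ y : X, dst S x y = m →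
    ∃ p : ℕ → X, p m = y ∧ (∀ i ≤ m, dst S x (p i) = i) ∧
      ∀ i < m, dst S (p i) (p (i + 1)) = 1 := by
  induction m with
  | zero =>
    intro y hy
    exact ⟨fun _ => y, rfl, fun i hi => by rw [hy]; omega, fun i hi => by omega⟩
  | succ m ih =>
    intro y hy
    obtain ⟨z, hz, hzy⟩ := gr_pred h x m y hy
    obtain ⟨p, hp, hp1, hp2⟩ := ih z hz
    refine ⟨fun i => if i ≤ m then p i else y, by simp, fun i hi => ?_, fun i hi => ?_⟩
    · by_cases h1 : i ≤ m
      · simp only [h1, if_true]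
        exact hp1 i h1
      · simp only [h1, if_false]
        rw [hy]
        omega
    · by_cases h1 : i + 1 ≤ m
      · have h2 : i ≤ m := by omega
        simp only [h1, h2, if_true]
        exact hp2 i (by omega)
      · have h2 : i = m := by omega
        subst h2
        simp only [le_refl, if_true, h1, if_false, hp]
        exact hzy

private theorem gr_steps (h : Gen S) (p : ℕ → X) (m : ℕ)
    (hp : ∀ i < m, dst S (p i) (p (i + 1)) = 1) (i k : ℕ) (hk : i + k ≤ m) :
    dst S (p i) (p (i + k)) ≤ k := by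
  induction k with
  | zero => rw [add_zero, dst_self h]
  | succ k ih =>
    have h1 := ih (by omega)
    have h2 := hp (i + k) (by omega)
    have h3 := dst_triangle h (p i) (p (i + k)) (p (i + (k + 1)))
    have h4 : dst S (p (i + k)) (p (i + (k + 1))) = 1 := h2
    omega

private theorem gr_far (h : Gen S) [Infinite X] (x : X) (m : ℕ) : ∃ y : X, dst S x y = m := by
  have h1 : ∃ y : X, m ≤ dst S x y := by
    by_contra hcon
    push Not at hcon
    have h2 : (Set.univ : Set X) ⊆ (ball S x m : Finset X) := by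
      intro y _
      exact Finset.mem_coe.2 ((mem_ball h x y m).2 (hcon y).le)
    exact Set.infinite_univ ((Finset.finite_toSet _).subset h2)
  obtain ⟨y, hy⟩ := h1
  obtain ⟨p, hp, hp1, hp2⟩ := gr_path h x _ y rfl
  exact ⟨p m, hp1 m hy⟩

private theorem gr_geo (h : Gen S) [Infinite X] (r : ℕ) : ∃ γ : ℤ → X, Geo S (-r) r γ := by
  have hne : Nonempty X := inferInstance
  obtain ⟨x⟩ := hne
  obtain ⟨y, hy⟩ := gr_far h x (2 * r)
  obtain ⟨p, hp, hp1, hp2⟩ := gr_path h x _ y hy
  refine ⟨fun t => p (t + r).toNat, fun s t hs hst ht => ?_⟩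
  show (dst S (p (s + r).toNat) (p (t + r).toNat) : ℤ) = t - s
  have e1 : (((s + r).toNat : ℕ) : ℤ) = s + r := Int.toNat_of_nonneg (by omega)
  have e2 : (((t + r).toNat : ℕ) : ℤ) = t + r := Int.toNat_of_nonneg (by omega)
  generalize (s + (r : ℤ)).toNat = a at e1 ⊢
  generalize (t + (r : ℤ)).toNat = b at e2 ⊢
  have hab : a ≤ b := by omega
  have hb : b ≤ 2 * r := by omega
  obtain ⟨k, rfl⟩ := Nat.exists_eq_add_of_le hab
  have h1 := gr_steps h p (2 * r) hp2 a k hb
  have h2 := hp1 a (by omega)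
  have h3 := hp1 (a + k) hb
  have h4 := dst_triangle h x (p a) (p (a + k))
  have h5 : dst S (p a) (p (a + k)) = k := by omega
  rw [h5]
  omega

private theorem gr_zero (h : Gen S) (x : X) : (ball S x 0).card ≤ 1 := by
  rw [Finset.card_le_one]
  intro a ha b hb
  have h1 := (mem_ball h _ _ _).1 ha
  have h2 := (mem_ball h _ _ _).1 hb
  rw [← eq_of_dst h (Nat.le_zero.1 h1), ← eq_of_dst h (Nat.le_zero.1 h2)]

private theorem gr_center (h : Gen S) (x : X) (r : ℕ) : 1 ≤ (ball S x r).card := by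
  rw [Nat.one_le_iff_ne_zero, ← Nat.pos_iff_ne_zero, Finset.card_pos]
  exact ⟨x, (mem_ball h x x r).2 (by rw [dst_self h]; omega)⟩

end

private theorem gr_geo_dst {G X : Type*} [Group G] [MulAction G X] {S : Finset G} {a b : ℤ}
    {γ : ℤ → X} (hγ : Geo S a b γ) (s t : ℤ) (hs : a ≤ s) (hst : s ≤ t) (ht : t ≤ b) :
    (dst S (γ s) (γ t) : ℤ) = t - s := hγ s t hs hst ht

/-- the numbers of points of the balls -/
private def grSet {G : Type} [Group G] (S : Finset G) (C r : ℕ) : Set ℕ :=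
  {m | ∃ H : Subgroup G, GrL S C H ∧ ∃ γ : ℤ → G ⧸ H, Geo S (-r) r γ ∧
    (ball S (γ 0) r).card = m}

private theorem gr_nonempty {G : Type} [Group G] {S : Finset G} (h : Gen S) (C : ℕ)
    (H : Subgroup G) (hH : GrL S C H) (r : ℕ) : (grSet S C r).Nonempty := by
  have := hH.inf
  obtain ⟨γ, hγ⟩ := gr_geo (X := G ⧸ H) h r
  exact ⟨_, H, hH, γ, hγ, rfl⟩

private theorem gr_lo {G : Type} [Group G] {S : Finset G} (C : ℕ)
    (H : Subgroup G) (hH : GrL S C H) (γ : ℤ → G ⧸ H) (t : ℤ) (r : ℕ)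
    (hγ : Geo S (t - r) (t + r) γ) : sInf (grSet S C r) ≤ (ball S (γ t) r).card := by
  apply Nat.sInf_le
  refine ⟨H, hH, fun s => γ (s + t), fun a b ha hab hb => ?_, ?_⟩
  · have h1 := hγ (a + t) (b + t) (by omega) (by omega) (by omega)
    show (dst S (γ (a + t)) (γ (b + t)) : ℤ) = b - a
    rw [h1]
    ring
  · show (ball S (γ (0 + t)) r).card = _
    rw [zero_add]

private theorem gr_super {G : Type} [Group G] {S : Finset G} (h : Gen S) (C : ℕ)
    (H₀ : Subgroup G) (hH₀ : GrL S C H₀) (r s : ℕ) :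
    sInf (grSet S C r) + sInf (grSet S C s) ≤ sInf (grSet S C (r + s + 1)) := by
  obtain ⟨H, hH, γ, hγ, hcard⟩ := Nat.sInf_mem (gr_nonempty h C H₀ hH₀ (r + s + 1))
  rw [← hcard]
  have h1 := gr_lo C H hH γ (-(s : ℤ) - 1) r (fun a b ha hab hb =>
    hγ a b (by push_cast; omega) hab (by push_cast; omega))
  have h2 := gr_lo C H hH γ ((r : ℤ) + 1) s (fun a b ha hab hb =>
    hγ a b (by push_cast; omega) hab (by push_cast; omega))
  have d0 : (dst S (γ (-(s : ℤ) - 1)) (γ ((r : ℤ) + 1)) : ℤ) = r + s + 2 := by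
    rw [hγ (-(s : ℤ) - 1) ((r : ℤ) + 1) (by push_cast; omega) (by omega) (by push_cast; omega)]
    ring
  have d1 : (dst S (γ (-(s : ℤ) - 1)) (γ 0) : ℤ) = s + 1 := by
    rw [hγ (-(s : ℤ) - 1) 0 (by push_cast; omega) (by omega) (by push_cast; omega)]
    ring
  have d2 : (dst S (γ 0) (γ ((r : ℤ) + 1)) : ℤ) = r + 1 := by
    rw [hγ 0 ((r : ℤ) + 1) (by push_cast; omega) (by omega) (by push_cast; omega)]
    ring
  have hdisj : Disjoint (ball S (γ (-(s : ℤ) - 1)) r) (ball S (γ ((r : ℤ) + 1)) s) := by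
    rw [Finset.disjoint_left]
    intro y hy1 hy2
    have e1 := (mem_ball h _ _ _).1 hy1
    have e2 := (mem_ball h _ _ _).1 hy2
    have e3 := dst_triangle h (γ (-(s : ℤ) - 1)) y (γ ((r : ℤ) + 1))
    rw [dst_comm h y] at e3
    omega
  have hsub : ball S (γ (-(s : ℤ) - 1)) r ∪ ball S (γ ((r : ℤ) + 1)) s ⊆
      ball S (γ 0) (r + s + 1) := by
    intro y hy
    rw [mem_ball h]
    rcases Finset.mem_union.1 hy with hy | hy
    · have e1 := (mem_ball h _ _ _).1 hy
      have e3 := dst_triangle h (γ 0) (γ (-(s : ℤ) - 1)) y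
      rw [dst_comm h (γ 0) (γ (-(s : ℤ) - 1))] at e3
      omega
    · have e1 := (mem_ball h _ _ _).1 hy
      have e3 := dst_triangle h (γ 0) (γ ((r : ℤ) + 1)) y
      omega
  have h3 := Finset.card_le_card hsub
  rw [Finset.card_union_of_disjoint hdisj] at h3
  omega

/-- Fekete's lemma in the form needed -/
private theorem gr_fekete (g : ℕ → ℕ) (B : ℝ) (hB : ∀ r : ℕ, (g r : ℝ) ≤ B * (r + 1))
    (hs : ∀ r s : ℕ, g r + g s ≤ g (r + s + 1)) (h0 : 1 ≤ g 0) :
    ∃ c : ℝ, (∀ r : ℕ, (g r : ℝ) ≤ c * (r + 1)) ∧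
      (∀ η : ℝ, 0 < η → ∃ R : ℕ, ∀ r : ℕ, R ≤ r → (c - η) * (r + 1) ≤ g r) ∧ 1 ≤ c := by
  set A : Set ℝ := Set.range fun r : ℕ => (g r : ℝ) / (r + 1) with hA
  have hbdd : BddAbove A := by
    refine ⟨B, ?_⟩
    rintro x ⟨r, rfl⟩
    have hr : (0 : ℝ) < (r : ℝ) + 1 := by positivity
    show (g r : ℝ) / (r + 1) ≤ B
    rw [div_le_iff₀ hr]
    exact hB r
  have hne : A.Nonempty := ⟨_, 0, rfl⟩
  have hsup : ∀ r : ℕ, (g r : ℝ) ≤ sSup A * (r + 1) := by
    intro r
    have hr : (0 : ℝ) < (r : ℝ) + 1 := by positivity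
    rw [← div_le_iff₀ hr]
    exact le_csSup hbdd ⟨r, rfl⟩
  have hmul : ∀ (a q r : ℕ), (q + 1) * (a + 1) ≤ r + 1 → (q + 1) * g a ≤ g r := by
    intro a q
    induction q with
    | zero =>
      intro r hr
      have h1 : a ≤ r := by omega
      rcases h1.eq_or_lt with h2 | h2
      · rw [h2]; simp
      · obtain ⟨b, hb⟩ := Nat.exists_eq_add_of_lt h2
        have h3 := hs a b
        rw [hb]
        simp only [zero_add, one_mul]
        omega
    | succ q ih =>
      intro r hr
      have h1 : (q + 1 + 1) * (a + 1) = (q + 1) * (a + 1) + (a + 1) := by ring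
      rw [h1] at hr
      have h2 : a + 1 ≤ r := by
        have : 1 ≤ (q + 1) * (a + 1) := Nat.one_le_iff_ne_zero.2 (by positivity)
        omega
      obtain ⟨b, hb⟩ := Nat.exists_eq_add_of_le h2
      have h3 := ih b (by omega)
      have h4 := hs a b
      have h5 : a + b + 1 = r := by omega
      rw [h5] at h4
      have h6 : (q + 1 + 1) * g a = (q + 1) * g a + g a := by ring
      omega
  refine ⟨sSup A, hsup, fun η hη => ?_, ?_⟩
  · obtain ⟨x, ⟨a, rfl⟩, hx⟩ := exists_lt_of_lt_csSup hne (show sSup A - η / 2 < sSup A by linarith)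
    have ha : (0 : ℝ) < (a : ℝ) + 1 := by positivity
    replace hx : sSup A - η / 2 < (g a : ℝ) / (a + 1) := hx
    rw [lt_div_iff₀ ha] at hx
    obtain ⟨R, hR⟩ := exists_nat_ge (|sSup A - η / 2| * (a + 1) / (η / 2))
    refine ⟨max R a, fun r hr => ?_⟩
    have hr1 : R ≤ r := (le_max_left _ _).trans hr
    have hr2 : a ≤ r := (le_max_right _ _).trans hr
    by_cases hc : sSup A - η / 2 < 0
    · have h1 : (sSup A - η) * ((r : ℝ) + 1) ≤ 0 :=
        mul_nonpos_of_nonpos_of_nonneg (by linarith) (by positivity)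
      exact h1.trans (Nat.cast_nonneg _)
    · push Not at hc
      obtain ⟨q, hq⟩ : ∃ q : ℕ, (r + 1) / (a + 1) = q + 1 := by
        have : 1 ≤ (r + 1) / (a + 1) := by
          rw [Nat.le_div_iff_mul_le (by omega)]
          omega
        exact ⟨(r + 1) / (a + 1) - 1, by omega⟩
      have h1 : (q + 1) * (a + 1) ≤ r + 1 := by
        rw [← hq]
        exact Nat.div_mul_le_self _ _
      have h2 : r + 1 < (q + 1) * (a + 1) + (a + 1) := by
        have := Nat.lt_div_mul_add (a := r + 1) (b := a + 1) (by omega)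
        rw [hq] at this
        exact this
      have h3 := hmul a q r h1
      have h3' : ((q : ℝ) + 1) * g a ≤ g r := by exact_mod_cast h3
      have h2' : (r : ℝ) + 1 < ((q : ℝ) + 1) * (a + 1) + (a + 1) := by exact_mod_cast h2
      have h4 : (sSup A - η / 2) * ((q : ℝ) + 1) * (a + 1) ≤ ((q : ℝ) + 1) * g a := by
        have h5 : ((q : ℝ) + 1) * ((sSup A - η / 2) * (a + 1)) ≤ ((q : ℝ) + 1) * g a :=
          mul_le_mul_of_nonneg_left hx.le (by positivity)
        linarith
      have h6 : (sSup A - η / 2) * ((r : ℝ) + 1 - (a + 1)) ≤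
          (sSup A - η / 2) * (((q : ℝ) + 1) * (a + 1)) :=
        mul_le_mul_of_nonneg_left (by linarith) hc
      have h7 : (sSup A - η / 2) * ((a : ℝ) + 1) ≤ η / 2 * (r + 1) := by
        have h8 : |sSup A - η / 2| * (a + 1) / (η / 2) ≤ (r : ℝ) + 1 :=
          hR.trans (by
            have : (R : ℝ) ≤ r := by exact_mod_cast hr1
            linarith)
        rw [div_le_iff₀ (by linarith)] at h8
        rw [abs_of_nonneg hc] at h8
        linarith
      nlinarith
  · have h1 := hsup 0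
    have h2 : (1 : ℝ) ≤ g 0 := by exact_mod_cast h0
    push_cast at h1
    linarith

/-- Row GR -/
theorem rowGR : RowGR := by
  intro G _ S h C H hH
  obtain ⟨c, hsup, hlim, hone⟩ := gr_fekete (fun r => sInf (grSet S C r)) ((C : ℝ) + S.card + 1)
    (by
      intro r
      obtain ⟨H', hH', γ, hγ, hcard⟩ := Nat.sInf_mem (gr_nonempty h C H hH r)
      show ((sInf (grSet S C r) : ℕ) : ℝ) ≤ _
      rw [← hcard]
      have hr0 : (0 : ℝ) ≤ r := Nat.cast_nonneg _
      have hC0 : (0 : ℝ) ≤ C := Nat.cast_nonneg _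
      have hS0 : (0 : ℝ) ≤ S.card := Nat.cast_nonneg _
      rcases Nat.eq_zero_or_pos r with h0 | h0
      · subst h0
        have h1 : (ball S (γ 0) 0).card ≤ 1 := gr_zero h _
        have h1' : ((ball S (γ 0) 0).card : ℝ) ≤ 1 := by exact_mod_cast h1
        push_cast
        nlinarith
      · have h1 := hH'.gr (γ 0) r h0
        have h1' : ((ball S (γ 0) r).card : ℝ) ≤ C * r := by exact_mod_cast h1
        nlinarith [mul_nonneg hS0 hr0])
    (fun r s => gr_super h C H hH r s)
    (by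
      obtain ⟨H', hH', γ, hγ, hcard⟩ := Nat.sInf_mem (gr_nonempty h C H hH 0)
      show 1 ≤ sInf (grSet S C 0)
      rw [← hcard]
      exact gr_center h _ _)
  exact ⟨fun r => sInf (grSet S C r), c, {
    lo := fun H' hH' γ t r hγ => gr_lo C H' hH' γ t r hγ
    att := fun r => by
      obtain ⟨H', hH', γ, hγ, hcard⟩ := Nat.sInf_mem (gr_nonempty h C H hH r)
      exact ⟨H', hH', γ, hγ, hcard⟩
    sup := hsup
    lim := hlim
    one := hone }⟩

end

end Pool.Agent.LGT
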