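/-
Schreier graphs of linear growth: row HALF.
-/
import Pool.Agent.Lib.LGT.Bas

set_option autoImplicit false

namespace Pool.Agent.LGT

open scoped Pointwise
open Classical

noncomputable section

section

variable {G X : Type*} [Group G] [MulAction G X] [MulAction.IsPretransitive G X] {S : Finset G}

private theorem half_pred (h : Gen S) (x : X) (m : ℕ) : ∀ y : X, dst S x y = m + 1 →
    ∃ z : X, dst S x z = m ∧ dst S z y = 1 := by
  intro y hy
  have h1 : y ∈ ball S x (m + 1) := (mem_ball h x y _).2 hy.le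
  obtain ⟨g, hg, rfl⟩ := (mem_ball_iff' x y _).1 h1
  rw [pow_succ', Finset.mem_mul] at hg
  obtain ⟨s, hs, a, ha, rfl⟩ := hg
  have h2 : dst S x (a • x) ≤ m := (mem_ball h _ _ _).1 ((mem_ball_iff' _ _ _).2 ⟨a, ha, rfl⟩)
  have h3 : dst S (a • x) ((s * a) • x) ≤ 1 := by
    rw [mul_smul]
    refine (dst_smul_le h (a • x) s).trans (len_le ?_)
    rwa [pow_one]
  have h4 := dst_triangle h x (a • x) ((s * a) • x)
  exact ⟨a • x, by omega, by omega⟩

private theorem half_path (h : Gen S) (x : X) (m : ℕ) : ∀ y : X, dst S x y = m →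
    ∃ p : ℕ → X, p m = y ∧ (∀ i ≤ m, dst S x (p i) = i) ∧
      ∀ i < m, dst S (p i) (p (i + 1)) = 1 := by
  induction m with
  | zero =>
    intro y hy
    exact ⟨fun _ => y, rfl, fun i hi => by rw [hy]; omega, fun i hi => by omega⟩
  | succ m ih =>
    intro y hy
    obtain ⟨z, hz, hzy⟩ := half_pred h x m y hy
    obtain ⟨p, hp, hp1, hp2⟩ := ih z hz
    refine ⟨fun i => if i ≤ m then p i else y, by simp, fun i hi => ?_, fun i hi => ?_⟩
    · by_cases h1 : i ≤ m
      · simp only [h1, if_true]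
        exact hp1 i h1
      · simp only [h1, if_false]
        rw [hy]
        omega
    · by_cases h1 : i + 1 ≤ m
      · have h2 : i ≤ m := by omega
        simp only [h1, h2, if_true]
        exact hp2 i (by omega)
      · have h2 : i = m := by omega
        subst h2
        simp only [le_refl, if_true, h1, if_false, hp]
        exact hzy

private theorem half_steps (h : Gen S) (p : ℕ → X) (m : ℕ)
    (hp : ∀ i < m, dst S (p i) (p (i + 1)) = 1) (i k : ℕ) (hk : i + k ≤ m) :
    dst S (p i) (p (i + k)) ≤ k := by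
  induction k with
  | zero => rw [add_zero, dst_self h]
  | succ k ih =>
    have h1 := ih (by omega)
    have h2 := hp (i + k) (by omega)
    have h3 := dst_triangle h (p i) (p (i + k)) (p (i + (k + 1)))
    have h4 : dst S (p (i + k)) (p (i + (k + 1))) = 1 := h2
    omega

private theorem half_far (h : Gen S) [Infinite X] (x : X) (m : ℕ) : ∃ y : X, dst S x y = m := by
  have h1 : ∃ y : X, m ≤ dst S x y := by
    by_contra hcon
    push Not at hcon
    have h2 : (Set.univ : Set X) ⊆ (ball S x m : Finset X) := by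
      intro y _
      exact Finset.mem_coe.2 ((mem_ball h x y m).2 (hcon y).le)
    exact Set.infinite_univ ((Finset.finite_toSet _).subset h2)
  obtain ⟨y, hy⟩ := h1
  obtain ⟨p, hp, hp1, hp2⟩ := half_path h x _ y rfl
  exact ⟨p m, hp1 m hy⟩

/-- a geodesic of length `2 r` which starts at `x` -/
private theorem half_geo (h : Gen S) [Infinite X] (x : X) (r : ℕ) :
    ∃ γ : ℤ → X, Geo S (-r) r γ ∧ dst S x (γ 0) = r := by
  obtain ⟨y, hy⟩ := half_far h x (2 * r)
  obtain ⟨p, hp, hp1, hp2⟩ := half_path h x _ y hy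
  refine ⟨fun t => p (t + r).toNat, fun s t hs hst ht => ?_, ?_⟩
  · show (dst S (p (s + r).toNat) (p (t + r).toNat) : ℤ) = t - s
    have e1 : (((s + r).toNat : ℕ) : ℤ) = s + r := Int.toNat_of_nonneg (by omega)
    have e2 : (((t + r).toNat : ℕ) : ℤ) = t + r := Int.toNat_of_nonneg (by omega)
    generalize (s + (r : ℤ)).toNat = a at e1 ⊢
    generalize (t + (r : ℤ)).toNat = b at e2 ⊢
    have hab : a ≤ b := by omega
    have hb : b ≤ 2 * r := by omega
    obtain ⟨k, rfl⟩ := Nat.exists_eq_add_of_le hab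
    have h1 := half_steps h p (2 * r) hp2 a k hb
    have h2 := hp1 a (by omega)
    have h3 := hp1 (a + k) hb
    have h4 := dst_triangle h x (p a) (p (a + k))
    have h5 : dst S (p a) (p (a + k)) = k := by omega
    rw [h5]
    omega
  · show dst S x (p ((0 : ℤ) + r).toNat) = r
    have e1 : ((0 : ℤ) + r).toNat = r := by omega
    rw [e1]
    exact hp1 r (by omega)

end

/-- balls are mapped onto balls -/
private theorem half_image {G X Y : Type*} [Group G] [MulAction G X] [MulAction G Y] {S : Finset G}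
    (π : X → Y) (hπ : ∀ (g : G) (x : X), π (g • x) = g • π x) (x : X) (r : ℕ) :
    (ball S (π x) r).card ≤ (ball S x r).card := by
  have h1 : (ball S x r).image π = ball S (π x) r := by
    unfold ball
    rw [Finset.image_image]
    refine Finset.image_congr ?_
    intro g _
    exact hπ g x
  rw [← h1]
  exact Finset.card_image_le

/-- Row HALF -/
theorem rowHALF (hLN : RowLINE) (hSB : RowSUB) : RowHALF := by
  intro G _ S C g c hS hM H k γ β hP
  by_contra hfin
  have hinf : Infinite (G ⧸ (H ⊔ Subgroup.zpowers k)) := not_finite_iff_infinite.1 hfin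
  have hle : H ≤ H ⊔ Subgroup.zpowers k := le_sup_left
  have hk : k ∈ H ⊔ Subgroup.zpowers k :=
    (le_sup_right : Subgroup.zpowers k ≤ _) (Subgroup.mem_zpowers k)
  generalize H ⊔ Subgroup.zpowers k = K at hinf hle hk
  clear hfin
  -- the projection
  obtain ⟨π, hπ, hπb⟩ : ∃ π : G ⧸ H → G ⧸ K, (∀ (a : G) (x : G ⧸ H), π (a • x) = a • π x) ∧
      π (bp H) = bp K := by
    refine ⟨Subgroup.quotientMapOfLE hle, fun a x => ?_, rfl⟩
    induction x using QuotientGroup.induction_on with
    | H x => rfl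
  have hkK : k • bp K = bp K := by
    show ((k * 1 : G) : G ⧸ K) = ((1 : G) : G ⧸ K)
    rw [QuotientGroup.eq, mul_one, mul_one]
    exact K.inv_mem hk
  have hkH : k • bp H ≠ bp H := by
    intro h1
    have h2 : ((k * 1 : G) : G ⧸ H) = ((1 : G) : G ⧸ H) := h1
    rw [QuotientGroup.eq, mul_one, mul_one] at h2
    exact hP.ne (inv_inv k ▸ H.inv_mem h2)
  have hsurj : Function.Surjective π := by
    intro y
    obtain ⟨a, rfl⟩ := MulAction.exists_smul_eq G (bp K) y
    exact ⟨a • bp H, by rw [hπ, hπb]⟩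
  have hK : GrL S C K := by
    refine ⟨hinf, fun y r hr => ?_⟩
    obtain ⟨x, rfl⟩ := hsurj y
    exact (half_image π hπ x r).trans (hP.gr.gr x r hr)
  -- the constants
  obtain ⟨δ₁, hδ₁, R₁, hL⟩ := hLN G S C g c hS hM (1 / 24) (by norm_num)
  obtain ⟨δ₂, hδ₂, R₂, hSub⟩ := hSB G S C g c hS hM 3 (1 / 8) (by norm_num)
  obtain ⟨R₃, hg₃⟩ := hP.good δ₁ hδ₁
  obtain ⟨R₄, hg₄⟩ := hP.good δ₂ hδ₂
  obtain ⟨R₅, hd⟩ := hP.dist (1 / 32) (by norm_num)
  obtain ⟨R₆, hlim⟩ := hM.lim (1 / 8) (by norm_num)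
  obtain ⟨q, hq1, hq2, hq3, hq4, hq5, hq6⟩ : ∃ q : ℕ, R₁ ≤ q ∧ R₂ ≤ q ∧ R₃ ≤ q ∧ R₄ ≤ q ∧
      R₅ ≤ q ∧ R₆ ≤ q :=
    ⟨R₁ + R₂ + R₃ + R₄ + R₅ + R₆, by omega, by omega, by omega, by omega, by omega, by omega⟩
  -- a point far away in the quotient
  obtain ⟨α, hα, hα0⟩ := half_geo hS (bp K) (16 * q)
  obtain ⟨a, ha, hla⟩ := exists_word hS (bp K) (α 0)
  rw [hα0] at hla
  have hz1 : dst S (γ 0) (a • bp H) ≤ 16 * q := by
    rw [hP.zero]
    exact (dst_smul_le hS _ _).trans hla
  have hπz : π (a • bp H) = α 0 := by rw [hπ, hπb, ha]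
  have hgeo : Geo S ((0 : ℤ) - ((48 * q : ℕ) : ℤ)) (0 + ((48 * q : ℕ) : ℤ)) γ :=
    bas_geoL hP.geo _ _
  have hcard : ∀ ρ : ℕ, ((ball S (γ 0) ρ).card : ℝ) ≤ FF S γ β 0 ρ := fun ρ =>
    bas_card_le_FF (bas_geoL hP.geo _ _) hP.lip
  obtain ⟨s, hs1, hs2⟩ := (hL H γ 0 (48 * q) hP.gr hgeo (by omega)).1
    ((hcard _).trans (hg₃ _ (by omega))) (a • bp H) (by omega)
  have hs3 : dst S (γ s) (a • bp H) ≤ 2 * q := by
    have h1 : (dst S (γ s) (a • bp H) : ℝ) ≤ ((2 * q : ℕ) : ℝ) := by
      refine hs2.trans (le_of_eq ?_)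
      push_cast
      ring
    exact_mod_cast h1
  have hs4 : |s| ≤ 18 * q := by
    have h1 := bas_geo hS (bas_geoL hP.geo (-|s|) |s|) (s := 0) (t := s)
      (by have := abs_nonneg s; omega) (abs_nonneg s) (neg_abs_le s) (le_abs_self s)
    have h2 := dst_triangle hS (γ 0) (a • bp H) (γ s)
    rw [dst_comm hS (a • bp H) (γ s)] at h2
    rw [zero_sub, abs_neg] at h1
    omega
  have hb1 := (hSub H γ 0 s (20 * q) (48 * q) hP.gr hgeo (by omega) (by omega)
    (by rw [sub_zero]; push_cast; omega)).1 ((hcard _).trans (hg₄ _ (by omega)))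
  -- two points over each point
  have hb2 : ball S (a • bp H) (18 * q) ⊆ ball S (γ s) (20 * q) := bas_subset hS (by omega)
  have hb3 : 2 * (ball S (α 0) (16 * q)).card ≤ (ball S (a • bp H) (18 * q)).card := by
    refine le_trans (Finset.mul_card_image_le_card_of_maps_to
      (s := (ball S (a • bp H) (18 * q)).filter fun x => π x ∈ ball S (α 0) (16 * q))
      (t := ball S (α 0) (16 * q)) (f := π) (fun x hx => (Finset.mem_filter.1 hx).2) 2 ?_)
      (Finset.card_le_card (Finset.filter_subset _ _))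
    intro y hy
    obtain ⟨b, hb, hby⟩ := (mem_ball_iff' _ _ _).1 hy
    have hx1 : π ((b * a) • bp H) = y := by rw [mul_smul, hπ, hπz, hby]
    have hx2 : π ((b * a) • k • bp H) = y := by
      rw [hπ, hπ, hπb, hkK, ← hπb, ← hπ, hx1]
    have hne : (b * a) • bp H ≠ (b * a) • k • bp H := by
      intro h1
      exact hkH ((MulAction.injective (b * a) h1).symm)
    have hl : len S (b * a) ≤ 32 * q := by
      have h1 := len_mul_le hS b a
      have h2 := len_le hb
      omega
    have hd1 : dst S (bp H) ((b * a) • bp H) ≤ 32 * q := (dst_smul_le hS _ _).trans hl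
    have hd2 : dst S ((b * a) • bp H) ((b * a) • k • bp H) ≤ 2 * q := by
      have h1 := hd (b * a)
      have h2 : (dst S (bp H) ((b * a) • bp H) : ℝ) ≤ ((32 * q : ℕ) : ℝ) := by exact_mod_cast hd1
      have h3 : (R₅ : ℝ) ≤ q := by exact_mod_cast hq5
      have h4 : (dst S ((b * a) • bp H) ((b * a) • k • bp H) : ℝ) ≤ ((2 * q : ℕ) : ℝ) := by
        push_cast at h2 ⊢
        linarith
      exact_mod_cast h4
    have hd3 : dst S (a • bp H) ((b * a) • bp H) ≤ 16 * q := by
      rw [mul_smul]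
      exact (dst_smul_le hS _ _).trans (len_le hb)
    have hd4 := dst_triangle hS (a • bp H) ((b * a) • bp H) ((b * a) • k • bp H)
    have hsub : ({(b * a) • bp H, (b * a) • k • bp H} : Finset (G ⧸ H)) ⊆
        ((ball S (a • bp H) (18 * q)).filter fun x => π x ∈ ball S (α 0) (16 * q)).filter
          fun x => π x = y := by
      intro x hx
      rw [Finset.mem_insert, Finset.mem_singleton] at hx
      rw [Finset.mem_filter, Finset.mem_filter]
      rcases hx with rfl | rfl
      · exact ⟨⟨(mem_ball hS _ _ _).2 (by omega), by rw [hx1]; exact hy⟩, hx1⟩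
      · exact ⟨⟨(mem_ball hS _ _ _).2 (by omega), by rw [hx2]; exact hy⟩, hx2⟩
    rw [← Finset.card_pair hne]
    exact Finset.card_le_card hsub
  -- comparison
  have h1 : g (16 * q) ≤ (ball S (α 0) (16 * q)).card :=
    hM.lo K hK α 0 (16 * q) (fun s t hs hst ht => hα s t (by omega) hst (by omega))
  have h2 := hlim (16 * q) (by omega)
  have h3 := Finset.card_le_card hb2
  have h4 : (2 : ℝ) * g (16 * q) ≤ (ball S (γ s) (20 * q)).card := by
    have : 2 * g (16 * q) ≤ (ball S (γ s) (20 * q)).card := by omega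
    exact_mod_cast this
  have h5 := hM.one
  have hq0 : (0 : ℝ) ≤ q := Nat.cast_nonneg q
  push_cast at h2 hb1
  have h6 : (q : ℝ) ≤ c * q := by nlinarith
  nlinarith

end

end Pool.Agent.LGT
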