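/-
Schreier graphs of linear growth: row HALF (second typist, helper10).
-/
import Pool.Agent.Lib.LGT.Bas

set_option autoImplicit false

namespace Pool.Agent.LGT

open scoped Pointwise
open Classical

noncomputable section

section

variable {G X : Type*} [Group G] [MulAction G X] {S : Finset G} [MulAction.IsPretransitive G X]

private theorem half2_pred (h : Gen S) (x : X) (m : ℕ) : ∀ y : X, dst S x y = m + 1 →
    ∃ z : X, dst S x z = m ∧ dst S z y = 1 := by
  intro y hy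
  have h1 : y ∈ ball S x (m + 1) := (mem_ball h x y _).2 hy.le
  obtain ⟨g, hg, rfl⟩ := (mem_ball_iff' x y _).1 h1
  rw [pow_succ', Finset.mem_mul] at hg
  obtain ⟨s, hs, a, ha, rfl⟩ := hg
  have h2 : dst S x (a • x) ≤ m := (mem_ball h _ _ _).1 ((mem_ball_iff' _ _ _).2 ⟨a, ha, rfl⟩)
  have h3 : dst S (a • x) ((s * a) • x) ≤ 1 := by
    rw [mul_smul]
    refine (dst_smul_le h (a • x) s).trans (len_le ?_)
    rwa [pow_one]
  have h4 := dst_triangle h x (a • x) ((s * a) • x)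
  exact ⟨a • x, by omega, by omega⟩

private theorem half2_path (h : Gen S) (x : X) (m : ℕ) : ∀ y : X, dst S x y = m →
    ∃ p : ℕ → X, p m = y ∧ (∀ i ≤ m, dst S x (p i) = i) ∧
      ∀ i < m, dst S (p i) (p (i + 1)) = 1 := by
  induction m with
  | zero =>
    intro y hy
    exact ⟨fun _ => y, rfl, fun i hi => by rw [hy]; omega, fun i hi => by omega⟩
  | succ m ih =>
    intro y hy
    obtain ⟨z, hz, hzy⟩ := half2_pred h x m y hy
    obtain ⟨p, hp, hp1, hp2⟩ := ih z hz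
    refine ⟨fun i => if i ≤ m then p i else y, by simp, fun i hi => ?_, fun i hi => ?_⟩
    · by_cases h1 : i ≤ m
      · simp only [h1, if_true]
        exact hp1 i h1
      · simp only [h1, if_false]
        rw [hy]
        omega
    · by_cases h1 : i + 1 ≤ m
      · have h2 : i ≤ m := by omega
        simp only [h1, h2, if_true]
        exact hp2 i (by omega)
      · have h2 : i = m := by omega
        subst h2
        simp only [le_refl, if_true, h1, if_false, hp]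
        exact hzy

private theorem half2_steps (h : Gen S) (p : ℕ → X) (m : ℕ)
    (hp : ∀ i < m, dst S (p i) (p (i + 1)) = 1) (i k : ℕ) (hk : i + k ≤ m) :
    dst S (p i) (p (i + k)) ≤ k := by
  induction k with
  | zero => rw [add_zero, dst_self h]
  | succ k ih =>
    have h1 := ih (by omega)
    have h2 := hp (i + k) (by omega)
    have h3 := dst_triangle h (p i) (p (i + k)) (p (i + (k + 1)))
    have h4 : dst S (p (i + k)) (p (i + (k + 1))) = 1 := h2
    omega

private theorem half2_far (h : Gen S) [Infinite X] (x : X) (m : ℕ) : ∃ y : X, dst S x y = m := by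
  have h1 : ∃ y : X, m ≤ dst S x y := by
    by_contra hcon
    push Not at hcon
    have h2 : (Set.univ : Set X) ⊆ (ball S x m : Finset X) := by
      intro y _
      exact Finset.mem_coe.2 ((mem_ball h x y m).2 (hcon y).le)
    exact Set.infinite_univ ((Finset.finite_toSet _).subset h2)
  obtain ⟨y, hy⟩ := h1
  obtain ⟨p, hp, hp1, hp2⟩ := half2_path h x _ y rfl
  exact ⟨p m, hp1 m hy⟩

/-- the middle of a geodesic of length `2 r` which starts at `x` -/
private theorem half2_geo (h : Gen S) [Infinite X] (x : X) (r : ℕ) :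
    ∃ γ : ℤ → X, Geo S (-r) r γ ∧ dst S x (γ 0) = r := by
  obtain ⟨y, hy⟩ := half2_far h x (2 * r)
  obtain ⟨p, hp, hp1, hp2⟩ := half2_path h x _ y hy
  refine ⟨fun t => p (t + r).toNat, fun s t hs hst ht => ?_, ?_⟩
  · show (dst S (p (s + r).toNat) (p (t + r).toNat) : ℤ) = t - s
    have e1 : (((s + r).toNat : ℕ) : ℤ) = s + r := Int.toNat_of_nonneg (by omega)
    have e2 : (((t + r).toNat : ℕ) : ℤ) = t + r := Int.toNat_of_nonneg (by omega)
    generalize (s + (r : ℤ)).toNat = a at e1 ⊢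
    generalize (t + (r : ℤ)).toNat = b at e2 ⊢
    have hab : a ≤ b := by omega
    have hb : b ≤ 2 * r := by omega
    obtain ⟨k, rfl⟩ := Nat.exists_eq_add_of_le hab
    have h1 := half2_steps h p (2 * r) hp2 a k hb
    have h2 := hp1 a (by omega)
    have h3 := hp1 (a + k) hb
    have h4 := dst_triangle h x (p a) (p (a + k))
    have h5 : dst S (p a) (p (a + k)) = k := by omega
    rw [h5]
    omega
  · show dst S x (p (0 + (r : ℤ)).toNat) = r
    have e1 : (0 + (r : ℤ)).toNat = r := by rw [zero_add, Int.toNat_natCast]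
    rw [e1]
    exact hp1 r (by omega)

end

section

variable {G : Type} [Group G] {S : Finset G} {H K : Subgroup G}

/-- the projection to the quotient by a larger subgroup -/
private theorem half2_proj (hHK : H ≤ K) : ∃ π : G ⧸ H → G ⧸ K,
    (∀ a : G, π (a • bp H) = a • bp K) ∧ ∀ (a : G) (x : G ⧸ H), π (a • x) = a • π x := by
  refine ⟨Subgroup.quotientMapOfLE hHK, fun a => rfl, ?_⟩
  intro a x
  induction x using QuotientGroup.induction_on with
  | H z => rfl

private theorem half2_ball {π : G ⧸ H → G ⧸ K} (hπ : ∀ (a : G) (x : G ⧸ H), π (a • x) = a • π x)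
    (x : G ⧸ H) (r : ℕ) (y : G ⧸ K) : y ∈ ball S (π x) r ↔ ∃ z ∈ ball S x r, π z = y := by
  constructor
  · intro hy
    obtain ⟨g, hg, rfl⟩ := (mem_ball_iff' _ _ _).1 hy
    exact ⟨g • x, (mem_ball_iff' _ _ _).2 ⟨g, hg, rfl⟩, hπ g x⟩
  · rintro ⟨z, hz, rfl⟩
    obtain ⟨g, hg, rfl⟩ := (mem_ball_iff' _ _ _).1 hz
    exact (mem_ball_iff' _ _ _).2 ⟨g, hg, (hπ g x).symm⟩

private theorem half2_gr (hHK : H ≤ K) {C : ℕ} (hH : GrL S C H)
    (hK : Infinite (G ⧸ K)) : GrL S C K := by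
  obtain ⟨π, hπ1, hπ2⟩ := half2_proj hHK
  refine ⟨hK, fun y r hr => ?_⟩
  obtain ⟨a, rfl⟩ : ∃ a : G, a • bp K = y := MulAction.exists_smul_eq G (bp K) y
  rw [← hπ1 a]
  refine le_trans (Finset.card_le_card_of_surjOn π ?_) (hH.gr (a • bp H) r hr)
  intro y hy
  obtain ⟨z, hz, hzy⟩ := (half2_ball hπ2 _ _ _).1 (Finset.mem_coe.1 hy)
  exact ⟨z, Finset.mem_coe.2 hz, hzy⟩

/-- two points in each class -/
private theorem half2_two (h : Gen S) {π : G ⧸ H → G ⧸ K}
    (hπ1 : ∀ a : G, π (a • bp H) = a • bp K) (k : G) (hkK : k ∈ K) (hk : k ∉ H)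
    (a : G) (ρ m : ℕ)
    (hm : ∀ v : G, dst S (a • bp H) (v • bp H) ≤ ρ →
      ρ + dst S (v • bp H) (v • k • bp H) ≤ m) :
    2 * (ball S (a • bp K) ρ).card ≤ (ball S (a • bp H) m).card := by
  have hm0 : ρ ≤ m := by
    have h1 := hm a (by rw [dst_self h]; exact Nat.zero_le _)
    omega
  have h1 : ∀ y ∈ ball S (a • bp K) ρ, 2 ≤ ((ball S (a • bp H) m).filter fun x => π x = y).card := by
    intro y hy
    obtain ⟨w, hw, rfl⟩ := (mem_ball_iff' _ _ _).1 hy
    have e1 : dst S (a • bp H) ((w * a) • bp H) ≤ ρ := by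
      rw [mul_smul]
      exact (dst_smul_le h _ w).trans (len_le hw)
    have e2 := hm (w * a) e1
    have e3 := dst_triangle h (a • bp H) ((w * a) • bp H) ((w * a) • k • bp H)
    have e4 : ((w * a) • bp H : G ⧸ H) ≠ (w * a) • k • bp H := by
      intro e5
      have e6 : (bp H : G ⧸ H) = k • bp H := smul_left_cancel _ e5
      apply hk
      have e7 : ((1 : G) : G ⧸ H) = ((k * 1 : G) : G ⧸ H) := e6
      rw [QuotientGroup.eq, inv_one, one_mul, mul_one] at e7
      exact e7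
    have e8 : π ((w * a) • k • bp H) = w • a • bp K := by
      rw [← mul_smul, ← mul_smul, hπ1, mul_smul]
      have e9 : (k • bp K : G ⧸ K) = bp K := by
        show ((k * 1 : G) : G ⧸ K) = ((1 : G) : G ⧸ K)
        rw [QuotientGroup.eq, mul_one, mul_one]
        exact K.inv_mem hkK
      rw [e9, mul_smul]
    have e10 : π ((w * a) • bp H) = w • a • bp K := by rw [hπ1, mul_smul]
    have e11 : ({(w * a) • bp H, (w * a) • k • bp H} : Finset (G ⧸ H)) ⊆
        (ball S (a • bp H) m).filter fun x => π x = w • a • bp K := by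
      intro x hx
      rw [Finset.mem_insert, Finset.mem_singleton] at hx
      rw [Finset.mem_filter, mem_ball h]
      rcases hx with rfl | rfl
      · exact ⟨by omega, e10⟩
      · exact ⟨by omega, e8⟩
    have e12 := Finset.card_le_card e11
    rwa [Finset.card_pair e4] at e12
  have h2 := Finset.sum_le_sum h1
  rw [Finset.sum_const, smul_eq_mul, mul_comm] at h2
  refine h2.trans ?_
  rw [← Finset.card_biUnion]
  · apply Finset.card_le_card
    rw [Finset.biUnion_subset]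
    intro y _
    exact Finset.filter_subset _ _
  · intro y _ y' _ hyy
    rw [Function.onFun, Finset.disjoint_left]
    intro x hx hx'
    exact hyy ((Finset.mem_filter.1 hx).2.symm.trans (Finset.mem_filter.1 hx').2)

end

theorem rowHALF' (hLINE : RowLINE) (hSUB : RowSUB) : RowHALF := by
  intro G _ S C g c hS hM H k γ β hP
  obtain ⟨K, hK⟩ : ∃ K, K = H ⊔ Subgroup.zpowers k := ⟨_, rfl⟩
  rw [← hK]
  have hHK : H ≤ K := by rw [hK]; exact le_sup_left
  have hkK : k ∈ K := by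
    rw [hK]
    exact (le_sup_right : Subgroup.zpowers k ≤ _) (Subgroup.mem_zpowers k)
  by_contra hfin
  have hinf : Infinite (G ⧸ K) := not_finite_iff_infinite.1 hfin
  have hGK := half2_gr hHK hP.gr hinf
  obtain ⟨π, hπ1, hπ2⟩ := half2_proj hHK
  have hc : 1 ≤ c := hM.one
  obtain ⟨δ₁, hδ₁, R₁, h1⟩ := hLINE G S C g c hS hM (1 / 24) (by norm_num)
  obtain ⟨δ₂, hδ₂, R₂, h2⟩ := hSUB G S C g c hS hM 3 (c / 8) (by linarith)
  obtain ⟨R₃, h3⟩ := hP.good (min δ₁ δ₂) (lt_min hδ₁ hδ₂)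
  obtain ⟨R₄, h4⟩ := hM.lim (c / 8) (by linarith)
  obtain ⟨R₅, h5⟩ := hP.dist (1 / 16) (by norm_num)
  -- the radius
  obtain ⟨ρ, hρ⟩ : ∃ ρ : ℕ, ρ = R₁ + R₂ + R₃ + R₄ + 24 * R₅ + 24 := ⟨_, rfl⟩
  obtain ⟨γ', hγ', hγ0⟩ := half2_geo hS (bp K) ρ
  obtain ⟨a, ha, hla⟩ := exists_word hS (bp K) (γ' 0)
  have hlo := hM.lo K hGK γ' 0 ρ (by simpa using hγ')
  rw [← ha] at hlo
  have hda : dst S (bp H) (a • bp H) ≤ ρ := (dst_smul_le hS _ a).trans (by omega)
  -- the window of radius 3 ρ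
  have hgood := h3 (3 * ρ) (by omega)
  have hgeo : Geo S (0 - ((3 * ρ : ℕ) : ℤ)) (0 + ((3 * ρ : ℕ) : ℤ)) γ := bas_geoL hP.geo _ _
  have hcard : ((ball S (γ 0) (3 * ρ)).card : ℝ) ≤ (c + min δ₁ δ₂) * ((3 * ρ : ℕ) : ℝ) := by
    refine le_trans ?_ hgood
    exact bas_card_le_FF hgeo hP.lip
  have hρ0 : (0 : ℝ) ≤ ((3 * ρ : ℕ) : ℝ) := Nat.cast_nonneg _
  have hcard1 : ((ball S (γ 0) (3 * ρ)).card : ℝ) ≤ (c + δ₁) * ((3 * ρ : ℕ) : ℝ) :=
    hcard.trans (mul_le_mul_of_nonneg_right (by linarith [min_le_left δ₁ δ₂]) hρ0)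
  have hcard2 : ((ball S (γ 0) (3 * ρ)).card : ℝ) ≤ (c + δ₂) * ((3 * ρ : ℕ) : ℝ) :=
    hcard.trans (mul_le_mul_of_nonneg_right (by linarith [min_le_right δ₁ δ₂]) hρ0)
  have hz := hP.zero
  obtain ⟨s, hs1, hs2⟩ := (h1 H γ 0 (3 * ρ) hP.gr hgeo (by omega)).1 hcard1 (a • bp H)
    (by rw [hz]; omega)
  have hs3 : 8 * dst S (γ s) (a • bp H) ≤ ρ := by
    have e1 : ((3 * ρ : ℕ) : ℝ) = 3 * ρ := by push_cast; ring
    rw [e1] at hs2
    have e2 : (8 * dst S (γ s) (a • bp H) : ℝ) ≤ ρ := by linarith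
    exact_mod_cast e2
  have hs4 : (dst S (γ 0) (γ s) : ℤ) = |s| := by
    rw [bas_geo hS hgeo (by omega) (by omega) (by have := abs_le.1 hs1; omega)
      (by have := abs_le.1 hs1; omega), zero_sub, abs_neg]
  have hs5 : (|s| : ℤ) ≤ ρ + dst S (γ s) (a • bp H) := by
    have e1 := dst_triangle hS (γ 0) (a • bp H) (γ s)
    rw [dst_comm hS (a • bp H) (γ s), hz] at e1
    rw [hz] at hs4
    omega
  -- the two points
  obtain ⟨m, hm⟩ : ∃ m : ℕ, m = ρ + (2 * ρ) / 16 + R₅ := ⟨_, rfl⟩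
  have htwo := half2_two hS hπ1 k hkK hP.ne a ρ m (by
    intro v hv
    have e1 := h5 v
    have e2 := dst_triangle hS (bp H) (a • bp H) (v • bp H)
    have e3 : dst S (bp H) (v • bp H) ≤ 2 * ρ := by omega
    have e4 : (dst S (bp H) (v • bp H) : ℝ) ≤ 2 * ρ := by exact_mod_cast e3
    have e5 : (16 * dst S (v • bp H) (v • k • bp H) : ℝ) ≤ 2 * ρ + 16 * R₅ := by linarith
    have e6 : 16 * dst S (v • bp H) (v • k • bp H) ≤ 2 * ρ + 16 * R₅ := by exact_mod_cast e5
    omega)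
  obtain ⟨m', hm'⟩ : ∃ m' : ℕ, m' = m + ρ / 8 := ⟨_, rfl⟩
  have hsub : ball S (a • bp H) m ⊆ ball S (γ s) m' := bas_subset hS (by omega)
  have hcc := Finset.card_le_card hsub
  have hfinal := (h2 H γ 0 s m' (3 * ρ) hP.gr hgeo (by omega) (by omega) (by
    rw [sub_zero]
    push_cast
    omega)).1 hcard2
  have hg := h4 ρ (by omega)
  have k1 : (2 : ℝ) * (ball S (a • bp K) ρ).card ≤ (ball S (γ s) m').card := by
    exact_mod_cast htwo.trans hcc
  have k2 : (g ρ : ℝ) ≤ (ball S (a • bp K) ρ).card := by exact_mod_cast hlo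
  have k3 : (m' : ℝ) ≤ 5 / 4 * ρ + R₅ := by
    have e1 : 4 * m' ≤ 5 * ρ + 4 * R₅ := by omega
    have e2 : (4 * m' : ℝ) ≤ 5 * ρ + 4 * R₅ := by exact_mod_cast e1
    linarith
  have k4 : (24 * R₅ + 24 : ℝ) ≤ ρ := by
    have e1 : 24 * R₅ + 24 ≤ ρ := by omega
    exact_mod_cast e1
  have k5 : (c + c / 8) * (m' : ℝ) ≤ (c + c / 8) * (5 / 4 * ρ + R₅) :=
    mul_le_mul_of_nonneg_left k3 (by linarith)
  have k6 : (2 : ℝ) * ((c - c / 8) * (ρ + 1)) ≤ (c + c / 8) * (5 / 4 * ρ + R₅) := by linarith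
  have k7 : c * (7 / 4 * (ρ + 1)) ≤ c * (9 / 8 * (5 / 4 * ρ + R₅)) := by
    calc c * (7 / 4 * ((ρ : ℝ) + 1)) = 2 * ((c - c / 8) * (ρ + 1)) := by ring
      _ ≤ _ := k6
      _ = _ := by ring
  have k8 := le_of_mul_le_mul_left k7 (by linarith)
  have k9 : (0 : ℝ) ≤ R₅ := Nat.cast_nonneg _
  linarith

end

end Pool.Agent.LGT
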