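/-
Row INA: the distance to the support of an element (helper32).
-/
import Pool.Agent.Lib.LGT.Rows
import Pool.Agent.Lib.SCH.Cyc

set_option autoImplicit false

namespace Pool.Agent.LGT

open scoped Pointwise
open Classical

noncomputable section

theorem ina_per_iff {G X : Type*} [Group G] [MulAction G X] (g : G) (x : X) (k : ℕ) :
    Function.IsPeriodicPt (fun y => g • y) k x ↔ g ^ k • x = x := by
  rw [Function.IsPeriodicPt, Function.IsFixedPt, smul_iterate]

/-- The maximal cycle trick for an action. -/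
theorem ina_cyc {G X : Type*} [Group G] [MulAction G X] (w f : G) (x : X) (L : ℕ)
    (hL : per w x = L) (hL0 : 0 < L) (hf : ∀ i, 0 < i → i < L → f • w ^ i • x = w ^ i • x)
    (hfx : f • x ≠ x) : per (w * f) (w • x) = 0 ∨ L < per (w * f) (w • x) := by
  have hg : ∀ i : ℕ, ((MulAction.toPerm w : Equiv.Perm X) ^ i) x = w ^ i • x := by
    intro i
    rw [← Equiv.Perm.iterate_eq_pow]
    show (fun y => w • y)^[i] x = _
    rw [smul_iterate]
  have h1 := SCH.cyc (MulAction.toPerm w : Equiv.Perm X) (MulAction.toPerm f) x L hL hL0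
    (fun i h0 hi => by
      rw [hg, MulAction.toPerm_apply]
      exact hf i h0 hi) (by
      rw [MulAction.toPerm_apply]
      exact hfx)
  have h2 : ((MulAction.toPerm w : Equiv.Perm X) * MulAction.toPerm f : Equiv.Perm X) =
      MulAction.toPerm (w * f) := by
    ext y
    rw [Equiv.Perm.mul_apply, MulAction.toPerm_apply, MulAction.toPerm_apply,
      MulAction.toPerm_apply, mul_smul]
  rw [h2] at h1
  exact h1

/-- Row INA. -/
theorem rowINA : RowINA := by
  intro G _ S n L hS hn hexp hL H hper f ⟨x₀, hx₀⟩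
  have hne : ∀ x : G ⧸ H, ∃ m : ℕ, ∃ y, f • y ≠ y ∧ dst S x y = m := fun x => ⟨_, x₀, hx₀, rfl⟩
  obtain ⟨b, hb⟩ : ∃ b : G ⧸ H → ℕ, b = fun x => Nat.find (hne x) := ⟨_, rfl⟩
  have hb1 : ∀ x, ∃ y, f • y ≠ y ∧ dst S x y = b x := fun x => by
    rw [hb]
    exact Nat.find_spec (hne x)
  have hb2 : ∀ x y, f • y ≠ y → b x ≤ dst S x y := fun x y hy => by
    rw [hb]
    exact Nat.find_min' (hne x) ⟨y, hy, rfl⟩
  have hb3 : ∀ x y, b x ≤ dst S x y + b y := fun x y => by
    obtain ⟨z, hz, hz'⟩ := hb1 y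
    rw [← hz']
    exact (hb2 x z hz).trans (dst_triangle hS x y z)
  refine ⟨fun x => (b x : ℤ), fun x y => ?_, fun x => ?_, fun x y hy => ?_, fun w q hq v => ?_⟩
  · have h1 := hb3 x y
    have h2 := hb3 y x
    rw [dst_comm hS y x] at h2
    rw [abs_le]
    constructor <;> push_cast <;> omega
  · obtain ⟨y, hy, hy'⟩ := hb1 x
    exact ⟨y, hy, by rw [hy']⟩
  · exact Int.ofNat_le.2 (hb2 x y hy)
  · have hLne : Nonempty (Fin L) := ⟨⟨0, by omega⟩⟩
    obtain ⟨j₁, hj₁⟩ := Finite.exists_min fun j : Fin L => b (v • w ^ (j : ℕ) • q)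
    by_cases hex : ∃ j₂ : Fin L, j₂ ≠ j₁ ∧ b (v • w ^ (j₂ : ℕ) • q) = b (v • w ^ (j₁ : ℕ) • q)
    · obtain ⟨j₂, h1, h2⟩ := hex
      exact ⟨j₁, j₂, h1.symm, fun j => Int.ofNat_le.2 (hj₁ j), congrArg Nat.cast h2⟩
    · exfalso
      push Not at hex
      have hlt : ∀ j : Fin L, j ≠ j₁ → b (v • w ^ (j₁ : ℕ) • q) < b (v • w ^ (j : ℕ) • q) :=
        fun j hj => lt_of_le_of_ne (hj₁ j) (hex j hj).symm
      obtain ⟨y, hy, hy'⟩ := hb1 (v • w ^ (j₁ : ℕ) • q)
      obtain ⟨a, ha, hla⟩ := exists_word hS (v • w ^ (j₁ : ℕ) • q) y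
      have hwL : w ^ L • q = q := by
        rw [← ina_per_iff, ← hq]
        exact Function.isPeriodicPt_minimalPeriod _ _
      have hconj : ∀ i : ℕ, (v * w * v⁻¹) ^ i = v * w ^ i * v⁻¹ := fun i => conj_pow
      have hpt : ∀ i : ℕ, (v * w * v⁻¹) ^ i • v • w ^ (j₁ : ℕ) • q = v • w ^ (i + j₁) • q := by
        intro i
        rw [hconj, mul_smul, mul_smul, inv_smul_smul, ← mul_smul (w ^ i), ← pow_add]
      have hperx : per (v * w * v⁻¹) (v • w ^ (j₁ : ℕ) • q) = L := by
        refine Eq.trans ?_ hq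
        refine Function.minimalPeriod_eq_minimalPeriod_iff.2 fun k => ?_
        rw [ina_per_iff, ina_per_iff, hpt, smul_left_cancel_iff, add_comm, pow_add, mul_smul,
          smul_left_cancel_iff]
      have hfix : ∀ i, 0 < i → i < L → (a⁻¹ * f * a) • (v * w * v⁻¹) ^ i • v • w ^ (j₁ : ℕ) • q =
          (v * w * v⁻¹) ^ i • v • w ^ (j₁ : ℕ) • q := by
        intro i hi hiL
        obtain ⟨j, hj, hjq⟩ : ∃ j : Fin L, j ≠ j₁ ∧
            (v * w * v⁻¹) ^ i • v • w ^ (j₁ : ℕ) • q = v • w ^ (j : ℕ) • q := by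
          rw [hpt]
          by_cases hc : i + j₁ < L
          · refine ⟨⟨i + j₁, hc⟩, fun h => ?_, rfl⟩
            have h3 := congrArg Fin.val h
            simp only at h3
            omega
          · have h4 := j₁.2
            refine ⟨⟨i + j₁ - L, by omega⟩, fun h => ?_, ?_⟩
            · have h3 := congrArg Fin.val h
              simp only at h3
              omega
            · have h5 : i + j₁ = (i + j₁ - L) + L := by omega
              show _ = v • w ^ (i + j₁ - L) • q
              conv_lhs => rw [h5, pow_add, mul_smul, hwL]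
        rw [hjq, mul_smul, mul_smul, inv_smul_eq_iff]
        by_contra hne'
        have h6 := hb2 (v • w ^ (j : ℕ) • q) _ hne'
        have h7 := dst_smul_le hS (v • w ^ (j : ℕ) • q) a
        have h8 := hlt j hj
        omega
      have hmove : (a⁻¹ * f * a) • v • w ^ (j₁ : ℕ) • q ≠ v • w ^ (j₁ : ℕ) • q := by
        rw [mul_smul, mul_smul, ha]
        intro h
        rw [inv_smul_eq_iff, ha] at h
        exact hy h
      rcases ina_cyc (v * w * v⁻¹) (a⁻¹ * f * a) _ L hperx (by omega) hfix hmove with h | h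
      · have h9 : 0 < per (v * w * v⁻¹ * (a⁻¹ * f * a))
            ((v * w * v⁻¹) • v • w ^ (j₁ : ℕ) • q) :=
          Function.IsPeriodicPt.minimalPeriod_pos hn (by rw [ina_per_iff, hexp, one_smul])
        omega
      · exact absurd (hper _ _) (not_le.2 h)

end

end Pool.Agent.LGT
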