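/-
Row INB (third version): the first state.
-/
import Pool.Agent.Lib.LGT.Rows

set_option autoImplicit false

namespace Pool.Agent.LGT

open scoped Pointwise
open Classical

noncomputable section

private theorem inb3_geo {G X : Type} [Group G] [MulAction G X] {S : Finset G} (h : Gen S)
    [MulAction.IsPretransitive G X] {γ : ℤ → X} (hγ : GeoL S γ) (a b : ℤ) :
    (dst S (γ a) (γ b) : ℤ) = |a - b| := by
  rcases le_total a b with hab | hab
  · rw [hγ a b hab, abs_of_nonpos (by omega)]; ring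
  · rw [dst_comm h, hγ b a hab, abs_of_nonneg (by omega)]

private theorem inb3_geoLGeo {G X : Type} [Group G] [MulAction G X] {S : Finset G}
    {γ : ℤ → X} (hγ : GeoL S γ) (a b : ℤ) : Geo S a b γ :=
  fun s t _ h2 _ => hγ s t h2

private theorem inb3_card_le_FF {G X : Type} [Group G] [MulAction G X] {S : Finset G} (h : Gen S)
    [MulAction.IsPretransitive G X] {γ : ℤ → X} (hγ : GeoL S γ) {β : X → ℤ} (hβ : Lip S β) (t : ℤ)
    (ρ : ℕ) : ((ball S (γ t) ρ).card : ℝ) ≤ FF S γ β t ρ := by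
  have h1 := hβ (γ (t + ρ)) (γ (t - ρ))
  have h2 := inb3_geo h hγ (t + ρ) (t - ρ)
  have h3 : |(t + (ρ : ℤ)) - (t - ρ)| = 2 * ρ := by
    rw [abs_of_nonneg (by omega)]; ring
  have h4 : β (γ (t + ρ)) - β (γ (t - ρ)) ≤ 2 * ρ := by
    have := le_abs_self (β (γ (t + ρ)) - β (γ (t - ρ)))
    omega
  have h5 : ((β (γ (t + ρ)) : ℝ) - β (γ (t - ρ))) ≤ 2 * ρ := by exact_mod_cast h4
  unfold FF
  linarith

/-- the reversed line -/
private theorem inb3_neg {G : Type} [Group G] {S : Finset G} {n C L : ℕ} {g : ℕ → ℕ} {c : ℝ}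
    {H : Subgroup G} {γ : ℤ → G ⧸ H} (h : Ctx S n C L g c H γ) :
    Ctx S n C L g c H (fun a => γ (-a)) where
  gen := h.gen
  pos := h.pos
  exp := h.exp
  min := h.min
  nsys := by
    refine ⟨h.nsys.gr, ?_, ?_⟩
    · intro s t hst
      have h1 := h.nsys.geo (-t) (-s) (by omega)
      show (dst S (γ (-s)) (γ (-t)) : ℤ) = t - s
      rw [dst_comm h.gen, h1]
      ring
    · intro ε hε
      obtain ⟨R, hR⟩ := h.nsys.good ε hε
      refine ⟨R, fun ρ hρ => ?_⟩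
      have := hR ρ hρ
      simpa using this
  two := h.two
  le := h.le
  ex := fun t r hr hg => h.ex (fun i => -(t i)) r hr hg

/-- the main part, for the negative half of the line -/
private theorem inb3_core (hMOVE : RowMOVE) (hSUB : RowSUB) {G : Type} [Group G] {S : Finset G}
    {n C L : ℕ} {g : ℕ → ℕ} {c : ℝ} {H : Subgroup G} {γ : ℤ → G ⧸ H} (h : Ctx S n C L g c H γ)
    (β : ℕ → G ⧸ H → ℤ) (hlip : ∀ i, Lip S (β i)) (x : ℕ → G ⧸ H) (D : ℕ → ℕ)
    (hD : ∀ i, D i = dst S (γ 0) (x i)) (hβ0 : ∀ i, β i (γ 0) = D i)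
    (hub : ∀ i z, β i z ≤ dst S z (x i))
    (htwo : ∀ (i : ℕ) (w : G) (q : G ⧸ H), per w q = L → ∀ v : G, ∃ j₁ j₂ : Fin L, j₁ ≠ j₂ ∧
      (∀ j : Fin L, β i (v • w ^ (j₁ : ℕ) • q) ≤ β i (v • w ^ (j : ℕ) • q)) ∧
      β i (v • w ^ (j₂ : ℕ) • q) = β i (v • w ^ (j₁ : ℕ) • q))
    (hInf : Inf D) (a : ℕ → ℤ)
    (ha : ∀ ε : ℝ, 0 < ε → ∀ᶠ i in (𝒰 : Filter ℕ), (dst S (γ (a i)) (x i) : ℝ) ≤ ε * D i)
    (hneg : ∀ᶠ i in (𝒰 : Filter ℕ), a i ≤ 0) :
    ∃ (β : ℕ → G ⧸ H → ℤ) (p : ℕ → Fin L → G ⧸ H) (j₀ : Fin L) (v : ℕ → G)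
      (t : ℕ → ℤ) (r : ℕ → ℕ), Tup (G := G) S β p ∧
        State S c γ β p Finset.univ j₀ v t r := by
  have hgen := h.gen
  have hgeo := h.nsys.geo
  set σ : ℕ → ℕ := fun i => D i / 4 with hσ
  set τ : ℕ → ℤ := fun i => -((D i / 2 : ℕ) : ℤ) with hτ
  have hσi : ∀ i, σ i = D i / 4 := fun i => rfl
  have hτi : ∀ i, τ i = -((D i / 2 : ℕ) : ℤ) := fun i => rfl
  have hσInf : Inf σ := by
    intro N
    filter_upwards [hInf (4 * N + 4)] with i h1
    rw [hσi]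
    omega
  have hwin : ∀ ε : ℝ, 0 < ε → ∀ᶠ i in (𝒰 : Filter ℕ),
      FF S γ (β i) (τ i) (σ i) ≤ (c + ε) * σ i := by
    intro ε hε
    obtain ⟨δ, hδ, R, hR⟩ := hSUB G S C g c hgen h.min 5 (ε / 2) (by positivity)
    obtain ⟨R', hR'⟩ := h.nsys.good δ hδ
    filter_upwards [hσInf R, hInf R', hInf 16, ha (ε / 20) (by positivity), hneg] with i h1 h2 h3
      h4 h5
    have hcard : ((ball S (γ (τ i)) (σ i)).card : ℝ) ≤ (c + ε / 2) * σ i := by
      refine (hR H γ 0 (τ i) (σ i) (D i) h.nsys.gr (inb3_geoLGeo hgeo _ _) h1 ?_ ?_).1 (hR' _ h2)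
      · rw [hσi]; omega
      · rw [hτi, hσi, abs_of_nonpos (by omega)]
        omega
    -- the slope
    have hlow : (D i : ℤ) + (τ i + σ i) ≤ β i (γ (τ i + σ i)) := by
      have h6 := abs_le.1 (hlip i (γ (τ i + σ i)) (γ 0))
      have h7 := inb3_geo hgen hgeo (τ i + σ i) 0
      have h8 : |τ i + σ i - 0| = -(τ i + σ i) := by
        rw [sub_zero, abs_of_nonpos]
        rw [hτi, hσi]
        omega
      rw [hβ0] at h6
      omega
    have hup : β i (γ (τ i - σ i)) ≤ (D i : ℤ) + (τ i - σ i) + 2 * dst S (γ (a i)) (x i) := by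
      have h6 := hub i (γ (τ i - σ i))
      have h7 := dst_triangle hgen (γ (τ i - σ i)) (γ (a i)) (x i)
      have h8 := inb3_geo hgen hgeo (τ i - σ i) (a i)
      have h9 := inb3_geo hgen hgeo (a i) 0
      rw [sub_zero, abs_of_nonpos h5] at h9
      have h10 := dst_triangle hgen (γ (a i)) (x i) (γ 0)
      have h11 := dst_comm hgen (x i) (γ 0)
      have h12 := dst_triangle hgen (γ 0) (γ (a i)) (x i)
      have h13 := dst_comm hgen (γ 0) (γ (a i))
      have h14 := hD i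
      have h15 := hτi i
      have h16 := hσi i
      have h17 : |τ i - σ i - a i| ≤ (D i : ℤ) + (τ i - σ i) + dst S (γ (a i)) (x i) := by
        rw [abs_le]
        constructor <;> omega
      omega
    have h6 : (D i : ℝ) ≤ 5 * σ i := by
      have : D i ≤ 5 * σ i := by rw [hσi]; omega
      exact_mod_cast this
    have h7 : (2 : ℝ) * dst S (γ (a i)) (x i) ≤ ε / 2 * σ i := by
      have h8 : ε / 20 * (D i : ℝ) ≤ ε / 20 * (5 * σ i) :=
        mul_le_mul_of_nonneg_left h6 (by positivity)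
      nlinarith
    have h8 : (2 * (σ i : ℝ) - ((β i (γ (τ i + σ i)) : ℝ) - β i (γ (τ i - σ i)))) ≤
        2 * dst S (γ (a i)) (x i) := by
      have : (2 * (σ i : ℤ) - (β i (γ (τ i + σ i)) - β i (γ (τ i - σ i)))) ≤
        2 * dst S (γ (a i)) (x i) := by omega
      exact_mod_cast this
    unfold FF
    linarith
  obtain ⟨t, ht, hgood⟩ := hMOVE G S C g c hgen h.min H γ β τ σ h.nsys.gr hgeo hlip hσInf hwin
  have hrInf : Inf (fun i => σ i / 2) := by
    intro N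
    filter_upwards [hσInf (2 * N)] with i h1
    omega
  have hgoodB : GoodB S c γ t (fun i => σ i / 2) := by
    intro ε hε
    obtain ⟨R, hR⟩ := hgood ε hε
    refine ⟨R, ?_⟩
    filter_upwards [hR] with i h1 ρ h2 h3
    exact (inb3_card_le_FF hgen hgeo (hlip i) (t i) ρ).trans (h1 ρ h2 h3)
  obtain ⟨u, w, huw⟩ := h.ex t _ hrInf hgoodB
  have hL : 0 < L := by have := h.two; omega
  refine ⟨β, fun i j => w ^ (j : ℕ) • u • γ (t i), ⟨0, hL⟩, fun _ => u⁻¹, t, fun i => σ i / 2,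
    ⟨hlip, ?_, ?_⟩, ⟨Finset.mem_univ _, ?_, hrInf, hgood, ?_, ?_⟩⟩
  · filter_upwards [huw] with i h1 j j' hjj
    have h2 := Function.iterate_injOn_Iio_minimalPeriod (f := fun y : G ⧸ H => w • y)
      (x := u • γ (t i))
    have h3 : Function.minimalPeriod (fun y : G ⧸ H => w • y) (u • γ (t i)) = L := h1
    rw [h3] at h2
    have h4 : ∀ k : ℕ, (fun y : G ⧸ H => w • y)^[k] (u • γ (t i)) = w ^ k • u • γ (t i) := by
      intro k
      rw [smul_iterate]
    have h5 := h2 (Set.mem_Iio.2 j.2) (Set.mem_Iio.2 j'.2) (by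
      show (fun y : G ⧸ H => w • y)^[(j : ℕ)] (u • γ (t i)) =
        (fun y : G ⧸ H => w • y)^[(j' : ℕ)] (u • γ (t i))
      rw [h4, h4]
      exact hjj)
    exact Fin.ext h5
  · filter_upwards [huw] with i h1 v
    exact htwo i w (u • γ (t i)) h1 v
  · refine Filter.Eventually.of_forall fun i => ?_
    show u⁻¹ • w ^ 0 • u • γ (t i) = γ (t i)
    rw [pow_zero, one_smul, inv_smul_smul]
  · intro j _ δ hδ
    filter_upwards [hrInf ⌈(len S (u⁻¹ * w ^ (j : ℕ) * u) : ℝ) / δ⌉₊] with i h1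
    have h2 := dst_smul_le hgen (γ (t i)) (u⁻¹ * w ^ (j : ℕ) * u)
    rw [mul_smul, mul_smul] at h2
    have h3 : (len S (u⁻¹ * w ^ (j : ℕ) * u) : ℝ) / δ ≤ ((σ i / 2 : ℕ) : ℝ) :=
      (Nat.le_ceil _).trans (by exact_mod_cast h1)
    rw [div_le_iff₀ hδ] at h3
    have h4 : (dst S (γ (t i)) (u⁻¹ • w ^ (j : ℕ) • u • γ (t i)) : ℝ) ≤
        len S (u⁻¹ * w ^ (j : ℕ) * u) := by exact_mod_cast h2
    linarith
  · intro j hj
    exact absurd (Finset.mem_univ j) hj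

theorem rowINB'' (hINA : RowINA) (hLINE : RowLINE) (hSUB : RowSUB) (hMOVE : RowMOVE) : RowINB := by
  intro G _ S n C L g c H γ h hfix
  have hgen := h.gen
  have hgeo := h.nsys.geo
  choose f hf1 hf2 using hfix
  have hI : ∀ i : ℕ, ∃ β : G ⧸ H → ℤ, Lip S β ∧
      (∀ x, ∃ y, f i • y ≠ y ∧ (dst S x y : ℤ) = β x) ∧
      (∀ x y, f i • y ≠ y → β x ≤ dst S x y) ∧
      ∀ (w : G) (q : G ⧸ H), per w q = L → ∀ v : G, ∃ j₁ j₂ : Fin L, j₁ ≠ j₂ ∧
        (∀ j : Fin L, β (v • w ^ (j₁ : ℕ) • q) ≤ β (v • w ^ (j : ℕ) • q)) ∧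
        β (v • w ^ (j₂ : ℕ) • q) = β (v • w ^ (j₁ : ℕ) • q) := fun i =>
    hINA G S n L hgen h.pos h.exp h.two H h.le (f i) (hf2 i)
  choose β hlip hβ1 hβ2 htwo using hI
  have hx : ∀ i, ∃ y, f i • y ≠ y ∧ (dst S (γ 0) y : ℤ) = β i (γ 0) := fun i => hβ1 i (γ 0)
  choose x hx1 hx2 using hx
  have hDi : ∀ i, i < dst S (γ 0) (x i) := by
    intro i
    by_contra hcon
    exact hx1 i (hf1 i _ ((mem_ball hgen _ _ _).2 (not_lt.1 hcon)))
  set D : ℕ → ℕ := fun i => dst S (γ 0) (x i) with hD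
  have hDe : ∀ i, D i = dst S (γ 0) (x i) := fun i => rfl
  have hInf : Inf D := by
    intro N
    have h1 : ∀ᶠ i in (𝒰 : Filter ℕ), N ≤ i := by
      apply Filter.Eventually.filter_mono Nat.hyperfilter_le_atTop
      exact Filter.eventually_ge_atTop N
    filter_upwards [h1] with i h2
    exact h2.trans (hDi i).le
  have hclose : ∀ i, ∃ a : ℤ, ∀ b : ℤ, |b| ≤ 2 * D i →
      dst S (γ a) (x i) ≤ dst S (γ b) (x i) := by
    intro i
    obtain ⟨a, -, h2⟩ := Finset.exists_min_image (Finset.Icc (-(2 * D i : ℤ)) (2 * D i))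
      (fun a => dst S (γ a) (x i)) ⟨0, by rw [Finset.mem_Icc]; omega⟩
    refine ⟨a, fun b hb => h2 b ?_⟩
    rw [Finset.mem_Icc]
    have := abs_le.1 hb
    omega
  choose a ha using hclose
  have haD : ∀ ε : ℝ, 0 < ε → ∀ᶠ i in (𝒰 : Filter ℕ),
      (dst S (γ (a i)) (x i) : ℝ) ≤ ε * D i := by
    intro ε hε
    obtain ⟨δ, hδ, R, hR⟩ := hLINE G S C g c hgen h.min (ε / 2) (by positivity)
    obtain ⟨R', hR'⟩ := h.nsys.good δ hδ
    filter_upwards [hInf R, hInf R'] with i h1 h2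
    obtain ⟨b, h3, h4⟩ := (hR H γ 0 (2 * D i) h.nsys.gr (inb3_geoLGeo hgeo _ _) (by omega)).1
      (hR' (2 * D i) (by omega)) (x i) (by rw [hDe])
    rw [sub_zero] at h3
    have h5 := ha i b (by push_cast at h3; exact h3)
    have h6 : (dst S (γ (a i)) (x i) : ℝ) ≤ dst S (γ b) (x i) := by exact_mod_cast h5
    push_cast at h4
    linarith
  have hub : ∀ i z, β i z ≤ dst S z (x i) := fun i z => hβ2 i z (x i) (hx1 i)
  have hβ0 : ∀ i, β i (γ 0) = D i := fun i => (hx2 i).symm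
  have hcases : (∀ᶠ i in (𝒰 : Filter ℕ), a i ≤ 0) ∨ ∀ᶠ i in (𝒰 : Filter ℕ), 0 ≤ a i := by
    rw [← Ultrafilter.eventually_or]
    exact Filter.Eventually.of_forall fun i => le_total _ _
  rcases hcases with hneg | hpos
  · obtain ⟨β', p, j₀, v, t, r, h1, h2⟩ := inb3_core hMOVE hSUB h β hlip x D hDe hβ0 hub
      (fun i => htwo i) hInf a haD hneg
    exact ⟨γ, β', p, j₀, v, t, r, hgeo, h1, h2⟩
  · have h' := inb3_neg h
    obtain ⟨β', p, j₀, v, t, r, h1, h2⟩ := inb3_core hMOVE hSUB h' β hlip x D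
      (fun i => by simpa using hDe i) (fun i => by simpa using hβ0 i) hub
      (fun i => htwo i) hInf (fun i => -(a i)) (fun ε hε => by simpa using haD ε hε)
      (by filter_upwards [hpos] with i h3; omega)
    exact ⟨_, β', p, j₀, v, t, r, h'.nsys.geo, h1, h2⟩

end

end Pool.Agent.LGT
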