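/-
Row LIM: limits of pointed Schreier graphs along the ultrafilter (helper32).
-/
import Pool.Agent.Lib.LGT.Bas

set_option autoImplicit false

namespace Pool.Agent.LGT

open scoped Pointwise
open Classical

noncomputable section

theorem lim_card_aux {α β γ : Type*} [DecidableEq β] [DecidableEq γ] (T : Finset α) (f : α → β)
    (g : α → γ) (h : ∀ a ∈ T, ∀ b ∈ T, g a = g b → f a = f b) :
    (T.image f).card ≤ (T.image g).card := by
  rcases T.eq_empty_or_nonempty with h0 | ⟨a₀, -⟩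
  · rw [h0, Finset.image_empty, Finset.image_empty]
    simp
  have hne : Nonempty α := ⟨a₀⟩
  have h1 : ∀ b ∈ T.image f, ∃ a ∈ T, f a = b := fun b hb => Finset.mem_image.1 hb
  choose! φ hφ hφ' using h1
  refine Finset.card_le_card_of_injOn (fun b => g (φ b)) (fun b hb => ?_) fun b hb c hc hbc => ?_
  · exact Finset.mem_image_of_mem g (hφ b hb)
  · rw [← hφ' b hb, ← hφ' c hc]
    exact h _ (hφ b hb) _ (hφ c hc) hbc

theorem lim_card_image {α β γ : Type*} [DecidableEq β] [DecidableEq γ] (T : Finset α) (f : α → β)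
    (g : α → γ) (h : ∀ a ∈ T, ∀ b ∈ T, (f a = f b ↔ g a = g b)) :
    (T.image f).card = (T.image g).card :=
  le_antisymm (lim_card_aux T f g fun a ha b hb => (h a ha b hb).2)
    (lim_card_aux T g f fun a ha b hb => (h a ha b hb).1)

theorem lim_card_ball {G X Y : Type*} [Group G] [MulAction G X] [MulAction G Y] (S : Finset G)
    (x : X) (y : Y) (r : ℕ)
    (h : ∀ a ∈ S ^ r, ∀ b ∈ S ^ r, (a • x = b • x ↔ a • y = b • y)) :
    (ball S x r).card = (ball S y r).card := by
  unfold ball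
  exact lim_card_image _ _ _ h

theorem lim_pigeon {α : Type*} (T : Finset α) (P : α → ℕ → Prop)
    (h : ∀ᶠ i in (𝒰 : Filter ℕ), ∃ a ∈ T, P a i) :
    ∃ a ∈ T, ∀ᶠ i in (𝒰 : Filter ℕ), P a i := by
  by_contra hne'
  have hne : ∀ a ∈ T, ¬ ∀ᶠ i in (𝒰 : Filter ℕ), P a i := fun a ha h2 => hne' ⟨a, ha, h2⟩
  have h1 : ∀ a ∈ T, ∀ᶠ i in (𝒰 : Filter ℕ), ¬ P a i := fun a ha =>
    Ultrafilter.eventually_not.2 fun h2 => hne a ha h2
  rw [← Filter.eventually_all_finset] at h1
  obtain ⟨i, ⟨a, ha, hP⟩, hi⟩ := (h.and h1).exists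
  exact hi a ha hP

section

variable {G : Type} [Group G]

theorem lim_bp (K : Subgroup G) (u : G) : u • bp K = (u : G ⧸ K) := by
  show ((u * 1 : G) : G ⧸ K) = _
  rw [mul_one]

theorem lim_surj (K : Subgroup G) (y : G ⧸ K) : ∃ u : G, u • bp K = y := by
  obtain ⟨u, rfl⟩ := QuotientGroup.mk_surjective y
  exact ⟨u, lim_bp K u⟩

/-- The limit of the stabilisers. -/
def limK (H : ℕ → Subgroup G) (x : ∀ i, G ⧸ H i) : Subgroup G where
  carrier := {a | ∀ᶠ i in (𝒰 : Filter ℕ), a • x i = x i}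
  one_mem' := Filter.Eventually.of_forall fun i => one_smul _ _
  mul_mem' := by
    intro a b ha hb
    filter_upwards [ha, hb] with i h1 h2
    rw [mul_smul, h2, h1]
  inv_mem' := by
    intro a ha
    filter_upwards [ha] with i h1
    rw [inv_smul_eq_iff, h1]

variable (H : ℕ → Subgroup G) (x : ∀ i, G ⧸ H i)

theorem lim_eq (u v : G) : u • bp (limK H x) = v • bp (limK H x) ↔
    ∀ᶠ i in (𝒰 : Filter ℕ), u • x i = v • x i := by
  rw [lim_bp, lim_bp, QuotientGroup.eq]
  show (∀ᶠ i in (𝒰 : Filter ℕ), (u⁻¹ * v) • x i = x i) ↔ _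
  refine Filter.eventually_congr (Filter.Eventually.of_forall fun i => ?_)
  rw [mul_smul, inv_smul_eq_iff]
  exact eq_comm

theorem lim_iff (u v : G) : ∀ᶠ i in (𝒰 : Filter ℕ),
    (u • bp (limK H x) = v • bp (limK H x) ↔ u • x i = v • x i) := by
  by_cases h : u • bp (limK H x) = v • bp (limK H x)
  · filter_upwards [(lim_eq H x u v).1 h] with i hi
    exact ⟨fun _ => hi, fun _ => h⟩
  · have h1 : ¬ ∀ᶠ i in (𝒰 : Filter ℕ), u • x i = v • x i := fun h2 => h ((lim_eq H x u v).2 h2)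
    filter_upwards [Ultrafilter.eventually_not.2 h1] with i hi
    exact ⟨fun h2 => absurd h2 h, fun h2 => absurd h2 hi⟩

theorem lim_iff_ball (S : Finset G) (u v : G) (r : ℕ) : ∀ᶠ i in (𝒰 : Filter ℕ),
    (v • bp (limK H x) ∈ ball S (u • bp (limK H x)) r ↔ v • x i ∈ ball S (u • x i) r) := by
  have h1 : ∀ᶠ i in (𝒰 : Filter ℕ), ∀ a ∈ S ^ r,
      ((a * u) • bp (limK H x) = v • bp (limK H x) ↔ (a * u) • x i = v • x i) :=
    (Filter.eventually_all_finset (S ^ r)).2 fun a _ => lim_iff H x (a * u) v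
  filter_upwards [h1] with i hi
  rw [mem_ball_iff', mem_ball_iff']
  constructor
  · rintro ⟨a, ha, h2⟩
    rw [← mul_smul] at h2
    exact ⟨a, ha, by rw [← mul_smul]; exact (hi a ha).1 h2⟩
  · rintro ⟨a, ha, h2⟩
    rw [← mul_smul] at h2
    exact ⟨a, ha, by rw [← mul_smul]; exact (hi a ha).2 h2⟩

theorem lim_card (S : Finset G) (u : G) (r : ℕ) : ∀ᶠ i in (𝒰 : Filter ℕ),
    (ball S (u • bp (limK H x)) r).card = (ball S (u • x i) r).card := by
  have h1 : ∀ᶠ i in (𝒰 : Filter ℕ), ∀ a ∈ S ^ r, ∀ b ∈ S ^ r,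
      ((a * u) • bp (limK H x) = (b * u) • bp (limK H x) ↔ (a * u) • x i = (b * u) • x i) :=
    (Filter.eventually_all_finset (S ^ r)).2 fun a _ =>
      (Filter.eventually_all_finset (S ^ r)).2 fun b _ => lim_iff H x (a * u) (b * u)
  filter_upwards [h1] with i hi
  refine lim_card_ball S _ _ r fun a ha b hb => ?_
  rw [← mul_smul, ← mul_smul, ← mul_smul, ← mul_smul]
  exact hi a ha b hb

theorem lim_dist (S : Finset G) (hS : Gen S) (u v : G) : ∀ᶠ i in (𝒰 : Filter ℕ),
    dst S (u • bp (limK H x)) (v • bp (limK H x)) = dst S (u • x i) (v • x i) := by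
  obtain ⟨m, hm⟩ : ∃ m, m = dst S (u • bp (limK H x)) (v • bp (limK H x)) := ⟨_, rfl⟩
  filter_upwards [lim_iff_ball H x S u v m, lim_iff_ball H x S u v (m - 1)] with i h1 h2
  rw [mem_ball hS, mem_ball hS] at h1 h2
  have h3 := h1.1 hm.ge
  rw [← hm] at h2 ⊢
  by_cases h0 : m = 0
  · omega
  · have h4 : ¬ dst S (u • x i) (v • x i) ≤ m - 1 := fun h5 => by
      have h6 := h2.2 h5
      omega
    omega

theorem lim_pt (S : Finset G) (hS : Gen S) (y : ∀ i, G ⧸ H i) (M : ℕ)
    (h : ∀ᶠ i in (𝒰 : Filter ℕ), dst S (x i) (y i) ≤ M) :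
    ∃ u : G, ∀ᶠ i in (𝒰 : Filter ℕ), u • x i = y i := by
  obtain ⟨u, -, hu⟩ := lim_pigeon (S ^ M) (fun a i => a • x i = y i) (by
    filter_upwards [h] with i hi
    exact (mem_ball_iff' _ _ _).1 ((mem_ball hS _ _ _).2 hi))
  exact ⟨u, hu⟩

end

/-- Row LIM. -/
theorem rowLIM : RowLIM := by
  intro G _ S hS H x
  refine ⟨limK H x, lim_eq H x, lim_card H x S, lim_dist H x S hS, ?_, lim_pt H x S hS, ?_, ?_, ?_⟩
  · intro C hC
    refine ⟨?_, fun y r hr => ?_⟩
    · by_contra hfin
      rw [not_infinite_iff_finite] at hfin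
      have hft : Fintype (G ⧸ limK H x) := Fintype.ofFinite _
      obtain ⟨i, h1, h2⟩ := ((lim_card H x S 1 (Fintype.card (G ⧸ limK H x))).and hC).exists
      have h3 := h2.inf
      have h4 := bas_card hS ((1 : G) • x i) (Fintype.card (G ⧸ limK H x))
      rw [← h1] at h4
      have h5 := Finset.card_le_univ (ball S ((1 : G) • bp (limK H x))
        (Fintype.card (G ⧸ limK H x)))
      omega
    · obtain ⟨u, rfl⟩ := lim_surj _ y
      obtain ⟨i, h1, h2⟩ := ((lim_card H x S u r).and hC).exists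
      rw [h1]
      exact h2.gr _ r hr
  · intro n hn hexp w u
    have h1 : ∀ᶠ i in (𝒰 : Filter ℕ), ∀ k ∈ Finset.range n,
        ((w ^ k * u) • bp (limK H x) = u • bp (limK H x) ↔ (w ^ k * u) • x i = u • x i) :=
      (Filter.eventually_all_finset (Finset.range n)).2 fun k _ => lim_iff H x (w ^ k * u) u
    filter_upwards [h1] with i hi
    refine Function.minimalPeriod_eq_minimalPeriod_iff.2 fun k => ?_
    have h2 := hi (k % n) (Finset.mem_range.2 (Nat.mod_lt k hn))
    have h3 : w ^ k = w ^ (k % n) := by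
      conv_lhs => rw [← Nat.div_add_mod k n, pow_add, pow_mul, hexp w, one_pow, one_mul]
    rw [Function.IsPeriodicPt, Function.IsFixedPt, smul_iterate, Function.IsPeriodicPt,
      Function.IsFixedPt, smul_iterate, h3]
    show w ^ (k % n) • _ = _ ↔ w ^ (k % n) • _ = _
    rw [← mul_smul, ← mul_smul]
    exact h2
  · intro β hβ
    have hc : ∀ u : G, ∃ c : ℤ, ∀ᶠ i in (𝒰 : Filter ℕ), β i (u • x i) - β i (x i) = c := by
      intro u
      obtain ⟨c, -, hc⟩ := lim_pigeon (Finset.Icc (-(len S u : ℤ)) (len S u))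
        (fun c i => β i (u • x i) - β i (x i) = c) (Filter.Eventually.of_forall fun i => by
          refine ⟨_, ?_, rfl⟩
          have h1 := hβ i (u • x i) (x i)
          have h2 := dst_smul_le hS (x i) u
          rw [dst_comm hS] at h2
          rw [abs_le] at h1
          rw [Finset.mem_Icc]
          constructor <;> omega)
      exact ⟨c, hc⟩
    choose c hc using hc
    have hsurj := lim_surj (limK H x)
    choose ρ hρ using hsurj
    have hβ' : ∀ u : G, ∀ᶠ i in (𝒰 : Filter ℕ),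
        c (ρ (u • bp (limK H x))) = β i (u • x i) - β i (x i) := by
      intro u
      filter_upwards [hc (ρ (u • bp (limK H x))),
        (lim_eq H x (ρ (u • bp (limK H x))) u).1 (hρ _)] with i h1 h2
      rw [← h1, h2]
    refine ⟨fun y => c (ρ y), fun y z => ?_, hβ'⟩
    obtain ⟨u, rfl⟩ := lim_surj _ y
    obtain ⟨v, rfl⟩ := lim_surj _ z
    obtain ⟨i, h1, h2, h3⟩ := ((hβ' u).and ((hβ' v).and (lim_dist H x S hS u v))).exists
    have h4 := hβ i (u • x i) (v • x i)
    rw [h3]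
    refine le_trans (le_of_eq ?_) h4
    congr 1
    show c (ρ (u • bp (limK H x))) - c (ρ (v • bp (limK H x))) = _
    rw [h1, h2]
    ring
  · intro γ t r hr h1 h2
    have hdist : ∀ s s' : ℤ, s ≤ s' → ∀ᶠ i in (𝒰 : Filter ℕ),
        (dst S (γ i (t i + s)) (γ i (t i + s')) : ℤ) = s' - s := by
      intro s s' hss
      filter_upwards [h2, hr (s.natAbs + s'.natAbs)] with i h3 h4
      rw [h3 (t i + s) (t i + s') (by omega) (by omega) (by omega)]
      ring
    have hu : ∀ s : ℤ, ∃ u : G, ∀ᶠ i in (𝒰 : Filter ℕ), u • x i = γ i (t i + s) := by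
      intro s
      refine lim_pt H x S hS (fun i => γ i (t i + s)) s.natAbs ?_
      rcases le_total 0 s with hs | hs
      · filter_upwards [h1, hdist 0 s hs] with i h3 h4
        rw [add_zero, h3] at h4
        omega
      · filter_upwards [h1, hdist s 0 hs] with i h3 h4
        rw [add_zero, h3, dst_comm hS] at h4
        omega
    choose u hu using hu
    refine ⟨fun s => u s • bp (limK H x), fun s s' hss => ?_, ?_, fun s v hv => ?_⟩
    · obtain ⟨i, h3, h4, h5, h6⟩ := ((hu s).and ((hu s').and ((hdist s s' hss).and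
        (lim_dist H x S hS (u s) (u s'))))).exists
      rw [h6, h3, h4, h5]
    · show u 0 • bp (limK H x) = _
      have h3 : u 0 • bp (limK H x) = (1 : G) • bp (limK H x) := by
        rw [lim_eq]
        filter_upwards [h1, hu 0] with i h4 h5
        rw [h5, add_zero, h4, one_smul]
      rw [h3, one_smul]
    · filter_upwards [(lim_eq H x v (u s)).1 hv, hu s] with i h3 h4
      rw [h3, h4]

end

end Pool.Agent.LGT
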