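/-
Schreier graphs of linear growth: row LIM, the limit of stabilisers.
-/
import Pool.Agent.Lib.LGT.Bas

set_option autoImplicit false

namespace Pool.Agent.LGT

open scoped Pointwise
open Classical

noncomputable section

/-- an ultrafilter decides a finite choice -/
private theorem lim_ex {T : Type*} (s : Finset T) (P : T → ℕ → Prop) :
    (∀ᶠ i in (𝒰 : Filter ℕ), ∃ a ∈ s, P a i) ↔ ∃ a ∈ s, ∀ᶠ i in (𝒰 : Filter ℕ), P a i := by
  have h := Ultrafilter.eventually_exists_mem_iff (f := 𝒰) (P := P) (s.finite_toSet)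
  simpa using h

private theorem lim_not (P : ℕ → Prop) :
    (∀ᶠ i in (𝒰 : Filter ℕ), ¬ P i) ↔ ¬ ∀ᶠ i in (𝒰 : Filter ℕ), P i :=
  Ultrafilter.eventually_not

/-- an ultrafilter decides an equivalence -/
private theorem lim_iff (A : Prop) (P : ℕ → Prop) (h : A ↔ ∀ᶠ i in (𝒰 : Filter ℕ), P i) :
    ∀ᶠ i in (𝒰 : Filter ℕ), (A ↔ P i) := by
  by_cases hA : A
  · filter_upwards [h.1 hA] with i hi
    exact ⟨fun _ => hi, fun _ => hA⟩
  · have h1 : ¬ ∀ᶠ i in (𝒰 : Filter ℕ), P i := fun h2 => hA (h.2 h2)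
    filter_upwards [(lim_not P).2 h1] with i hi
    exact ⟨fun h2 => absurd h2 hA, fun h2 => absurd h2 hi⟩

private theorem lim_card_le {A B T : Type*} (s : Finset T) (f : T → A) (g : T → B)
    (h : ∀ a ∈ s, ∀ b ∈ s, g a = g b → f a = f b) : (s.image f).card ≤ (s.image g).card := by
  rcases s.eq_empty_or_nonempty with rfl | ⟨a₀, ha₀⟩
  · simp
  · have h1 : s.image f = (s.image g).image
        (fun y => if hy : ∃ a ∈ s, g a = y then f hy.choose else f a₀) := by
      rw [Finset.image_image]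
      apply Finset.image_congr
      intro a ha
      have hy : ∃ a' ∈ s, g a' = g a := ⟨a, ha, rfl⟩
      show f a = if hy : ∃ a' ∈ s, g a' = g a then f hy.choose else f a₀
      rw [dif_pos hy]
      exact h a ha _ hy.choose_spec.1 hy.choose_spec.2.symm
    rw [h1]
    exact Finset.card_image_le

private theorem lim_card {A B T : Type*} (s : Finset T)
    (f : T → A) (g : T → B) (h : ∀ a ∈ s, ∀ b ∈ s, f a = f b ↔ g a = g b) :
    (s.image f).card = (s.image g).card :=
  le_antisymm (lim_card_le s f g fun a ha b hb => (h a ha b hb).2)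
    (lim_card_le s g f fun a ha b hb => (h a ha b hb).1)

section

variable {G : Type} [Group G] {S : Finset G}

/-- the limit of the stabilisers -/
private def limK (H : ℕ → Subgroup G) (x : ∀ i, G ⧸ H i) : Subgroup G where
  carrier := {a | ∀ᶠ i in (𝒰 : Filter ℕ), a • x i = x i}
  mul_mem' := by
    intro a b ha hb
    filter_upwards [ha, hb] with i h1 h2
    rw [mul_smul, h2, h1]
  one_mem' := Filter.Eventually.of_forall fun i => one_smul _ _
  inv_mem' := by
    intro a ha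
    filter_upwards [ha] with i h1
    rw [inv_smul_eq_iff, h1]

private theorem lim_bp (K : Subgroup G) (u : G) : u • bp K = (u : G ⧸ K) := by
  show u • ((1 : G) : G ⧸ K) = _
  rw [MulAction.Quotient.smul_coe, smul_eq_mul, mul_one]

private theorem lim_rep (K : Subgroup G) (y : G ⧸ K) : ∃ u : G, u • bp K = y := by
  obtain ⟨u, rfl⟩ := QuotientGroup.mk_surjective y
  exact ⟨u, lim_bp K u⟩

variable (H : ℕ → Subgroup G) (x : ∀ i, G ⧸ H i)

private theorem lim_eq (u v : G) : u • bp (limK H x) = v • bp (limK H x) ↔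
    ∀ᶠ i in (𝒰 : Filter ℕ), u • x i = v • x i := by
  rw [lim_bp, lim_bp, QuotientGroup.eq]
  show (∀ᶠ i in (𝒰 : Filter ℕ), (u⁻¹ * v) • x i = x i) ↔ _
  constructor
  · intro h
    filter_upwards [h] with i hi
    rw [mul_smul, inv_smul_eq_iff] at hi
    exact hi.symm
  · intro h
    filter_upwards [h] with i hi
    rw [mul_smul, inv_smul_eq_iff]
    exact hi.symm

private theorem lim_eq' (u v : G) : ∀ᶠ i in (𝒰 : Filter ℕ),
    (u • bp (limK H x) = v • bp (limK H x) ↔ u • x i = v • x i) :=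
  lim_iff _ _ (lim_eq H x u v)

private theorem lim_all {T : Type*} (s : Finset T) (P : T → ℕ → Prop)
    (h : ∀ a ∈ s, ∀ᶠ i in (𝒰 : Filter ℕ), P a i) : ∀ᶠ i in (𝒰 : Filter ℕ), ∀ a ∈ s, P a i := by
  have := (Filter.eventually_all_finset (l := (𝒰 : Filter ℕ)) s (p := fun a i => P a i)).2 h
  exact this

private theorem lim_ballcard (u : G) (r : ℕ) : ∀ᶠ i in (𝒰 : Filter ℕ),
    (ball S (u • bp (limK H x)) r).card = (ball S (u • x i) r).card := by
  have h1 : ∀ᶠ i in (𝒰 : Filter ℕ), ∀ a ∈ (S ^ r) ×ˢ (S ^ r),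
      ((a.1 * u) • bp (limK H x) = (a.2 * u) • bp (limK H x) ↔
        (a.1 * u) • x i = (a.2 * u) • x i) :=
    lim_all _ _ fun a _ => lim_eq' H x _ _
  filter_upwards [h1] with i hi
  refine lim_card (S ^ r) (fun g => g • u • bp (limK H x)) (fun g => g • u • x i) ?_
  intro a ha b hb
  have := hi (a, b) (Finset.mk_mem_product ha hb)
  simpa only [mul_smul] using this

private theorem lim_mem (u v : G) (m : ℕ) : ∀ᶠ i in (𝒰 : Filter ℕ),
    (v • bp (limK H x) ∈ ball S (u • bp (limK H x)) m ↔ v • x i ∈ ball S (u • x i) m) := by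
  apply lim_iff
  have h1 : (v • bp (limK H x) ∈ ball S (u • bp (limK H x)) m) ↔
      ∃ a ∈ S ^ m, ∀ᶠ i in (𝒰 : Filter ℕ), (a * u) • x i = v • x i := by
    rw [mem_ball_iff']
    constructor
    · rintro ⟨a, ha, h⟩
      exact ⟨a, ha, (lim_eq H x _ _).1 (by rw [mul_smul]; exact h)⟩
    · rintro ⟨a, ha, h⟩
      refine ⟨a, ha, ?_⟩
      have := (lim_eq H x _ _).2 h
      rwa [mul_smul] at this
  rw [h1, ← lim_ex]
  constructor
  · intro h
    filter_upwards [h] with i hi
    obtain ⟨a, ha, h2⟩ := hi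
    exact (mem_ball_iff' _ _ _).2 ⟨a, ha, by rwa [mul_smul] at h2⟩
  · intro h
    filter_upwards [h] with i hi
    obtain ⟨a, ha, h2⟩ := (mem_ball_iff' _ _ _).1 hi
    exact ⟨a, ha, by rw [mul_smul]; exact h2⟩

private theorem lim_dist (h : Gen S) (u v : G) : ∀ᶠ i in (𝒰 : Filter ℕ),
    dst S (u • bp (limK H x)) (v • bp (limK H x)) = dst S (u • x i) (v • x i) := by
  obtain ⟨D, hD⟩ : ∃ D, D = dst S (u • bp (limK H x)) (v • bp (limK H x)) := ⟨_, rfl⟩
  rw [← hD]
  filter_upwards [lim_mem (S := S) H x u v D, lim_mem (S := S) H x u v (D - 1)] with i h1 h2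
  rw [mem_ball h, mem_ball h] at h1 h2
  rw [← hD] at h1 h2
  have h3 := h1.1 le_rfl
  rcases Nat.eq_zero_or_pos D with h0 | h0
  · omega
  · by_contra hne
    have h4 : dst S (u • x i) (v • x i) ≤ D - 1 := by omega
    have := h2.2 h4
    omega

private theorem lim_pt (h : Gen S) (y : ∀ i, G ⧸ H i) (M : ℕ)
    (hy : ∀ᶠ i in (𝒰 : Filter ℕ), dst S (x i) (y i) ≤ M) :
    ∃ u : G, ∀ᶠ i in (𝒰 : Filter ℕ), u • x i = y i := by
  have h1 : ∀ᶠ i in (𝒰 : Filter ℕ), ∃ a ∈ S ^ M, a • x i = y i := by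
    filter_upwards [hy] with i hi
    exact (mem_ball_iff' _ _ _).1 ((mem_ball h _ _ _).2 hi)
  obtain ⟨a, _, ha⟩ := (lim_ex (S ^ M) fun a i => a • x i = y i).1 h1
  exact ⟨a, ha⟩

private theorem lim_gr (h : Gen S) (C : ℕ) (hC : ∀ᶠ i in (𝒰 : Filter ℕ), GrL S C (H i)) :
    GrL S C (limK H x) := by
  constructor
  · by_contra hfin
    rw [not_infinite_iff_finite] at hfin
    obtain ⟨N, hN⟩ : ∃ N, N = Nat.card (G ⧸ limK H x) := ⟨_, rfl⟩
    obtain ⟨i, h1, h2⟩ := ((lim_ballcard (S := S) H x 1 N).and hC).exists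
    have h3 : (ball S ((1 : G) • bp (limK H x)) N).card ≤ N := by
      have := Fintype.ofFinite (G ⧸ limK H x)
      rw [hN, Nat.card_eq_fintype_card]
      exact Finset.card_le_univ _
    have := h2.inf
    have h4 := bas_card h ((1 : G) • x i) N
    omega
  · intro y r hr
    obtain ⟨u, rfl⟩ := lim_rep _ y
    obtain ⟨i, h1, h2⟩ := ((lim_ballcard (S := S) H x u r).and hC).exists
    rw [h1]
    exact h2.gr _ r hr

private theorem lim_cyc (n : ℕ) (hn : 0 < n) (hexp : ∀ a : G, a ^ n = 1) (w u : G) :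
    ∀ᶠ i in (𝒰 : Filter ℕ), per w (u • bp (limK H x)) = per w (u • x i) := by
  have hit : ∀ {X : Type} [MulAction G X] (y : X) (k : ℕ),
      Function.IsPeriodicPt (fun z => w • z) k y ↔ w ^ k • y = y := by
    intro X _ y k
    have h1 : ∀ (k : ℕ) (y : X), (fun z : X => w • z)^[k] y = w ^ k • y := by
      intro k
      induction k with
      | zero => intro y; simp
      | succ k ih =>
        intro y
        rw [Function.iterate_succ_apply, ih, pow_succ, mul_smul]
    rw [Function.IsPeriodicPt, Function.IsFixedPt, h1]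
  have h1 : ∀ᶠ i in (𝒰 : Filter ℕ), ∀ k ∈ Finset.range (n + 1),
      ((w ^ k * u) • bp (limK H x) = u • bp (limK H x) ↔ (w ^ k * u) • x i = u • x i) :=
    lim_all _ _ fun k _ => lim_eq' H x _ _
  filter_upwards [h1] with i hi
  have hle : ∀ {X : Type} [MulAction G X] (y : X), 0 < per w y ∧ per w y ≤ n := by
    intro X _ y
    have h2 : Function.IsPeriodicPt (fun z => w • z) n y := by
      rw [hit, hexp, one_smul]
    exact ⟨h2.minimalPeriod_pos hn, h2.minimalPeriod_le hn⟩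
  apply Nat.dvd_antisymm
  · apply Function.IsPeriodicPt.minimalPeriod_dvd
    rw [hit, ← mul_smul]
    refine (hi (per w (u • x i)) (Finset.mem_range.2 ?_)).2 ?_
    · have := (hle (u • x i)).2
      omega
    · rw [mul_smul, ← hit]
      exact Function.isPeriodicPt_minimalPeriod _ _
  · apply Function.IsPeriodicPt.minimalPeriod_dvd
    rw [hit, ← mul_smul]
    refine (hi (per w (u • bp (limK H x))) (Finset.mem_range.2 ?_)).1 ?_
    · have := (hle (u • bp (limK H x))).2
      omega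
    · rw [mul_smul, ← hit]
      exact Function.isPeriodicPt_minimalPeriod _ _

private theorem lim_fn (h : Gen S) (β : ∀ i, G ⧸ H i → ℤ) (hβ : ∀ i, Lip S (β i)) :
    ∃ β' : G ⧸ limK H x → ℤ, Lip S β' ∧
      ∀ u : G, ∀ᶠ i in (𝒰 : Filter ℕ), β' (u • bp (limK H x)) = β i (u • x i) - β i (x i) := by
  have hz : ∀ u : G, ∃ z : ℤ, ∀ᶠ i in (𝒰 : Filter ℕ), β i (u • x i) - β i (x i) = z := by
    intro u
    have h1 : ∀ᶠ i in (𝒰 : Filter ℕ), ∃ z ∈ Finset.Icc (-(len S u : ℤ)) (len S u),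
        β i (u • x i) - β i (x i) = z := by
      refine Filter.Eventually.of_forall fun i => ?_
      refine ⟨_, ?_, rfl⟩
      have h2 := hβ i (u • x i) (x i)
      have h3 := dst_smul_le h (x i) u
      rw [dst_comm h] at h2
      have h4 := abs_le.1 h2
      rw [Finset.mem_Icc]
      omega
    obtain ⟨z, _, hz⟩ := (lim_ex _ fun z i => β i (u • x i) - β i (x i) = z).1 h1
    exact ⟨z, hz⟩
  choose Z hZ using hz
  have hrep := lim_rep (limK H x)
  choose ρ hρ using hrep
  have hmain : ∀ u : G, ∀ᶠ i in (𝒰 : Filter ℕ),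
      Z (ρ (u • bp (limK H x))) = β i (u • x i) - β i (x i) := by
    intro u
    have h1 := (lim_eq H x _ _).1 (hρ (u • bp (limK H x)))
    filter_upwards [h1, hZ (ρ (u • bp (limK H x)))] with i h2 h3
    rw [← h3, h2]
  refine ⟨fun y => Z (ρ y), ?_, hmain⟩
  intro y y'
  obtain ⟨u, rfl⟩ := lim_rep _ y
  obtain ⟨v, rfl⟩ := lim_rep _ y'
  obtain ⟨i, ⟨h1, h2⟩, h3⟩ := (((hmain u).and (hmain v)).and (lim_dist H x h u v)).exists
  show |Z (ρ (u • bp (limK H x))) - Z (ρ (v • bp (limK H x)))| ≤ _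
  rw [h1, h2, h3]
  have h4 := hβ i (u • x i) (v • x i)
  have h5 : β i (u • x i) - β i (x i) - (β i (v • x i) - β i (x i)) =
      β i (u • x i) - β i (v • x i) := by ring
  rw [h5]
  exact h4

private theorem lim_geo (h : Gen S) (γ : ∀ i, ℤ → G ⧸ H i) (t : ℕ → ℤ) (r : ℕ → ℕ) (hr : Inf r)
    (h0 : ∀ᶠ i in (𝒰 : Filter ℕ), γ i (t i) = x i)
    (hγ : ∀ᶠ i in (𝒰 : Filter ℕ), Geo S (t i - r i) (t i + r i) (γ i)) :
    ∃ γ' : ℤ → G ⧸ limK H x, GeoL S γ' ∧ γ' 0 = bp (limK H x) ∧
      ∀ (s : ℤ) (u : G), u • bp (limK H x) = γ' s →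
        ∀ᶠ i in (𝒰 : Filter ℕ), u • x i = γ i (t i + s) := by
  have hu : ∀ s : ℤ, ∃ u : G, ∀ᶠ i in (𝒰 : Filter ℕ), u • x i = γ i (t i + s) := by
    intro s
    apply lim_pt H x h _ s.natAbs
    filter_upwards [h0, hγ, hr s.natAbs] with i h1 h2 h3
    rw [← h1]
    have h4 := bas_geo h h2 (s := t i) (t := t i + s) (by omega) (by omega) (by omega) (by omega)
    have h5 : |t i - (t i + s)| = s.natAbs := by
      rw [show t i - (t i + s) = -s by ring, abs_neg, Int.abs_eq_natAbs]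
    rw [h5] at h4
    exact_mod_cast h4.le
  choose u hu' using hu
  refine ⟨fun s => u s • bp (limK H x), ?_, ?_, ?_⟩
  · intro s s' hss
    obtain ⟨i, ⟨⟨⟨⟨h1, h2⟩, h3⟩, h4⟩, h5⟩, h6⟩ := ((((((hu' s).and (hu' s')).and hγ).and
      (hr s.natAbs)).and (hr s'.natAbs)).and (lim_dist H x h (u s) (u s'))).exists
    show (dst S (u s • bp (limK H x)) (u s' • bp (limK H x)) : ℤ) = s' - s
    rw [h6, h1, h2, h3 (t i + s) (t i + s') (by omega) (by omega) (by omega)]
    ring
  · show u 0 • bp (limK H x) = bp (limK H x)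
    have h1 : u 0 • bp (limK H x) = (1 : G) • bp (limK H x) := by
      rw [lim_eq]
      filter_upwards [hu' 0, h0] with i h1 h2
      rw [h1, one_smul, add_zero, h2]
    rw [h1, one_smul]
  · intro s v hv
    have h1 := (lim_eq H x _ _).1 hv
    filter_upwards [h1, hu' s] with i h2 h3
    rw [h2, h3]

end

/-- Row LIM -/
theorem rowLIM4 : RowLIM := by
  intro G _ S h H x
  exact ⟨limK H x, {
    eq := lim_eq H x
    card := lim_ballcard H x
    dist := lim_dist H x h
    gr := lim_gr H x h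
    pt := lim_pt H x h
    cyc := lim_cyc H x
    fn := lim_fn H x h
    geo := lim_geo H x h }⟩

end

end Pool.Agent.LGT
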