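/-
Schreier graphs of linear growth: row LINE.
-/
import Pool.Agent.Lib.LGT.Rows
import Pool.Agent.Lib.LGT.Bas

set_option autoImplicit false

namespace Pool.Agent.LGT

open scoped Pointwise
open Classical

noncomputable section

theorem LINE3_sum {G X : Type*} [Group G] [MulAction G X] {S : Finset G} (h : Gen S)
    [MulAction.IsPretransitive G X] {γ : ℤ → X} {t : ℤ} {ρ : ℕ} (hγ : Geo S (t - ρ) (t + ρ) γ)
    {x : X} {a m : ℕ} (J : Finset ℤ) (hJ : ∀ y ∈ J, |y| + a ≤ ρ)
    (hd : ∀ y ∈ J, ∀ z ∈ J, y ≠ z → (2 * (a : ℤ)) < |y - z|)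
    (hx : dst S (γ t) x + m ≤ ρ) (hfar : ∀ y ∈ J, a + m < dst S (γ (t + y)) x) :
    (ball S x m).card + ∑ y ∈ J, (ball S (γ (t + y)) a).card ≤ (ball S (γ t) ρ).card := by
  have h1 : (J.biUnion fun y => ball S (γ (t + y)) a).card =
      ∑ y ∈ J, (ball S (γ (t + y)) a).card := by
    apply Finset.card_biUnion
    intro y hy z hz hyz
    apply bas_disj h
    have e1 := abs_le.1 (show |y| ≤ (ρ : ℤ) by have := hJ y hy; omega)
    have e2 := abs_le.1 (show |z| ≤ (ρ : ℤ) by have := hJ z hz; omega)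
    have h3 := bas_geo h hγ (s := t + y) (t := t + z) (by omega) (by omega) (by omega) (by omega)
    have h4 : |t + y - (t + z)| = |y - z| := by congr 1; ring
    rw [h4] at h3
    have h5 := hd y hy z hz hyz
    omega
  rw [← h1, ← Finset.card_union_of_disjoint]
  · apply Finset.card_le_card
    apply Finset.union_subset
    · exact bas_subset h hx
    · rw [Finset.biUnion_subset]
      intro y hy
      apply bas_subset h
      have e1 := abs_le.1 (show |y| ≤ (ρ : ℤ) by have := hJ y hy; omega)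
      have h3 := bas_geo h hγ (s := t) (t := t + y) (by omega) (by omega) (by omega) (by omega)
      have h4 : |t - (t + y)| = |y| := by rw [← abs_neg]; congr 1; ring
      rw [h4] at h3
      have := hJ y hy
      omega
  · rw [Finset.disjoint_biUnion_right]
    intro y hy
    apply Disjoint.symm
    apply bas_disj h
    exact hfar y hy

theorem LINE3_count {G : Type} [Group G] {S : Finset G} {C : ℕ} {g : ℕ → ℕ} {c : ℝ} (h : Gen S)
    (hM : Min S C g c) {H : Subgroup G} (hH : GrL S C H) {γ : ℤ → G ⧸ H} {t : ℤ} {ρ : ℕ}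
    (hγ : Geo S (t - ρ) (t + ρ) γ) {x : G ⧸ H} {a m k : ℕ}
    (hk : k * (2 * a + 1) ≤ 2 * ρ + 1)
    (hx : dst S (γ t) x + m ≤ ρ)
    (hfar : ∀ s : ℤ, |s - t| ≤ ρ → a + m < dst S (γ s) x) :
    m + 1 + k * g a ≤ (ball S (γ t) ρ).card := by
  have : Infinite (G ⧸ H) := hH.inf
  set f : ℕ → ℤ := fun j => -(ρ : ℤ) + a + j * (2 * a + 1) with hf
  have hinj : Function.Injective f := by
    intro i j hij
    simp only [hf] at hij
    have h1 : (i : ℤ) * (2 * a + 1) = j * (2 * a + 1) := by linarith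
    have h2 : (i : ℤ) = j := mul_right_cancel₀ (by omega) h1
    exact_mod_cast h2
  have hb : ∀ j ∈ Finset.range k, |f j| + a ≤ ρ := by
    intro j hj
    rw [Finset.mem_range] at hj
    have h1 : (j + 1) * (2 * a + 1) ≤ k * (2 * a + 1) := Nat.mul_le_mul_right _ hj
    have h2 : ((j : ℤ) + 1) * (2 * a + 1) ≤ 2 * ρ + 1 := by exact_mod_cast h1.trans hk
    have h3 : (0 : ℤ) ≤ (j : ℤ) * (2 * a + 1) := by positivity
    simp only [hf]
    rcases abs_cases (-(ρ : ℤ) + a + j * (2 * a + 1)) with ⟨h6, _⟩ | ⟨h6, _⟩ <;> nlinarith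
  have h1 := LINE3_sum h hγ (x := x) (a := a) (m := m) ((Finset.range k).image f)
    (by
      intro y hy
      obtain ⟨j, hj, rfl⟩ := Finset.mem_image.1 hy
      exact hb j hj)
    (by
      intro y hy z hz hyz
      obtain ⟨i, hi, rfl⟩ := Finset.mem_image.1 hy
      obtain ⟨j, hj, rfl⟩ := Finset.mem_image.1 hz
      have hij : i ≠ j := fun e => hyz (by rw [e])
      have e1 : f i - f j = ((i : ℤ) - j) * (2 * a + 1) := by simp only [hf]; ring
      rw [e1, abs_mul]
      have e2 : (1 : ℤ) ≤ |(i : ℤ) - j| := by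
        apply Int.one_le_abs
        intro e
        apply hij
        have : (i : ℤ) = j := by linarith
        exact_mod_cast this
      have e3 : |(2 * (a : ℤ) + 1)| = 2 * a + 1 := abs_of_nonneg (by positivity)
      rw [e3]
      nlinarith)
    hx
    (by
      intro y hy
      obtain ⟨j, hj, rfl⟩ := Finset.mem_image.1 hy
      apply hfar
      have := hb j hj
      rw [add_sub_cancel_left]
      omega)
  have h2 : k * g a ≤ ∑ y ∈ (Finset.range k).image f, (ball S (γ (t + y)) a).card := by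
    have h3 : ((Finset.range k).image f).card = k := by
      rw [Finset.card_image_of_injective _ hinj, Finset.card_range]
    have h4 : ((Finset.range k).image f).card • g a ≤
        ∑ y ∈ (Finset.range k).image f, (ball S (γ (t + y)) a).card := by
      apply Finset.card_nsmul_le_sum
      intro y hy
      obtain ⟨j, hj, rfl⟩ := Finset.mem_image.1 hy
      apply hM.lo H hH γ (t + f j) a
      have e1 := hb j hj
      have e2 := abs_le.1 (show |f j| ≤ (ρ : ℤ) - a by omega)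
      exact bas_geo_mono hγ (by omega) (by omega)
    rw [h3, smul_eq_mul] at h4
    exact h4
  have h5 := bas_card h x m
  omega

/-- the first part -/
theorem LINE3_A {G : Type} [Group G] {S : Finset G} {C : ℕ} {g : ℕ → ℕ} {c : ℝ} (h : Gen S)
    (hM : Min S C g c) (ε : ℝ) (hε : 0 < ε) (hε1 : ε ≤ 1) : ∃ R : ℕ,
    ∀ (H : Subgroup G) (γ : ℤ → G ⧸ H) (t : ℤ) (ρ : ℕ), GrL S C H → Geo S (t - ρ) (t + ρ) γ →
      R ≤ ρ → ((ball S (γ t) ρ).card : ℝ) ≤ (c + ε / 16) * ρ →
        ∀ x : G ⧸ H, 2 * dst S (γ t) x ≤ ρ →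
        ∃ s : ℤ, |s - t| ≤ ρ ∧ (dst S (γ s) x : ℝ) ≤ ε * ρ := by
  have hc := hM.one
  obtain ⟨R₁, hR₁⟩ := hM.lim (ε / 16) (by positivity)
  obtain ⟨R₂, hR₂⟩ := exists_nat_gt (((R₁ : ℝ) + 1) / (ε / (16 * c)))
  obtain ⟨R₃, hR₃⟩ := exists_nat_gt (4 * c / ε)
  refine ⟨max R₂ R₃, ?_⟩
  intro H γ t ρ hH hγ hρ hcard x hx
  by_contra hcon
  push Not at hcon
  have hρ2 : (R₂ : ℝ) ≤ ρ := by exact_mod_cast (le_max_left _ _).trans hρ
  have hρ3 : (R₃ : ℝ) ≤ ρ := by exact_mod_cast (le_max_right _ _).trans hρ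
  have hc0 : 0 < c := by linarith
  set δ' : ℝ := ε / (16 * c) with hδ'
  have hδ'0 : 0 < δ' := by positivity
  have hδ'1 : δ' ≤ ε / 16 := by
    rw [hδ']
    apply div_le_div_of_nonneg_left hε.le (by norm_num)
    linarith
  have hδc : c * δ' = ε / 16 := by
    rw [hδ']; field_simp
  have hρ0 : (0 : ℝ) ≤ ρ := Nat.cast_nonneg _
  set a : ℕ := ⌊δ' * ρ⌋₊ with ha
  set m : ℕ := ⌊ε * ρ / 2⌋₊ with hm
  set k : ℕ := (2 * ρ + 1) / (2 * a + 1) with hk
  have ha1 : (a : ℝ) ≤ δ' * ρ := Nat.floor_le (by positivity)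
  have ha2 : δ' * ρ < a + 1 := Nat.lt_floor_add_one _
  have hm1 : (m : ℝ) ≤ ε * ρ / 2 := Nat.floor_le (by positivity)
  have hm2 : ε * ρ / 2 < m + 1 := Nat.lt_floor_add_one _
  have haR : R₁ ≤ a := by
    have h1 : ((R₁ : ℝ) + 1) < δ' * ρ := by
      have h2 := hR₂.trans_le hρ2
      rw [div_lt_iff₀ hδ'0] at h2
      linarith
    have h2 : (R₁ : ℝ) < a := by linarith
    exact_mod_cast h2.le
  have hmρ : 2 * m ≤ ρ := by
    have h1 : (2 * (m : ℝ)) ≤ ρ := by nlinarith
    exact_mod_cast h1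
  have hkm : k * (2 * a + 1) ≤ 2 * ρ + 1 := Nat.div_mul_le_self _ _
  have hkm2 : 2 * ρ + 1 < (k + 1) * (2 * a + 1) := by
    have h1 := Nat.lt_div_mul_add (a := 2 * ρ + 1) (b := 2 * a + 1) (by omega)
    rw [← hk] at h1
    linarith
  have h1 := LINE3_count h hM hH hγ (x := x) (a := a) (m := m) (k := k) hkm (by omega) (by
    intro s hs
    have h2 := hcon s hs
    have h3 : ((a + m : ℕ) : ℝ) < dst S (γ s) x := by
      push_cast
      nlinarith
    exact_mod_cast h3)
  have h2 : ((m : ℝ) + 1) + k * g a ≤ (c + ε / 16) * ρ := by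
    refine le_trans ?_ hcard
    exact_mod_cast h1
  have h3 := hR₁ a haR
  have h4 : (k : ℝ) * ((c - ε / 16) * (a + 1)) ≤ k * g a :=
    mul_le_mul_of_nonneg_left h3 (Nat.cast_nonneg _)
  have h5 : (ρ : ℝ) - a - 1 ≤ k * (a + 1) := by
    have h6 : 2 * (ρ : ℝ) + 1 ≤ (k + 1) * (2 * a + 1) := by exact_mod_cast hkm2.le
    have h7 : (0 : ℝ) ≤ k := Nat.cast_nonneg _
    nlinarith
  have hcp : 0 ≤ c - ε / 16 := by linarith
  have h8 : (c - ε / 16) * ((ρ : ℝ) - a - 1) ≤ k * ((c - ε / 16) * (a + 1)) := by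
    calc (c - ε / 16) * ((ρ : ℝ) - a - 1) ≤ (c - ε / 16) * (k * (a + 1)) :=
          mul_le_mul_of_nonneg_left h5 hcp
      _ = _ := by ring
  have h9 : (c - ε / 16) * ((ρ : ℝ) - a - 1) ≥ c * ρ - ε / 16 * ρ - c * (δ' * ρ) - c := by
    have e1 : (c - ε / 16) * ((a : ℝ) + 1) ≤ c * (δ' * ρ + 1) := by
      apply mul_le_mul (by linarith) (by linarith) (by positivity) hc0.le
    nlinarith
  have h10 : c * (δ' * ρ) = ε / 16 * ρ := by rw [← mul_assoc, hδc]
  have h11 : 4 * c < ε * ρ := by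
    have h2 := hR₃.trans_le hρ3
    rw [div_lt_iff₀ hε] at h2
    linarith
  rw [h10] at h9
  linarith

/-- Row LINE -/
theorem rowLINE'' : RowLINE := by
  intro G _ S C g c h hM ε hε
  have hc := hM.one
  set ε' : ℝ := min ε 1 / 8 with hε'
  have hm0 : 0 < min ε 1 := lt_min hε one_pos
  have hε'0 : 0 < ε' := by positivity
  have hε'1 : ε' ≤ 1 := by
    have := min_le_right ε 1
    rw [hε']
    linarith
  have hε'2 : 8 * ε' ≤ ε := by
    have := min_le_left ε 1
    rw [hε']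
    linarith
  obtain ⟨R₁, hR₁⟩ := LINE3_A h hM ε' hε'0 hε'1
  obtain ⟨R₂, hR₂⟩ := hM.lim ε' hε'0
  refine ⟨ε' / 16, by positivity, max R₁ R₂, ?_⟩
  intro H γ t ρ hH hγ hρ
  have hρ1 := (le_max_left _ _).trans hρ
  have hρ2 := (le_max_right _ _).trans hρ
  have hρ0 : (0 : ℝ) ≤ ρ := Nat.cast_nonneg _
  refine ⟨?_, ?_⟩
  · intro hcard x hx
    obtain ⟨s, hs, hs2⟩ := hR₁ H γ t ρ hH hγ hρ1 hcard x hx
    refine ⟨s, hs, hs2.trans ?_⟩
    nlinarith
  · intro β hβ hF
    have hcF := bas_card_le_FF hγ hβ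
    have hcard := hcF.trans hF
    have hlo : (g ρ : ℝ) ≤ (ball S (γ t) ρ).card := by
      exact_mod_cast hM.lo H hH γ t ρ hγ
    have hg := hR₂ ρ hρ2
    have hdef : 2 * (ρ : ℝ) - ((β (γ (t + ρ)) : ℝ) - β (γ (t - ρ))) ≤ 2 * ε' * ρ := by
      unfold FF at hF
      nlinarith
    have hdef2 : ∀ s s' : ℤ, t - ρ ≤ s → s ≤ s' → s' ≤ t + ρ →
        (s' : ℝ) - s - 2 * ε' * ρ ≤ (β (γ s') : ℝ) - β (γ s) := by
      intro s s' h1 h2 h3
      have e1 := abs_le.1 (hβ (γ (t - ρ)) (γ s))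
      have e2 := abs_le.1 (hβ (γ s') (γ (t + ρ)))
      have e3 := hγ (t - ρ) s le_rfl h1 (by omega)
      have e4 := hγ s' (t + ρ) (by omega) h3 le_rfl
      have e5 : β (γ s) - β (γ (t - ρ)) ≤ s - (t - ρ) := by omega
      have e6 : β (γ (t + ρ)) - β (γ s') ≤ t + ρ - s' := by omega
      have e7 : (β (γ s) : ℝ) - β (γ (t - ρ)) ≤ s - (t - ρ) := by exact_mod_cast e5
      have e8 : (β (γ (t + ρ)) : ℝ) - β (γ s') ≤ t + ρ - s' := by exact_mod_cast e6
      linarith
    refine ⟨?_, ?_⟩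
    · intro x z hx hz
      obtain ⟨s, hs, hs2⟩ := hR₁ H γ t ρ hH hγ hρ1 hcard x hx
      obtain ⟨s', hs', hs2'⟩ := hR₁ H γ t ρ hH hγ hρ1 hcard z hz
      have key : ∀ (x z : G ⧸ H) (s s' : ℤ), |s - t| ≤ ρ → |s' - t| ≤ ρ → s ≤ s' →
          (dst S (γ s) x : ℝ) ≤ ε' * ρ → (dst S (γ s') z : ℝ) ≤ ε' * ρ →
          (dst S x z : ℝ) ≤ ((β z : ℝ) - β x) + ε * ρ := by
        intro x z s s' hs hs' hss hx2 hz2
        have a1 := abs_le.1 hs
        have a2 := abs_le.1 hs'
        have b1 := dst_triangle h x (γ s) z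
        have b2 := dst_triangle h (γ s) (γ s') z
        have b3 := hγ s s' (by omega) hss (by omega)
        have b4 := hdef2 s s' (by omega) hss (by omega)
        have b5 := dst_comm h x (γ s)
        have b6 := abs_le.1 (hβ (γ s) x)
        have b7 := abs_le.1 (hβ (γ s') z)
        have b8 : (dst S x z : ℝ) ≤ dst S (γ s) x + dst S (γ s) (γ s') + dst S (γ s') z := by
          have : dst S x z ≤ dst S (γ s) x + dst S (γ s) (γ s') + dst S (γ s') z := by omega
          exact_mod_cast this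
        have b9 : (dst S (γ s) (γ s') : ℝ) = s' - s := by exact_mod_cast b3
        have b10 : (β x : ℝ) - β (γ s) ≤ dst S (γ s) x := by
          have : β x - β (γ s) ≤ dst S (γ s) x := by omega
          exact_mod_cast this
        have b11 : (β (γ s') : ℝ) - β z ≤ dst S (γ s') z := by
          have : β (γ s') - β z ≤ dst S (γ s') z := by omega
          exact_mod_cast this
        nlinarith
      rcases le_total s s' with hss | hss
      · refine (key x z s s' hs hs' hss hs2 hs2').trans ?_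
        have := neg_abs_le ((β x : ℝ) - β z)
        linarith
      · refine (by rw [dst_comm h]; exact key z x s' s hs' hs hss hs2' hs2 :
          (dst S x z : ℝ) ≤ ((β x : ℝ) - β z) + ε * ρ).trans ?_
        have := le_abs_self ((β x : ℝ) - β z)
        linarith
    · intro s s' h1 h2 h3
      have := hdef2 s s' h1 h2 h3
      nlinarith

end

end Pool.Agent.LGT
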