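/-
Schreier graphs of linear growth: row LINE, nearly minimal windows are close to the line.
-/
import Pool.Agent.Lib.LGT.Bas

set_option autoImplicit false

namespace Pool.Agent.LGT

open scoped Pointwise
open Classical

noncomputable section

/-- the balls around the centres of consecutive windows, together with one more ball -/
private theorem line_union {G X : Type*} [Group G] [MulAction G X] {S : Finset G} (h : Gen S)
    [MulAction.IsPretransitive G X] {γ : ℤ → X} {t : ℤ} {ρ : ℕ} (hγ : Geo S (t - ρ) (t + ρ) γ)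
    (a q b m : ℕ) (hq : q * (2 * a + 1) ≤ 2 * ρ + 1) (x : X) (hx : dst S (γ t) x + b ≤ ρ)
    (hfar : ∀ s : ℤ, |s - t| ≤ ρ → a + b < dst S (γ s) x)
    (hm : ∀ z : ℤ, t - ρ ≤ z - a → z + a ≤ t + ρ → m ≤ (ball S (γ z) a).card) :
    q * m + (ball S x b).card ≤ (ball S (γ t) ρ).card := by
  set z : ℕ → ℤ := fun j => t - ρ + a + j * (2 * a + 1) with hz
  have hz1 : ∀ j < q, t - ρ ≤ z j - a ∧ z j + a ≤ t + ρ := by
    intro j hj
    have h1 : ((j : ℤ) + 1) * (2 * a + 1) ≤ 2 * ρ + 1 := by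
      have h2 : (j + 1) * (2 * a + 1) ≤ 2 * ρ + 1 :=
        (Nat.mul_le_mul_right _ (Nat.succ_le_of_lt hj)).trans hq
      exact_mod_cast h2
    have h3 : (0 : ℤ) ≤ (j : ℤ) * (2 * a + 1) := by positivity
    have h4 : ((j : ℤ) + 1) * (2 * a + 1) = (j : ℤ) * (2 * a + 1) + (2 * a + 1) := by ring
    simp only [hz]
    constructor <;> omega
  have hz2 : ∀ i j : ℕ, i < j → z i + (2 * a + 1) ≤ z j := by
    intro i j hij
    have h1 : ((i : ℤ) + 1) * (2 * a + 1) ≤ (j : ℤ) * (2 * a + 1) :=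
      mul_le_mul_of_nonneg_right (by omega) (by positivity)
    have h4 : ((i : ℤ) + 1) * (2 * a + 1) = (i : ℤ) * (2 * a + 1) + (2 * a + 1) := by ring
    simp only [hz]
    omega
  have hdz : ∀ i < q, ∀ j < q, i ≠ j →
      Disjoint (ball S (γ (z i)) a) (ball S (γ (z j)) a) := by
    intro i hi j hj hij
    apply bas_disj h
    have h1 := hz1 i hi
    have h2 := hz1 j hj
    have h3 := bas_geo h hγ (s := z i) (t := z j) (by omega) (by omega) (by omega) (by omega)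
    rcases Nat.lt_or_gt_of_ne hij with h4 | h4
    · have h5 := hz2 i j h4
      rcases abs_cases (z i - z j) with ⟨h6, _⟩ | ⟨h6, _⟩ <;> omega
    · have h5 := hz2 j i h4
      rcases abs_cases (z i - z j) with ⟨h6, _⟩ | ⟨h6, _⟩ <;> omega
  have hU : ((Finset.range q).biUnion fun j => ball S (γ (z j)) a) ∪ ball S x b ⊆
      ball S (γ t) ρ := by
    apply Finset.union_subset
    · rw [Finset.biUnion_subset]
      intro j hj
      rw [Finset.mem_range] at hj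
      apply bas_subset h
      have h1 := hz1 j hj
      have h3 := bas_geo h hγ (s := t) (t := z j) (by omega) (by omega) (by omega) (by omega)
      rcases abs_cases (t - z j) with ⟨h6, _⟩ | ⟨h6, _⟩ <;> omega
    · exact bas_subset h hx
  have hd : Disjoint ((Finset.range q).biUnion fun j => ball S (γ (z j)) a) (ball S x b) := by
    rw [Finset.disjoint_biUnion_left]
    intro j hj
    rw [Finset.mem_range] at hj
    apply bas_disj h
    have h1 := hz1 j hj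
    apply hfar
    rcases abs_cases (z j - t) with ⟨h6, _⟩ | ⟨h6, _⟩ <;> omega
  have hcard := Finset.card_le_card hU
  rw [Finset.card_union_of_disjoint hd, Finset.card_biUnion (by
    intro i hi j hj hij
    exact hdz i (Finset.mem_range.1 hi) j (Finset.mem_range.1 hj) hij)] at hcard
  have hsum : q * m ≤ ∑ j ∈ Finset.range q, (ball S (γ (z j)) a).card := by
    have h1 : ∑ j ∈ Finset.range q, m ≤ ∑ j ∈ Finset.range q, (ball S (γ (z j)) a).card := by
      apply Finset.sum_le_sum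
      intro j hj
      have h2 := hz1 j (Finset.mem_range.1 hj)
      exact hm _ h2.1 h2.2
    simpa using h1
  omega

private theorem line_A {G : Type} [Group G] {S : Finset G} {C : ℕ} {g : ℕ → ℕ} {c : ℝ}
    (h : Gen S) (hmin : Min S C g c) (ε : ℝ) (hε : 0 < ε) (hε1 : ε ≤ 1) :
    ∃ R : ℕ, ∀ (H : Subgroup G) (γ : ℤ → G ⧸ H) (t : ℤ) (ρ : ℕ), GrL S C H →
      Geo S (t - ρ) (t + ρ) γ → R ≤ ρ → ((ball S (γ t) ρ).card : ℝ) ≤ (c + ε / 8) * ρ →
      ∀ x : G ⧸ H, 2 * dst S (γ t) x ≤ ρ → ∃ s : ℤ, |s - t| ≤ ρ ∧ (dst S (γ s) x : ℝ) ≤ ε * ρ := by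
  have hc : 1 ≤ c := hmin.one
  obtain ⟨R, hR⟩ := hmin.lim (ε / 8) (by linarith)
  have hδ : 0 < ε / (8 * c) := by positivity
  obtain ⟨R', hR'⟩ := exists_nat_ge (((R : ℝ) + 1) / (ε / (8 * c)))
  refine ⟨R' + 1, fun H γ t ρ hH hγ hρ hcard x hx => ?_⟩
  by_contra hcon
  push Not at hcon
  have hinf := hH.inf
  have hρ0 : (0 : ℝ) < ρ := by
    have : 0 < ρ := by omega
    exact_mod_cast this
  obtain ⟨a, ha⟩ : ∃ a : ℕ, a = ⌊ε / (8 * c) * ρ⌋₊ := ⟨_, rfl⟩
  obtain ⟨b, hb⟩ : ∃ b : ℕ, b = ⌊ε / 2 * ρ⌋₊ := ⟨_, rfl⟩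
  have ha1 : (a : ℝ) ≤ ε / (8 * c) * ρ := by
    rw [ha]
    exact Nat.floor_le (by positivity)
  have hb1 : (b : ℝ) ≤ ε / 2 * ρ := by
    rw [hb]
    exact Nat.floor_le (by positivity)
  have hb2 : ε / 2 * ρ < (b : ℝ) + 1 := by
    rw [hb]
    exact Nat.lt_floor_add_one _
  have haR : R ≤ a := by
    rw [ha]
    apply Nat.le_floor
    have h1 : ((R : ℝ) + 1) / (ε / (8 * c)) ≤ ρ := hR'.trans (by
      have : R' ≤ ρ := by omega
      exact_mod_cast this)
    rw [div_le_iff₀ hδ] at h1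
    linarith
  have hac : c * a ≤ ε / 8 * ρ := by
    have h1 : c * (a : ℝ) ≤ c * (ε / (8 * c) * ρ) := mul_le_mul_of_nonneg_left ha1 (by linarith)
    have h2 : c * (ε / (8 * c) * ρ) = ε / 8 * ρ := by
      field_simp
    linarith
  have haε : (a : ℝ) ≤ ε / 8 * ρ := by
    have : (a : ℝ) ≤ c * a := by
      have := mul_le_mul_of_nonneg_right hc (Nat.cast_nonneg (α := ℝ) a)
      linarith
    linarith
  obtain ⟨q, hq⟩ : ∃ q : ℕ, q = (2 * ρ + 1) / (2 * a + 1) := ⟨_, rfl⟩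
  have hq1 : q * (2 * a + 1) ≤ 2 * ρ + 1 := by
    rw [hq]
    exact Nat.div_mul_le_self _ _
  have hq2 : 2 * ρ + 1 < q * (2 * a + 1) + (2 * a + 1) := by
    rw [hq]
    exact Nat.lt_div_mul_add (by omega)
  have hxb : dst S (γ t) x + b ≤ ρ := by
    have h1 : (2 * (dst S (γ t) x : ℝ)) ≤ ρ := by exact_mod_cast hx
    have h2 : ε / 2 * ρ ≤ 1 / 2 * ρ := mul_le_mul_of_nonneg_right (by linarith) hρ0.le
    have h3 : ((dst S (γ t) x : ℝ)) + b ≤ ρ := by linarith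
    exact_mod_cast h3
  have hmain := line_union h hγ a q b (g a) hq1 x hxb (fun s hs => by
      have h1 := hcon s hs
      have h2 : (a : ℝ) + b < dst S (γ s) x := by
        have : 0 < ε * ρ := by positivity
        linarith
      exact_mod_cast h2)
    (fun z h1 h2 => hmin.lo H hH γ z a (bas_geo_mono hγ h1 h2))
  have hball : b + 1 ≤ (ball S x b).card := bas_card h x b
  have h1 : (q : ℝ) * g a + (b + 1) ≤ ((ball S (γ t) ρ).card : ℝ) := by
    have : q * g a + (b + 1) ≤ (ball S (γ t) ρ).card := by omega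
    exact_mod_cast this
  have h2 : (c - ε / 8) * (a + 1) ≤ g a := hR a haR
  have h3 : (q : ℝ) * ((c - ε / 8) * (a + 1)) ≤ q * g a :=
    mul_le_mul_of_nonneg_left h2 (Nat.cast_nonneg _)
  have h4 : (ρ : ℝ) - a ≤ q * (a + 1) := by
    have h5 : (2 * (ρ : ℝ) + 1) < q * (2 * a + 1) + (2 * a + 1) := by exact_mod_cast hq2
    have h6 : (0 : ℝ) ≤ q := Nat.cast_nonneg _
    nlinarith
  have h5 : (c - ε / 8) * ((ρ : ℝ) - a) ≤ (c - ε / 8) * (q * (a + 1)) :=
    mul_le_mul_of_nonneg_left h4 (by linarith)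
  have h6 : (0 : ℝ) ≤ ε / 8 * a := by positivity
  nlinarith

private theorem line_lip {G X : Type*} [Group G] [MulAction G X] {S : Finset G} {γ : ℤ → X}
    {β : X → ℤ} {a b : ℤ} (hγ : Geo S a b γ) (hβ : Lip S β) (s t : ℤ) (hs : a ≤ s) (hst : s ≤ t)
    (ht : t ≤ b) : β (γ t) - β (γ s) ≤ t - s := by
  have h1 := hγ s t hs hst ht
  have h2 := abs_le.1 (hβ (γ s) (γ t))
  omega

private theorem line_D {G : Type} [Group G] {S : Finset G} {C : ℕ} {g : ℕ → ℕ} {c : ℝ}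
    (hmin : Min S C g c) (ε : ℝ) (hε : 0 < ε) (hε1 : ε ≤ 1) :
    ∃ R : ℕ, ∀ (H : Subgroup G) (γ : ℤ → G ⧸ H) (t : ℤ) (ρ : ℕ), GrL S C H →
      Geo S (t - ρ) (t + ρ) γ → R ≤ ρ → ∀ β : G ⧸ H → ℤ, FF S γ β t ρ ≤ (c + ε / 8) * ρ →
      2 * (ρ : ℝ) - ((β (γ (t + ρ)) : ℝ) - β (γ (t - ρ))) ≤ ε * ρ := by
  have hc : 1 ≤ c := hmin.one
  obtain ⟨R, hR⟩ := hmin.lim (ε / 8) (by linarith)
  refine ⟨R, fun H γ t ρ hH hγ hρ β hFF => ?_⟩
  have h1 := hR ρ hρ
  have h2 : (g ρ : ℝ) ≤ (ball S (γ t) ρ).card := by exact_mod_cast hmin.lo H hH γ t ρ hγ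
  unfold FF at hFF
  have hρ0 : (0 : ℝ) ≤ ρ := Nat.cast_nonneg _
  have h3 : (c - ε / 8) * (ρ : ℝ) ≤ (c - ε / 8) * (ρ + 1) :=
    mul_le_mul_of_nonneg_left (by linarith) (by linarith)
  have h4 : 0 ≤ ε * ρ := by positivity
  linarith

/-- Row LINE -/
theorem rowLINE4 : RowLINE := by
  intro G _ S C g c h hmin ε hε
  set ε₁ : ℝ := min (ε / 5) 1 with hε₁def
  have hε₁ : 0 < ε₁ := lt_min (by linarith) one_pos
  have hε₁1 : ε₁ ≤ 1 := min_le_right _ _
  have hε₁5 : 5 * ε₁ ≤ ε := by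
    have := min_le_left (ε / 5) 1
    linarith
  obtain ⟨R₁, hR₁⟩ := line_A h hmin ε₁ hε₁ hε₁1
  obtain ⟨R₂, hR₂⟩ := line_D hmin ε₁ hε₁ hε₁1
  refine ⟨ε₁ / 8, by linarith, max R₁ R₂, fun H γ t ρ hH hγ hρ => ?_⟩
  have hρ1 : R₁ ≤ ρ := (le_max_left _ _).trans hρ
  have hρ2 : R₂ ≤ ρ := (le_max_right _ _).trans hρ
  have hρ0 : (0 : ℝ) ≤ ρ := Nat.cast_nonneg _
  have hερ : 5 * (ε₁ * ρ) ≤ ε * ρ := by
    have := mul_le_mul_of_nonneg_right hε₁5 hρ0
    linarith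
  have hε₁ρ : 0 ≤ ε₁ * ρ := by positivity
  refine ⟨fun hcard x hx => ?_, fun β hβ hFF => ?_⟩
  · obtain ⟨s, hs, hsx⟩ := hR₁ H γ t ρ hH hγ hρ1 hcard x hx
    exact ⟨s, hs, hsx.trans (by linarith)⟩
  · have hD := hR₂ H γ t ρ hH hγ hρ2 β hFF
    have hcard : ((ball S (γ t) ρ).card : ℝ) ≤ (c + ε₁ / 8) * ρ :=
      (bas_card_le_FF hγ hβ).trans hFF
    have hB2 : ∀ s s' : ℤ, t - ρ ≤ s → s ≤ s' → s' ≤ t + ρ →
        (s' : ℝ) - s - ε₁ * ρ ≤ (β (γ s') : ℝ) - β (γ s) := by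
      intro s s' h1 h2 h3
      have h4 := line_lip hγ hβ s' (t + ρ) (by omega) h3 le_rfl
      have h5 := line_lip hγ hβ (t - ρ) s le_rfl h1 (by omega)
      have h4' : (β (γ (t + ρ)) : ℝ) - β (γ s') ≤ t + ρ - s' := by exact_mod_cast h4
      have h5' : (β (γ s) : ℝ) - β (γ (t - ρ)) ≤ s - (t - ρ) := by exact_mod_cast h5
      linarith
    refine ⟨fun x z hx hz => ?_, fun s s' h1 h2 h3 => (by
      have := hB2 s s' h1 h2 h3
      linarith)⟩
    obtain ⟨s, hs, hsx⟩ := hR₁ H γ t ρ hH hγ hρ1 hcard x hx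
    obtain ⟨s', hs', hsz⟩ := hR₁ H γ t ρ hH hγ hρ1 hcard z hz
    have key : ∀ (x z : G ⧸ H) (s s' : ℤ), |s - t| ≤ ρ → |s' - t| ≤ ρ →
        (dst S (γ s) x : ℝ) ≤ ε₁ * ρ → (dst S (γ s') z : ℝ) ≤ ε₁ * ρ → s ≤ s' →
        (dst S x z : ℝ) ≤ |(β x : ℝ) - β z| + ε * ρ := by
      intro x z s s' hs hs' hsx hsz hss
      have e1 := abs_le.1 hs
      have e2 := abs_le.1 hs'
      have h1 : (dst S (γ s) (γ s') : ℤ) = s' - s := hγ s s' (by omega) hss (by omega)
      have h1' : (dst S (γ s) (γ s') : ℝ) = s' - s := by exact_mod_cast h1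
      have h2 := dst_triangle h x (γ s) z
      have h3 := dst_triangle h (γ s) (γ s') z
      rw [dst_comm h x (γ s)] at h2
      have h2' : (dst S x z : ℝ) ≤ dst S (γ s) x + dst S (γ s) z := by exact_mod_cast h2
      have h3' : (dst S (γ s) z : ℝ) ≤ dst S (γ s) (γ s') + dst S (γ s') z := by
        exact_mod_cast h3
      have h4 := hB2 s s' (by omega) hss (by omega)
      have h5 : |(β (γ s) : ℝ) - β x| ≤ dst S (γ s) x := by
        have := hβ (γ s) x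
        exact_mod_cast this
      have h6 : |(β (γ s') : ℝ) - β z| ≤ dst S (γ s') z := by
        have := hβ (γ s') z
        exact_mod_cast this
      have h5' := abs_le.1 h5
      have h6' := abs_le.1 h6
      have h7 := neg_abs_le ((β x : ℝ) - β z)
      linarith
    rcases le_total s s' with hss | hss
    · exact key x z s s' hs hs' hsx hsz hss
    · rw [dst_comm h x z, abs_sub_comm]
      exact key z x s' s hs' hs hsz hsx hss

end

end Pool.Agent.LGT
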