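/-
Schreier graphs of linear growth of groups of bounded exponent: row PAIR.
-/
import Pool.Agent.Lib.LGT.Rows

set_option autoImplicit false

namespace Pool.Agent.LGT

open scoped Pointwise
open Classical

noncomputable section

private theorem pair_big (M : ℕ) : ∀ᶠ i in (𝒰 : Filter ℕ), M ≤ i :=
  Nat.hyperfilter_le_atTop (Filter.eventually_ge_atTop M)

private theorem pair_dich (d : ℕ → ℕ) :
    Inf d ∨ ∃ M : ℕ, ∀ᶠ i in (𝒰 : Filter ℕ), d i ≤ M := by
  by_cases h : Inf d
  · exact Or.inl h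
  · right
    unfold Inf at h
    push Not at h
    obtain ⟨M, hM⟩ := h
    refine ⟨M, ?_⟩
    exact hM.mono fun i hi => le_of_lt hi

/-- Row PAIR -/
theorem rowPAIR (hLIM : RowLIM) : RowPAIR := by
  intro G _ S C L c hS H γ β p hgr hgeo htup K j₀ v t r hst hns
  -- a second point of the tuple
  obtain ⟨j₁, hj₁, hj₁0⟩ : ∃ j₁ ∈ K, j₁ ≠ j₀ := by
    have hfar : ∀ᶠ i in (𝒰 : Filter ℕ), ∀ j : Fin L, j ∉ K →
        β i (γ (t i)) + 4 * r i ≤ β i (v i • p i j) := by
      rw [Filter.eventually_all]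
      intro j
      by_cases hj : j ∈ K
      · exact Filter.Eventually.of_forall fun i h => absurd hj h
      · exact (hst.far j hj).mono fun i h _ => h
    obtain ⟨i, ⟨⟨hf, h2⟩, hpt⟩, hr⟩ := (((hfar.and htup.two).and hst.pt).and (hst.inf 1)).exists
    obtain ⟨a, b, hab, hmin, heq⟩ := h2 (v i)
    have hm0 := hmin j₀
    rw [hpt] at hm0
    have haK : a ∈ K := by
      by_contra h
      have := hf a h
      omega
    have hbK : b ∈ K := by
      by_contra h
      have := hf b h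
      omega
    by_cases ha : a = j₀
    · exact ⟨b, hbK, fun h => hab (ha.trans h.symm)⟩
    · exact ⟨a, haK, ha⟩
  -- the distance is bounded
  obtain ⟨M, hM⟩ : ∃ M : ℕ, ∀ᶠ i in (𝒰 : Filter ℕ), dst S (γ (t i)) (v i • p i j₁) ≤ M := by
    rcases pair_dich (fun i => dst S (γ (t i)) (v i • p i j₁)) with h | h
    · exfalso
      refine hns (fun _ => 1) 1 _ h ?_ ?_ ?_
      · refine Filter.Eventually.of_forall fun i => ?_
        rw [len_one]
        omega
      · refine hst.pt.mono fun i hi => ⟨j₁, hj₁, ?_⟩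
        simp only [one_smul]
        rw [hi]
      · refine hst.pt.mono fun i hi => ?_
        simp only [one_smul]
        rw [hi, dst_self hS]
        omega
    · exact h
  obtain ⟨H', hL⟩ := hLIM G S hS (fun _ => H) (fun i => γ (t i))
  obtain ⟨k, hk⟩ := hL.pt (fun i => v i • p i j₁) M hM
  obtain ⟨γ', hγ', hγ0, hγs⟩ := hL.geo (fun _ => γ) t r hst.inf
    (Filter.Eventually.of_forall fun i => rfl)
    (Filter.Eventually.of_forall fun i s s' _ h _ => hgeo s s' h)
  obtain ⟨β', hβl, hβ'⟩ := hL.fn β htup.lip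
  refine ⟨H', k, γ', β', ⟨hL.gr C (Filter.Eventually.of_forall fun i => hgr), hγ', hγ0, hβl,
    ?_, ?_, ?_, ?_⟩⟩
  · -- bzero
    obtain ⟨i, hi⟩ := (hβ' 1).exists
    rw [one_smul, one_smul] at hi
    rw [hi]
    ring
  · -- good
    intro ε hε
    obtain ⟨R, hR⟩ := hst.good ε hε
    refine ⟨R, fun ρ hρ => ?_⟩
    obtain ⟨a, ha⟩ := MulAction.exists_smul_eq G (bp H') (γ' (0 + ρ))
    obtain ⟨b, hb⟩ := MulAction.exists_smul_eq G (bp H') (γ' (0 - ρ))
    obtain ⟨i, ⟨⟨⟨⟨⟨⟨hi1, hi2⟩, hi3⟩, hi4⟩, hi5⟩, hi6⟩, hi7⟩⟩ :=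
      ((((((hR.and (hst.inf ρ)).and (hL.card 1 ρ)).and (hγs _ a ha)).and (hγs _ b hb)).and
        (hβ' a)).and (hβ' b)).exists
    have h1 := hi1 ρ hρ hi2
    unfold FF at h1 ⊢
    rw [one_smul, one_smul] at hi3
    rw [hγ0, hi3, ← ha, ← hb, hi6, hi7, hi4, hi5]
    rw [zero_add, zero_sub, ← sub_eq_add_neg]
    push_cast
    linarith
  · -- ne
    intro hkH
    have h1 : k • bp H' = (1 : G) • bp H' := by
      rw [one_smul]
      show ((k * 1 : G) : G ⧸ H') = ((1 : G) : G ⧸ H')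
      rw [mul_one]
      rw [QuotientGroup.eq]
      simpa using H'.inv_mem hkH
    obtain ⟨i, ⟨⟨hi1, hi2⟩, hi3⟩, hi4⟩ := ((((hL.eq k 1).1 h1).and hk).and
      (hst.pt)).and htup.inj |>.exists
    rw [hi2, one_smul, ← hi3] at hi1
    exact hj₁0 (hi4 (MulAction.injective _ hi1))
  · -- dist
    intro θ hθ
    by_contra hcon
    push Not at hcon
    choose w hw using hcon
    set P : ℕ → ℕ → Prop := fun R i =>
      θ * dst S (γ (t i)) (w R • γ (t i)) + R < (dst S (w R • γ (t i)) (w R • k • γ (t i)) : ℝ) ∧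
        8 * len S (w R) ≤ r i ∧ k • γ (t i) = v i • p i j₁ with hP
    have hPe : ∀ R : ℕ, ∀ᶠ i in (𝒰 : Filter ℕ), P R i := by
      intro R
      filter_upwards [hL.dist (w R) (w R * k), hL.dist 1 (w R), hst.inf (8 * len S (w R)), hk]
        with i h1 h2 h3 h4
      refine ⟨?_, h3, h4⟩
      have h5 := hw R
      rw [one_smul, one_smul] at h2
      rw [mul_smul, mul_smul] at h1
      rw [h1, h2] at h5
      exact h5
    set ρ : ℕ → ℕ := fun i => Nat.findGreatest (fun R => P R i) i with hρ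
    have hρP : ∀ᶠ i in (𝒰 : Filter ℕ), P (ρ i) i := by
      refine (hPe 0).mono fun i hi => ?_
      exact Nat.findGreatest_spec (P := fun R => P R i) (Nat.zero_le i) hi
    have hρI : Inf ρ := by
      intro M'
      filter_upwards [hPe M', pair_big M'] with i h1 h2
      exact Nat.le_findGreatest (P := fun R => P R i) h2 h1
    refine hns (fun i => w (ρ i)) ⌈1 / θ⌉₊
      (fun i => dst S (w (ρ i) • γ (t i)) (w (ρ i) • k • γ (t i))) ?_ ?_ ?_ ?_
    · intro M'
      filter_upwards [hρP, hρI M'] with i h1 h2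
      have h3 := h1.1
      have h4 : (0 : ℝ) ≤ θ * dst S (γ (t i)) (w (ρ i) • γ (t i)) := by positivity
      have h5 : (ρ i : ℝ) < (dst S (w (ρ i) • γ (t i)) (w (ρ i) • k • γ (t i)) : ℝ) := by linarith
      have h6 : ρ i < dst S (w (ρ i) • γ (t i)) (w (ρ i) • k • γ (t i)) := by exact_mod_cast h5
      omega
    · exact hρP.mono fun i hi => hi.2.1
    · filter_upwards [hρP, hst.pt] with i h1 h2
      refine ⟨j₁, hj₁, ?_⟩
      rw [h2, ← h1.2.2]
    · filter_upwards [hρP, hst.pt] with i h1 h2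
      rw [h2]
      have h3 := h1.1
      have h4 : (0 : ℝ) ≤ (ρ i : ℝ) := by positivity
      have h5 : 1 / θ ≤ (⌈1 / θ⌉₊ : ℝ) := Nat.le_ceil _
      have h6 : (dst S (γ (t i)) (w (ρ i) • γ (t i)) : ℝ) ≤
          (⌈1 / θ⌉₊ : ℝ) * dst S (w (ρ i) • γ (t i)) (w (ρ i) • k • γ (t i)) := by
        have h7 : (dst S (γ (t i)) (w (ρ i) • γ (t i)) : ℝ) =
            1 / θ * (θ * dst S (γ (t i)) (w (ρ i) • γ (t i))) := by
          field_simp
        rw [h7]
        have h8 : θ * (dst S (γ (t i)) (w (ρ i) • γ (t i)) : ℝ) ≤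
            dst S (w (ρ i) • γ (t i)) (w (ρ i) • k • γ (t i)) := by linarith
        have h9 : (0 : ℝ) ≤ dst S (w (ρ i) • γ (t i)) (w (ρ i) • k • γ (t i)) := by positivity
        calc 1 / θ * (θ * (dst S (γ (t i)) (w (ρ i) • γ (t i)) : ℝ))
            ≤ 1 / θ * dst S (w (ρ i) • γ (t i)) (w (ρ i) • k • γ (t i)) :=
              mul_le_mul_of_nonneg_left h8 (by positivity)
          _ ≤ _ := mul_le_mul_of_nonneg_right h5 h9
      exact_mod_cast h6

end

end Pool.Agent.LGT
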