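/-
Schreier graphs of linear growth: row SUB, windows of nearly minimal windows.
-/
import Pool.Agent.Lib.LGT.Bas

set_option autoImplicit false

namespace Pool.Agent.LGT

open scoped Pointwise
open Classical

noncomputable section

/-- one centred window in an interval with `m` points -/
private theorem sub_side (g : ℕ → ℕ) (c η : ℝ) (R : ℕ) (hη0 : 0 ≤ η) (hη : η ≤ c)
    (hg : ∀ r : ℕ, R ≤ r → (c - η) * (r + 1) ≤ g r) (F : ℤ → ℕ → ℝ) (l : ℤ) (m : ℕ)
    (hlow : ∀ (x : ℤ) (a : ℕ), l ≤ x - a → x + a < l + m → (g a : ℝ) ≤ F x a) :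
    ∃ J : Finset (ℤ × ℕ), (∀ a ∈ J, l ≤ a.1 - a.2 ∧ a.1 + a.2 < l + m) ∧
      (∀ a ∈ J, ∀ b ∈ J, a = b) ∧ (c - η) * m / 2 - c * (R + 1) ≤ ∑ a ∈ J, F a.1 a.2 := by
  have hc : 0 ≤ c := hη0.trans hη
  rcases Nat.eq_zero_or_pos m with h0 | h0
  · refine ⟨∅, by simp, by simp, ?_⟩
    subst h0
    have : 0 ≤ c * ((R : ℝ) + 1) := by positivity
    simp only [Finset.sum_empty, Nat.cast_zero, mul_zero, zero_div, zero_sub]
    linarith
  · obtain ⟨a, ha⟩ : ∃ a : ℕ, a = (m - 1) / 2 := ⟨_, rfl⟩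
    have ha1 : 2 * a + 1 ≤ m := by omega
    have ha2 : m ≤ 2 * a + 2 := by omega
    refine ⟨{(l + a, a)}, ?_, ?_, ?_⟩
    · intro b hb
      rw [Finset.mem_singleton] at hb
      subst hb
      show l ≤ l + (a : ℤ) - (a : ℕ) ∧ l + (a : ℤ) + (a : ℕ) < l + m
      omega
    · intro b hb b' hb'
      rw [Finset.mem_singleton] at hb hb'
      rw [hb, hb']
    · rw [Finset.sum_singleton]
      have h1 : (g a : ℝ) ≤ F (l + a) a := hlow _ _ (by omega) (by omega)
      refine le_trans ?_ h1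
      have h2 : (m : ℝ) ≤ 2 * (a + 1) := by
        have : (m : ℝ) ≤ 2 * a + 2 := by exact_mod_cast ha2
        linarith
      have h3 : (c - η) * m / 2 ≤ (c - η) * (a + 1) := by
        have := mul_le_mul_of_nonneg_left h2 (sub_nonneg.2 hη)
        linarith
      rcases le_or_gt R a with h4 | h4
      · have h5 := hg a h4
        have : 0 ≤ c * ((R : ℝ) + 1) := by positivity
        linarith
      · have h5 : (a : ℝ) + 1 ≤ R := by exact_mod_cast h4
        have h6 : (c - η) * ((a : ℝ) + 1) ≤ c * (a + 1) :=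
          mul_le_mul_of_nonneg_right (by linarith) (by positivity)
        have h7 : c * ((a : ℝ) + 1) ≤ c * (R + 1) :=
          mul_le_mul_of_nonneg_left (by linarith) hc
        have h8 : (0 : ℝ) ≤ g a := Nat.cast_nonneg _
        linarith

/-- a window inside a window -/
private theorem sub_abs (g : ℕ → ℕ) (c η : ℝ) (R : ℕ) (hη0 : 0 ≤ η) (hη : η ≤ c)
    (hg : ∀ r : ℕ, R ≤ r → (c - η) * (r + 1) ≤ g r) (F : ℤ → ℕ → ℝ) (ρ s : ℕ) (u : ℤ)
    (hu : |u| + s ≤ ρ)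
    (hsum : ∀ J : Finset (ℤ × ℕ), (∀ a ∈ J, |a.1| + a.2 ≤ ρ) →
      (∀ a ∈ J, ∀ b ∈ J, a ≠ b → ((a.2 : ℤ) + b.2) < |a.1 - b.1|) → ∑ a ∈ J, F a.1 a.2 ≤ F 0 ρ)
    (hlow : ∀ (x : ℤ) (a : ℕ), |x| + a ≤ ρ → (g a : ℝ) ≤ F x a) :
    F u s ≤ F 0 ρ - (c - η) * (ρ - s) + 2 * c * (R + 1) := by
  have hu' := abs_le.1 (show |u| ≤ (ρ : ℤ) - s by omega)
  obtain ⟨m₁, hm₁⟩ := Int.eq_ofNat_of_zero_le (show 0 ≤ u - s + ρ by omega)
  obtain ⟨m₂, hm₂⟩ := Int.eq_ofNat_of_zero_le (show 0 ≤ (ρ : ℤ) - u - s by omega)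
  obtain ⟨J₁, hJ₁, hJ₁', hs₁⟩ := sub_side g c η R hη0 hη hg F (-ρ) m₁ (fun x a h1 h2 =>
    hlow x a (by rcases abs_cases x with ⟨h3, _⟩ | ⟨h3, _⟩ <;> omega))
  obtain ⟨J₂, hJ₂, hJ₂', hs₂⟩ := sub_side g c η R hη0 hη hg F (u + s + 1) m₂ (fun x a h1 h2 =>
    hlow x a (by rcases abs_cases x with ⟨h3, _⟩ | ⟨h3, _⟩ <;> omega))
  have hd12 : Disjoint J₁ J₂ := by
    rw [Finset.disjoint_left]
    intro a ha ha'
    have h1 := hJ₁ a ha
    have h2 := hJ₂ a ha'
    omega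
  have hu1 : (u, s) ∉ J₁ ∪ J₂ := by
    intro h
    rcases Finset.mem_union.1 h with h | h
    · have h1 := hJ₁ _ h
      simp only at h1
      omega
    · have h1 := hJ₂ _ h
      simp only at h1
      omega
  have key := hsum (insert (u, s) (J₁ ∪ J₂)) (by
      intro a ha
      rcases Finset.mem_insert.1 ha with rfl | ha
      · exact hu
      · rcases Finset.mem_union.1 ha with ha | ha
        · have h1 := hJ₁ a ha
          rcases abs_cases a.1 with ⟨h3, _⟩ | ⟨h3, _⟩ <;> omega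
        · have h1 := hJ₂ a ha
          rcases abs_cases a.1 with ⟨h3, _⟩ | ⟨h3, _⟩ <;> omega)
    (by
      have k1 : ∀ a ∈ J₁, ((a.2 : ℤ) + s) < |a.1 - u| := by
        intro a ha
        have h1 := hJ₁ a ha
        rcases abs_cases (a.1 - u) with ⟨h3, _⟩ | ⟨h3, _⟩ <;> omega
      have k2 : ∀ a ∈ J₂, ((a.2 : ℤ) + s) < |a.1 - u| := by
        intro a ha
        have h1 := hJ₂ a ha
        rcases abs_cases (a.1 - u) with ⟨h3, _⟩ | ⟨h3, _⟩ <;> omega
      have k3 : ∀ a ∈ J₁, ∀ b ∈ J₂, ((a.2 : ℤ) + b.2) < |a.1 - b.1| := by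
        intro a ha b hb
        have h1 := hJ₁ a ha
        have h2 := hJ₂ b hb
        rcases abs_cases (a.1 - b.1) with ⟨h3, _⟩ | ⟨h3, _⟩ <;> omega
      intro a ha b hb hab
      rcases Finset.mem_insert.1 ha with rfl | ha
      · rcases Finset.mem_insert.1 hb with rfl | hb
        · exact absurd rfl hab
        · show ((s : ℤ) + b.2) < |u - b.1|
          rw [abs_sub_comm, add_comm]
          rcases Finset.mem_union.1 hb with hb | hb
          · exact k1 b hb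
          · exact k2 b hb
      · rcases Finset.mem_insert.1 hb with rfl | hb
        · show ((a.2 : ℤ) + s) < |a.1 - u|
          rcases Finset.mem_union.1 ha with ha | ha
          · exact k1 a ha
          · exact k2 a ha
        · rcases Finset.mem_union.1 ha with ha | ha
          · rcases Finset.mem_union.1 hb with hb | hb
            · exact absurd (hJ₁' a ha b hb) hab
            · exact k3 a ha b hb
          · rcases Finset.mem_union.1 hb with hb | hb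
            · rw [abs_sub_comm, add_comm]
              exact k3 b hb a ha
            · exact absurd (hJ₂' a ha b hb) hab)
  rw [Finset.sum_insert hu1, Finset.sum_union hd12] at key
  have e1 : (m₁ : ℝ) = u - s + ρ := by
    have := congrArg (fun z : ℤ => (z : ℝ)) hm₁
    push_cast at this
    simpa using this.symm
  have e2 : (m₂ : ℝ) = ρ - u - s := by
    have := congrArg (fun z : ℤ => (z : ℝ)) hm₂
    push_cast at this
    simpa using this.symm
  rw [e1] at hs₁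
  rw [e2] at hs₂
  have e3 : F u s ≤ F 0 ρ - ((c - η) * ((u : ℝ) - s + ρ) / 2 - c * (R + 1)) -
      ((c - η) * ((ρ : ℝ) - u - s) / 2 - c * (R + 1)) := by
    have : F (u, s).1 (u, s).2 = F u s := rfl
    linarith
  refine e3.trans (le_of_eq ?_)
  ring

private theorem sub_final (g : ℕ → ℕ) (c ε δ : ℝ) (R M : ℕ) (hδ : 0 < δ) (hδc : δ ≤ c)
    (hδε : 4 * (M + 1) * δ ≤ ε) (hg : ∀ r : ℕ, R ≤ r → (c - δ) * (r + 1) ≤ g r) (F : ℤ → ℕ → ℝ)
    (ρ s : ℕ) (u : ℤ) (hu : |u| + s ≤ ρ) (hM : ρ ≤ M * s) (hs : 4 * c * (R + 1) ≤ ε * s)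
    (hsum : ∀ J : Finset (ℤ × ℕ), (∀ a ∈ J, |a.1| + a.2 ≤ ρ) →
      (∀ a ∈ J, ∀ b ∈ J, a ≠ b → ((a.2 : ℤ) + b.2) < |a.1 - b.1|) → ∑ a ∈ J, F a.1 a.2 ≤ F 0 ρ)
    (hlow : ∀ (x : ℤ) (a : ℕ), |x| + a ≤ ρ → (g a : ℝ) ≤ F x a) (hF : F 0 ρ ≤ (c + δ) * ρ) :
    F u s ≤ (c + ε) * s := by
  have h1 := sub_abs g c δ R hδ.le hδc hg F ρ s u hu hsum hlow
  have h2 : (ρ : ℝ) ≤ M * s := by exact_mod_cast hM
  have hs0 : (0 : ℝ) ≤ s := Nat.cast_nonneg _
  have h3 : δ * ρ ≤ δ * (M * s) := mul_le_mul_of_nonneg_left h2 hδ.le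
  have h4 : 4 * ((M : ℝ) + 1) * δ * s ≤ ε * s := mul_le_mul_of_nonneg_right hδε hs0
  have h5 : 0 ≤ δ * s := mul_nonneg hδ.le hs0
  nlinarith

/-- Row SUB -/
theorem rowSUB' : RowSUB := by
  intro G _ S C g c h hmin M ε hε
  have hc : 0 < c := lt_of_lt_of_le one_pos hmin.one
  set δ : ℝ := min c (ε / (4 * (M + 1))) with hδdef
  have hM0 : (0 : ℝ) < 4 * ((M : ℝ) + 1) := by positivity
  have hδ : 0 < δ := lt_min hc (div_pos hε hM0)
  have hδε : 4 * ((M : ℝ) + 1) * δ ≤ ε := by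
    have h1 : δ ≤ ε / (4 * (M + 1)) := min_le_right _ _
    rw [le_div_iff₀ hM0] at h1
    linarith
  obtain ⟨R, hR⟩ := hmin.lim δ hδ
  obtain ⟨R', hR'⟩ := exists_nat_ge (4 * c * (R + 1) / ε)
  refine ⟨δ, hδ, R', fun H γ t τ s ρ hH hγ hs hρ hτ => ?_⟩
  have hs' : 4 * c * (R + 1) ≤ ε * s := by
    have h1 : 4 * c * (R + 1) / ε ≤ s := hR'.trans (by exact_mod_cast hs)
    rw [div_le_iff₀ hε] at h1
    linarith
  have hgeo : ∀ (x : ℤ) (a : ℕ), |x| + a ≤ ρ → Geo S (t + x - a) (t + x + a) γ := by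
    intro x a hxa
    refine bas_geo_mono hγ ?_ ?_ <;>
      rcases abs_cases x with ⟨h3, _⟩ | ⟨h3, _⟩ <;> omega
  constructor
  · intro hcard
    have h1 := sub_final g c ε δ R M hδ (min_le_left _ _) hδε hR
      (fun x a => ((ball S (γ (t + x)) a).card : ℝ)) ρ s (τ - t) hτ hρ hs'
      (fun J hJ hd => by
        have h2 := bas_sum_card h hγ J hJ hd
        show (∑ a ∈ J, ((ball S (γ (t + a.1)) a.2).card : ℝ)) ≤ ((ball S (γ (t + 0)) ρ).card : ℝ)
        rw [add_zero]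
        exact_mod_cast h2)
      (fun x a hxa => by
        exact_mod_cast hmin.lo H hH γ (t + x) a (hgeo x a hxa))
      (by
        show ((ball S (γ (t + 0)) ρ).card : ℝ) ≤ (c + δ) * ρ
        rw [add_zero]
        exact hcard)
    have h2 : t + (τ - t) = τ := by ring
    simp only [h2] at h1
    exact h1
  · intro β hβ hFF
    have h1 := sub_final g c ε δ R M hδ (min_le_left _ _) hδε hR
      (fun x a => FF S γ β (t + x) a) ρ s (τ - t) hτ hρ hs'
      (fun J hJ hd => by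
        have h2 := bas_sum_FF h hγ hβ J hJ hd
        show (∑ a ∈ J, FF S γ β (t + a.1) a.2) ≤ FF S γ β (t + 0) ρ
        rw [add_zero]
        exact h2)
      (fun x a hxa => by
        have h2 : (g a : ℝ) ≤ ((ball S (γ (t + x)) a).card : ℝ) := by
          exact_mod_cast hmin.lo H hH γ (t + x) a (hgeo x a hxa)
        exact h2.trans (bas_card_le_FF (hgeo x a hxa) hβ))
      (by
        show FF S γ β (t + 0) ρ ≤ (c + δ) * ρ
        rw [add_zero]
        exact hFF)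
    have h2 : t + (τ - t) = τ := by ring
    simp only [h2] at h1
    exact h1

end

end Pool.Agent.LGT
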