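/-
Row UNIF (helper82): the uniform form of the theorem on Schreier graphs of linear growth.
-/
import Pool.Agent.Lib.LGT.Rows

set_option autoImplicit false

namespace Pool.Agent.LGT

open scoped Pointwise
open Classical

noncomputable section

/-- the free group of rank `m` modulo all `n`-th powers -/
abbrev UNIF_N (m n : ℕ) : Subgroup (FreeGroup (Fin m)) :=
  Subgroup.normalClosure (Set.range fun a : FreeGroup (Fin m) => a ^ n)

/-- the free Burnside group -/
def UNIF_B (m n : ℕ) : Type := FreeGroup (Fin m) ⧸ UNIF_N m n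

instance UNIF_grp (m n : ℕ) : Group (UNIF_B m n) :=
  inferInstanceAs (Group (FreeGroup (Fin m) ⧸ UNIF_N m n))

/-- the projection -/
def UNIF_mk (m n : ℕ) : FreeGroup (Fin m) →* UNIF_B m n := QuotientGroup.mk' (UNIF_N m n)

theorem UNIF_mk_surj (m n : ℕ) : Function.Surjective (UNIF_mk m n) :=
  QuotientGroup.mk'_surjective _

/-- its generators -/
def UNIF_x (m n : ℕ) (j : Fin m) : UNIF_B m n := UNIF_mk m n (FreeGroup.of j)

/-- the generating set -/
def UNIF_S (m n : ℕ) : Finset (UNIF_B m n) :=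
  insert 1 (Finset.univ.image (UNIF_x m n) ∪ Finset.univ.image fun j => (UNIF_x m n j)⁻¹)

theorem UNIF_mem {m n : ℕ} {s : UNIF_B m n} : s ∈ UNIF_S m n ↔
    s = 1 ∨ (∃ j, UNIF_x m n j = s) ∨ ∃ j, (UNIF_x m n j)⁻¹ = s := by
  simp [UNIF_S]

theorem UNIF_exp (m n : ℕ) (q : UNIF_B m n) : q ^ n = 1 := by
  obtain ⟨a, rfl⟩ := UNIF_mk_surj m n q
  rw [← map_pow]
  exact (QuotientGroup.eq_one_iff (N := UNIF_N m n) _).2 (Subgroup.subset_normalClosure ⟨a, rfl⟩)

theorem UNIF_closure (m n : ℕ) : Subgroup.closure (Set.range (UNIF_x m n)) = ⊤ := by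
  have h1 : Set.range (UNIF_x m n) = (UNIF_mk m n) '' Set.range FreeGroup.of := by
    rw [← Set.range_comp]
    rfl
  rw [h1, ← MonoidHom.map_closure, FreeGroup.closure_range_of, ← MonoidHom.range_eq_map]
  exact MonoidHom.range_eq_top.2 (UNIF_mk_surj m n)

theorem UNIF_gen (m n : ℕ) : Gen (UNIF_S m n) where
  one := UNIF_mem.2 (Or.inl rfl)
  inv := by
    intro s hs
    rcases UNIF_mem.1 hs with rfl | ⟨j, rfl⟩ | ⟨j, rfl⟩
    · exact UNIF_mem.2 (Or.inl inv_one)
    · exact UNIF_mem.2 (Or.inr (Or.inr ⟨j, rfl⟩))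
    · exact UNIF_mem.2 (Or.inr (Or.inl ⟨j, (inv_inv _).symm⟩))
  gen := by
    intro g
    have hg : g ∈ Subgroup.closure (Set.range (UNIF_x m n)) := by rw [UNIF_closure]; trivial
    induction hg using Subgroup.closure_induction'' with
    | mem x hx =>
      obtain ⟨j, rfl⟩ := hx
      exact ⟨1, by rw [pow_one]; exact UNIF_mem.2 (Or.inr (Or.inl ⟨j, rfl⟩))⟩
    | inv_mem x hx =>
      obtain ⟨j, rfl⟩ := hx
      exact ⟨1, by rw [pow_one]; exact UNIF_mem.2 (Or.inr (Or.inr ⟨j, rfl⟩))⟩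
    | one => exact ⟨0, by simp⟩
    | mul x y _ _ ihx ihy =>
      obtain ⟨a, ha⟩ := ihx
      obtain ⟨b, hb⟩ := ihy
      exact ⟨a + b, by rw [pow_add]; exact Finset.mul_mem_mul ha hb⟩

section

variable {m n : ℕ} {G : Type*} [Group G] (e : Fin m → G)

theorem UNIF_lift (hexp : ∀ a : G, a ^ n = 1) :
    ∃ φ : UNIF_B m n →* G, ∀ j, φ (UNIF_x m n j) = e j := by
  have h1 : UNIF_N m n ≤ (FreeGroup.lift e).ker := by
    refine Subgroup.normalClosure_le_normal ?_
    rintro _ ⟨a, rfl⟩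
    change a ^ n ∈ (FreeGroup.lift e).ker
    rw [MonoidHom.mem_ker, map_pow, hexp]
  let φ : UNIF_B m n →* G := QuotientGroup.lift (UNIF_N m n) (FreeGroup.lift e) h1
  refine ⟨φ, fun j => ?_⟩
  change QuotientGroup.lift (UNIF_N m n) (FreeGroup.lift e) h1 (QuotientGroup.mk (FreeGroup.of j)) = _
  rw [QuotientGroup.lift_mk, FreeGroup.lift_apply_of]

theorem UNIF_surj (hgen : Subgroup.closure (Set.range e) = ⊤) (φ : UNIF_B m n →* G)
    (hφ : ∀ j, φ (UNIF_x m n j) = e j) : Function.Surjective φ := by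
  rw [← MonoidHom.range_eq_top, eq_top_iff, ← hgen, Subgroup.closure_le]
  rintro _ ⟨j, rfl⟩
  exact ⟨UNIF_x m n j, hφ j⟩

variable {X : Type*} [MulAction G X]

theorem UNIF_within (φ : UNIF_B m n →* G) (hφ : ∀ j, φ (UNIF_x m n j) = e j) (k : ℕ) :
    ∀ (u : UNIF_B m n) (y : X), u ∈ UNIF_S m n ^ k → QLN.Within (Set.range e) k y (φ u • y) := by
  induction k with
  | zero =>
    intro u y hu
    rw [pow_zero, Finset.mem_one] at hu
    rw [hu, map_one, one_smul]
    rfl
  | succ k ih =>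
    intro u y hu
    rw [pow_succ', Finset.mem_mul] at hu
    obtain ⟨s, hs, v, hv, rfl⟩ := hu
    refine ⟨φ v • y, ih v y hv, ?_⟩
    rw [map_mul, mul_smul]
    rcases UNIF_mem.1 hs with rfl | ⟨j, rfl⟩ | ⟨j, rfl⟩
    · left
      rw [map_one, one_smul]
    · right
      exact ⟨e j, ⟨j, rfl⟩, Or.inl (by rw [hφ])⟩
    · right
      refine ⟨e j, ⟨j, rfl⟩, Or.inr ?_⟩
      rw [map_inv, hφ, smul_inv_smul]

theorem UNIF_mono {S : Set G} {x y : X} {a b : ℕ} (hab : a ≤ b) (h : QLN.Within S a x y) :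
    QLN.Within S b x y := by
  induction hab with
  | refl => exact h
  | step _ ih => exact ⟨y, ih, Or.inl rfl⟩

end

/-- the balls grow as long as they are not everything -/
theorem UNIF_grow {G X : Type*} [Group G] [MulAction G X] [MulAction.IsPretransitive G X]
    {S : Finset G} (h : Gen S) (x y : X) (r : ℕ) (hy : y ∉ ball S x r) :
    r + 1 ≤ (ball S x r).card := by
  have hinv : ∀ j, ball S x (j + 1) = ball S x j → ∀ k, ball S x (j + k) = ball S x j := by
    intro j hj k
    induction k with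
    | zero => rfl
    | succ k ih =>
      refine le_antisymm ?_ (ball_mono h x (by omega))
      intro z hz
      obtain ⟨g, hg, rfl⟩ := (mem_ball_iff' x z _).1 hz
      rw [← add_assoc, pow_succ', Finset.mem_mul] at hg
      obtain ⟨s, hs, v, hv, rfl⟩ := hg
      have h1 : v • x ∈ ball S x j := by
        rw [← ih]
        exact (mem_ball_iff' _ _ _).2 ⟨v, hv, rfl⟩
      obtain ⟨v', hv', hv'x⟩ := (mem_ball_iff' _ _ _).1 h1
      rw [← hj, mul_smul, ← hv'x]
      refine (mem_ball_iff' _ _ _).2 ⟨s * v', ?_, mul_smul _ _ _⟩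
      rw [pow_succ']
      exact Finset.mul_mem_mul hs hv'
  have hne : ∀ j, j ≤ r → ball S x (j + 1) ≠ ball S x j := by
    intro j hj hc
    obtain ⟨M, hM⟩ := exists_mem_ball h x y
    have h1 : y ∈ ball S x (j + M) := ball_mono h x (by omega) hM
    rw [hinv j hc M] at h1
    exact hy (ball_mono h x hj h1)
  have key : ∀ j, j ≤ r → j + 1 ≤ (ball S x j).card := by
    intro j
    induction j with
    | zero =>
      intro _
      exact Finset.card_pos.2 ⟨x, (mem_ball_iff' _ _ _).2 ⟨1, by simp, one_smul _ _⟩⟩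
    | succ j ih =>
      intro hj
      have h1 : ball S x j ⊂ ball S x (j + 1) :=
        lt_of_le_of_ne (ball_mono h x (by omega)) (hne j (by omega)).symm
      have h2 := Finset.card_lt_card h1
      have h3 := ih (by omega)
      omega
  exact key r le_rfl

open Filter in
/-- **Row UNIF** -/
theorem rowUNIF.{w, z} (hLIM : RowLIM) : RowUNIF.{w, z} := by
  intro hmain m n C hn
  by_contra hcon
  push Not at hcon
  choose G X i1 i2 e hgen hexp x hx using hcon
  have hS := UNIF_gen m n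
  have hφ : ∀ R, ∃ φ : UNIF_B m n →* G R, ∀ j, φ (UNIF_x m n j) = e R j := fun R =>
    UNIF_lift (e R) (hexp R)
  choose φ hφ using hφ
  let H : ℕ → Subgroup (UNIF_B m n) := fun R => (MulAction.stabilizer (G R) (x R)).comap (φ R)
  have hH : ∀ (R : ℕ) (u v : UNIF_B m n), u • bp (H R) = v • bp (H R) ↔
      φ R u • x R = φ R v • x R := by
    intro R u v
    have h1 : u • bp (H R) = v • bp (H R) ↔ u⁻¹ * v ∈ H R := by
      rw [MulAction.Quotient.smul_coe, MulAction.Quotient.smul_coe, smul_eq_mul, smul_eq_mul,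
        mul_one, mul_one]
      exact QuotientGroup.eq
    rw [h1, Subgroup.mem_comap, MulAction.mem_stabilizer_iff, map_mul, map_inv, mul_smul,
      inv_smul_eq_iff]
    exact eq_comm
  have hbp : ∀ (K : Subgroup (UNIF_B m n)) (y : UNIF_B m n ⧸ K), ∃ u : UNIF_B m n,
      u • bp K = y := by
    intro K y
    exact MulAction.exists_smul_eq _ _ _
  have hcard : ∀ (R : ℕ) (u : UNIF_B m n) (r : ℕ),
      ((ball (UNIF_S m n) (u • bp (H R)) r).card : ℕ∞) ≤
        {z | QLN.Within (Set.range (e R)) r (φ R u • x R) z}.encard := by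
    intro R u r
    choose f hf using hbp (H R)
    rw [← Set.encard_coe_eq_coe_finsetCard]
    refine Set.encard_le_encard_of_injOn (f := fun y => φ R (f y) • x R) ?_ ?_
    · intro y hy
      obtain ⟨g, hg, rfl⟩ := (mem_ball_iff' _ _ _).1 (Finset.mem_coe.1 hy)
      have h1 : φ R (f (g • u • bp (H R))) • x R = φ R g • φ R u • x R := by
        have h2 : f (g • u • bp (H R)) • bp (H R) = (g * u) • bp (H R) := by
          rw [hf, mul_smul]
        rw [(hH R _ _).1 h2, map_mul, mul_smul]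
      change QLN.Within (Set.range (e R)) r (φ R u • x R) (φ R (f (g • u • bp (H R))) • x R)
      rw [h1]
      exact UNIF_within (e R) (φ R) (hφ R) r g _ hg
    · intro y _ y' _ h
      have h1 := (hH R _ _).2 h
      rw [hf, hf] at h1
      exact h1
  have hlen : ∀ (R : ℕ) (u : UNIF_B m n), len (UNIF_S m n) u ≤ R →
      QLN.Within (Set.range (e R)) R (x R) (φ R u • x R) := fun R u hu =>
    UNIF_mono hu (UNIF_within (e R) (φ R) (hφ R) _ u (x R) (len_mem hS u))
  obtain ⟨K, hK⟩ := hLIM (UNIF_B m n) (UNIF_S m n) hS H (fun R => bp (H R))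
  have hge : ∀ M : ℕ, ∀ᶠ i in (𝒰 : Filter ℕ), M ≤ i := by
    intro M
    have h1 : (𝒰 : Filter ℕ) ≤ Filter.atTop := by
      have := Filter.hyperfilter_le_cofinite (α := ℕ)
      rwa [Nat.cofinite_eq_atTop] at this
    exact h1 (Filter.eventually_ge_atTop M)
  have hbig : ∀ r : ℕ, r + 1 ≤ (ball (UNIF_S m n) (bp K) r).card := by
    intro r
    have h1 := hK.card 1 r
    obtain ⟨i, h2, h3⟩ := (h1.and (hge r)).exists
    rw [one_smul, one_smul] at h2
    rw [h2]
    obtain ⟨⟨y, hy, hyn⟩, _⟩ := hx i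
    obtain ⟨g, rfl⟩ := hy
    obtain ⟨u, rfl⟩ := UNIF_surj (e i) (hgen i) (φ i) (hφ i) g
    refine UNIF_grow hS (bp (H i)) (u • bp (H i)) r fun hc => hyn ?_
    obtain ⟨v, hv, hvu⟩ := (mem_ball_iff' _ _ _).1 hc
    have h4 := (hH i _ _).1 hvu
    change QLN.Within (Set.range (e i)) i (x i) (φ i u • x i)
    rw [← h4]
    exact hlen i v ((len_le hv).trans h3)
  refine hmain (UNIF_B m n) (UNIF_S m n) n C hS hn (UNIF_exp m n) K ⟨?_, ?_⟩
  · by_contra hfin
    rw [not_infinite_iff_finite] at hfin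
    have := Fintype.ofFinite (UNIF_B m n ⧸ K)
    have h1 := hbig (Fintype.card (UNIF_B m n ⧸ K))
    have h2 := Finset.card_le_univ (ball (UNIF_S m n) (bp K) (Fintype.card (UNIF_B m n ⧸ K)))
    omega
  · intro y r hr
    obtain ⟨u, rfl⟩ := hbp K y
    have h1 := hK.card u r
    obtain ⟨i, h2, h3⟩ := (h1.and (hge (max r (len (UNIF_S m n) u)))).exists
    rw [h2]
    have h4 := (hx i).2 (φ i u • x i) r (hlen i u ((le_max_right _ _).trans h3)) hr
      ((le_max_left _ _).trans h3)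
    have h5 := (hcard i u r).trans h4
    exact_mod_cast h5

end

end Pool.Agent.LGT
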